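import Pool.Agent.Run7.h951.Hyp.Fin

/-!
# The cone contains the blocks of small codimension and the squares
-/

set_option autoImplicit false
set_option linter.unusedSectionVars false

namespace Run7.h951.Hyp

open Finset Pool.Agent.W666.GB Pool.Agent.W669.HD Pool.Agent.Y519.HB
open Pool.Agent.N565.LZ (CausalOn CausalBlocks)

variable {V : Type} [NormedAddCommGroup V] [InnerProductSpace ℝ V] {ι : Type} [Fintype ι]
  [DecidableEq ι]

theorem symForm_top {U : Submodule ℝ V} {b : V → V → ℝ} (h : SymForm U b) : SymForm ⊤ b where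
  add := h.add
  smul := h.smul
  symm := h.symm
  lives x hx y := by
    rw [Submodule.top_orthogonal_eq_bot, Submodule.mem_bot] at hx
    have := h.smul 0 0 y
    rw [zero_smul, zero_mul] at this
    rw [hx]
    exact this

theorem causalOn_top {U : Submodule ℝ V} {N : ℕ} {S : V → V → V → V → ℝ} (h : CausalOn U N S) :
    CausalOn ⊤ N S := by
  obtain ⟨b, β, hb, hβ, hc, hS⟩ := h
  exact ⟨b, β, symForm_top hb, fun k => symForm_top (hβ k), hc, hS⟩

/-- quadratic forms in two linear functions -/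
noncomputable def gf (x y : V) (t p q r : ℝ) (u v : V) : ℝ :=
  t * (p * (inner ℝ x u * inner ℝ x v) + q * (inner ℝ y u * inner ℝ y v) +
    r * (inner ℝ x u * inner ℝ y v + inner ℝ y u * inner ℝ x v))

theorem gf_symm (x y : V) (t p q r : ℝ) : SymForm (⊤ : Submodule ℝ V) (gf x y t p q r) := by
  refine ⟨fun u u' v => ?_, fun s u v => ?_, fun u v => ?_, fun u hu v => ?_⟩
  · simp only [gf, inner_add_right]; ring
  · simp only [gf, inner_smul_right]; ring
  · simp only [gf]; ring
  · rw [Submodule.top_orthogonal_eq_bot, Submodule.mem_bot] at hu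
    rw [hu]
    simp [gf]

theorem neg_sq_causal (x y : V) : CausalOn ⊤ 2 (fun a b c d => -sqDec x y a b c d) := by
  have ht : Real.sqrt (1 / 3) * Real.sqrt (1 / 3) = 1 / 3 := Real.mul_self_sqrt (by norm_num)
  have ht0 : 0 ≤ Real.sqrt (1 / 3) := Real.sqrt_nonneg _
  set t : ℝ := Real.sqrt (1 / 3) with htd
  refine ⟨gf x y t 1 1 0, ![gf x y t 1 (-1) 0, gf x y t 0 0 1], gf_symm _ _ _ _ _ _, fun k => ?_,
    fun u => ⟨?_, ?_⟩, fun a b c d => ?_⟩
  · refine Fin.cases ?_ (fun k => ?_) k
    · exact gf_symm _ _ _ _ _ _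
    · refine Fin.cases ?_ (fun k => k.elim0) k
      exact gf_symm _ _ _ _ _ _
  · refine mul_nonneg ht0 ?_
    nlinarith [mul_self_nonneg (inner ℝ x u), mul_self_nonneg (inner ℝ y u)]
  · rw [Fin.sum_univ_two]
    simp only [Matrix.cons_val_zero, Matrix.cons_val_one, gf]
    apply le_of_eq
    ring
  · rw [Fin.sum_univ_two]
    simp only [Matrix.cons_val_zero, Matrix.cons_val_one, gf]
    unfold sqDec
    linear_combination (3 * (inner ℝ x a * inner ℝ y b - inner ℝ x b * inner ℝ y a) *
      (inner ℝ x c * inner ℝ y d - inner ℝ x d * inner ℝ y c)) * ht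

theorem CausalBlocks_coneSum {δ : ℝ} {R : V → V → V → V → ℝ} (h : CausalBlocks δ R)
    (e : OrthonormalBasis ι ℝ V) : ConeSum e δ R := by
  obtain ⟨r, U, N, S, n, x, y, p, q, h1, h2, h3, h4, h5, h6⟩ := h
  refine ⟨r + n, Fin.append S (fun k a b c d => -sqDec (x k) (y k) a b c d), fun i => ?_,
    fun a b c d => ?_⟩
  · refine Fin.addCases (fun i => ?_) (fun i => ?_) i
    · rw [Fin.append_left]
      exact Or.inl ⟨N i, causalOn_top (h3 i)⟩
    · rw [Fin.append_right]
      exact Or.inl ⟨2, neg_sq_causal _ _⟩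
  · rw [h6, Fin.sum_univ_add]
    simp only [Fin.append_left, Fin.append_right, Finset.sum_neg_distrib]
    ring

end Run7.h951.Hyp
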