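import Pool.Agent.Run7.h951.Hyp.Local

/-!
# The contradiction at a singular real zero
-/

set_option autoImplicit false
set_option linter.unusedSectionVars false

namespace Run7.h951.Hyp

open Filter Topology Finset

variable {I J : Type} [Fintype I] [DecidableEq I] [Fintype J] [DecidableEq J] (β : J → I)
  {U : Type} [NormedAddCommGroup U] [NormedSpace ℝ U]

theorem imv_smul_cx (t : ℂ) (d : I ⊕ J → ℝ) : imv (t • cx d) = t.im • d := by
  funext a; simp [imv, cx]

namespace Model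

variable (M : Model (I ⊕ J) U)

/-- `κ D_e² + ∑ (∂_{t_i})² - τ ∑ (∂_{x_j})²` -/
noncomputable def TT (κ τ : ℝ) : U →L[ℝ] U :=
  κ • M.dir e0 ^ 2 + ∑ i, M.dir (ti i) ^ 2 - τ • ∑ j, M.dir (xj j) ^ 2

theorem TT_commute (κ τ : ℝ) (w : I ⊕ J → ℝ) : Commute (M.TT κ τ) (M.dir w) := by
  unfold TT
  refine ((((M.dir_commute _ w).pow_left 2).smul_left κ).add_left ?_).sub_left ?_
  · exact Commute.sum_left _ _ _ fun i _ => (M.dir_commute _ w).pow_left 2
  · exact (Commute.sum_left _ _ _ fun i _ => (M.dir_commute _ w).pow_left 2).smul_left τ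

/-- behaviour along the directions of the closed cone -/
theorem boundary {c : U} (h : St (CC β) (M.E c)) {d : I ⊕ J → ℝ} (hd : d ∈ CB β) :
    (∀ t : ℂ, M.E c (t • cx d) = 0) ∨ (∀ t : ℂ, 0 < t.im → M.E c (t • cx d) ≠ 0) := by
  by_contra hcon
  push Not at hcon
  obtain ⟨⟨t1, ht1⟩, ⟨t0, ht0, hz⟩⟩ := hcon
  apply ht1
  set dk : ℕ → (I ⊕ J → ℝ) := fun k => d + (1 / ((k : ℝ) + 1)) • e0 with hdk
  choose f hf hfe using fun k => M.line c (t0 • cx (dk k)) (cx (dk k))
  have hlimd : Tendsto (fun k => cx (dk k)) atTop (𝓝 (cx d)) := by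
    have h1 : Tendsto dk atTop (𝓝 (d + (0 : ℝ) • e0)) :=
      ((tendsto_one_div_add_atTop_nhds_zero_nat (𝕜 := ℝ)).smul_const _).const_add d
    rw [zero_smul, add_zero] at h1
    have h2 : Continuous (cx : (I ⊕ J → ℝ) → (I ⊕ J → ℂ)) := by
      unfold cx; fun_prop
    exact (h2.tendsto d).comp h1
  have h1 := hurwitz_one (l := atTop) (n := M.n) (f := f)
    (g := fun t => M.E c (t0 • cx d + t • cx d)) hf
    (fun t => by
      simp only [hfe]
      exact M.tendsto_E tendsto_const_nhds ((hlimd.const_smul t0).add (hlimd.const_smul t)))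
    (r := t0.im) ht0 (Eventually.of_forall fun k t ht => by
      rw [hfe, ← add_smul]
      apply h
      rw [imv_smul_cx]
      apply CC_smul β (CB_add_e0 β hd (by positivity))
      rw [Complex.add_im]
      have := (abs_le.1 (Complex.abs_im_le_norm t)).1
      linarith) (by simpa using hz) (t1 - t0)
  rw [← add_smul, add_sub_cancel] at h1
  exact h1

theorem ac_zero (c : U) (x y : I ⊕ J → ℝ) : M.ac c x y (0, 0) = M.E c 0 := by
  simp [ac]

/-- the lowest order part has no zeros in the tube -/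
theorem low_St {c : U} (hc : St (CC β) (M.E c)) (m : ℕ)
    (h : ∀ (x y : I ⊕ J → ℝ) (p : ℕ × ℕ), p.1 + p.2 < m → M.ac c x y p = 0)
    (hne : ∃ w, M.low c m w ≠ 0) : St (CC β) (M.low c m) := by
  refine St.lim (l := 𝓝[>] (0 : ℝ)) (n := M.n) (isOpen_CC β)
    (F := fun ε z => ((ε : ℂ) ^ m)⁻¹ * M.E c ((ε : ℂ) • z)) (fun ε => ?_)
    (fun z => M.tendsto_low c m z h) (eventually_nhdsWithin_of_forall fun ε hε => ?_) hne
  · have h1 : (fun z => ((ε : ℂ) ^ m)⁻¹ * M.E c ((ε : ℂ) • z)) =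
        M.E (((ε ^ m)⁻¹ : ℝ) • M.S ε c) := by
      funext z
      rw [M.smul, M.dil]
      push_cast
      rfl
    rw [h1]
    exact M.line _
  · intro z hz
    have hε0 : (ε : ℂ) ≠ 0 := Complex.ofReal_ne_zero.2 (ne_of_gt hε)
    refine mul_ne_zero (inv_ne_zero (pow_ne_zero _ hε0)) (hc _ ?_)
    have : imv ((ε : ℂ) • z) = ε • imv z := by
      funext a; simp [imv]
    rw [this]
    exact CC_smul β hz hε

theorem TT_apply (κ τ : ℝ) (c : U) : M.E (M.TT κ τ c) 0 =
    ((κ * M.hess c e0 e0 + ((∑ i, M.hess c (ti i) (ti i)) - τ * ∑ j, M.hess c (xj j) (xj j)) : ℝ) :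
      ℂ) := by
  have h1 : ∀ w, (M.dir w ^ 2) c = M.dir w (M.dir w c) := fun w => by rw [sq]; rfl
  have h2 : M.TT κ τ c = κ • (M.dir e0 ^ 2) c + ((∑ i, (M.dir (ti i) ^ 2) c) +
      (-τ) • ∑ j, (M.dir (xj j) ^ 2) c) := by
    unfold TT
    rw [sub_apply, add_apply, smul_apply, smul_apply, _root_.sum_apply, _root_.sum_apply,
      neg_smul]
    abel
  rw [h2, M.add, M.add, M.smul, M.smul, M.E_sum, M.E_sum]
  simp only [h1, ← M.hess_apply]
  push_cast
  ring

/-- **no singular real zero** -/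
theorem contra [CompleteSpace U] {κ τ : ℝ} (hκ : 0 < κ) (hτ : 0 ≤ τ) (hτ1 : τ ≤ 1) {G : U}
    (hG : St (CC β) (M.E G))
    (hex : ∀ δ : ℝ, 0 < δ → δ < 1 → St (CC β) (M.E (ex (δ • M.TT κ τ) G))) {d : I ⊕ J → ℝ}
    (hd : d ∈ CB β) (hd0 : ∃ t : ℂ, M.E G (t • cx d) ≠ 0) (h0 : M.E G 0 = 0)
    (h1 : M.E (M.dir d G) 0 = 0) : False := by
  classical
  have hopen := isOpen_CC (I := I) (J := J) β
  have hdd : ∀ y ∈ CC β, ∀ s : ℝ, 0 ≤ s → y + s • d ∈ CC β := fun y hy s hs => CC_add β hy hd hs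
  -- the order of vanishing along `d`
  have hex1 : ∃ r, M.E ((M.dir d ^ r) G) 0 ≠ 0 := by
    by_contra hcon
    push Not at hcon
    obtain ⟨t, ht⟩ := hd0
    apply ht
    have := M.taylor' G 0 d t
    rw [zero_add] at this
    rw [this]
    exact Finset.sum_eq_zero fun j _ => by rw [hcon j, mul_zero]
  obtain ⟨r, hr, hmin⟩ : ∃ r, M.E ((M.dir d ^ (r + 2)) G) 0 ≠ 0 ∧
      ∀ j < r + 2, M.E ((M.dir d ^ j) G) 0 = 0 := by
    have h2 := Nat.find_spec hex1
    have h3 : ∀ j < Nat.find hex1, M.E ((M.dir d ^ j) G) 0 = 0 := fun j hj => by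
      have := Nat.find_min hex1 hj
      push Not at this
      exact this
    have h4 : Nat.find hex1 ≠ 0 := by
      intro h
      rw [h] at h2
      exact h2 (by simpa using h0)
    have h5 : Nat.find hex1 ≠ 1 := by
      intro h
      rw [h] at h2
      exact h2 (by simpa using h1)
    obtain ⟨r, hr⟩ : ∃ r, Nat.find hex1 = r + 2 := ⟨Nat.find hex1 - 2, by omega⟩
    rw [hr] at h2 h3
    exact ⟨r, h2, h3⟩
  set P : U := (M.dir d ^ r) G with hP
  have hP0 : M.E P 0 = 0 := hmin r (by omega)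
  have hP1 : M.E (M.dir d P) 0 = 0 := by
    have h2 : M.dir d P = (M.dir d ^ (r + 1)) G := by rw [pow_succ']; rfl
    rw [h2]
    exact hmin (r + 1) (by omega)
  have hP2 : M.E (M.dir d (M.dir d P)) 0 ≠ 0 := by
    have h2 : M.dir d (M.dir d P) = (M.dir d ^ (r + 2)) G := by
      rw [pow_succ', pow_succ']; rfl
    rw [h2]
    exact hr
  have hPne : P ≠ 0 := by
    intro h
    rw [h, map_zero, map_zero] at hP2
    exact hP2 (M.E_zero 0)
  have hPst : St (CC β) (M.E P) := M.St_dir_pow hopen hG hdd r hPne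
  have hPex : ∀ δ : ℝ, 0 < δ → δ < 1 → St (CC β) (M.E (ex (δ • M.TT κ τ) P)) := by
    intro δ h2 h3
    have h4 : ex (δ • M.TT κ τ) P = (M.dir d ^ r) (ex (δ • M.TT κ τ) G) := by
      have h5 : Commute (M.dir d ^ r) (ex (δ • M.TT κ τ)) :=
        ex_commute (((M.TT_commute κ τ d).symm.pow_left r).smul_right δ)
      exact (congrArg (fun f : U →L[ℝ] U => f G) h5.eq).symm
    have h6 : ex (δ • M.TT κ τ) P ≠ 0 := ex_inj hPne
    rw [h4] at h6 ⊢
    exact M.St_dir_pow hopen (hex δ h2 h3) hdd r h6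
  -- the derivative in direction `e0`
  have hPe : M.E (M.dir e0 P) 0 = 0 := by
    by_contra hne
    -- choose `κ'`
    set A2 : ℂ := M.E (M.dir d (M.dir d P)) 0 with hA2
    set A1 : ℂ := M.E (M.dir e0 P) 0 with hA1
    set q : ℝ := (1 / 2 * A2.re) / A1.re with hq
    have hA1r : A1 = (A1.re : ℂ) := M.E_re0 _
    have hA2r : A2 = (A2.re : ℂ) := M.E_re0 _
    have hA1re : A1.re ≠ 0 := by
      intro h; rw [h] at hA1r; exact hne (by simpa using hA1r)
    have hqe : (q : ℂ) * A1 = 1 / 2 * A2 := by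
      rw [hA1r, hA2r, ← Complex.ofReal_mul, hq, div_mul_cancel₀ _ hA1re]
      push_cast; ring
    -- the scaled elements
    set K : ℝ → U := fun ε => P + (q * ε ^ 2) • M.dir e0 P with hK
    have hKst : ∀ ε, St (CC β) (M.E (K ε)) := fun ε =>
      M.St_add_dir hPst (fun y hy s hs => CC_add β hy (CC_sub β (e0_mem β)) hs) _
    have hlim : ∀ t : ℂ, Tendsto (fun ε : ℝ => ((ε : ℂ) ^ 2)⁻¹ * M.E (K ε) ((ε : ℂ) • (t • cx d)))
        (𝓝[>] 0) (𝓝 (t ^ 2 * (1 / 2 * A2) + q * A1)) := by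
      intro t
      have e1 : Tendsto (fun ε : ℝ => ((ε : ℂ) ^ 2)⁻¹ * M.E P ((ε : ℂ) • (t • cx d))) (𝓝[>] 0)
          (𝓝 (t ^ 2 * (1 / 2 * A2))) := by
        have e2 : ∀ ε : ℝ, M.E P ((ε : ℂ) • (t • cx d)) =
            ∑ p ∈ (range (M.n + 1)) ×ˢ ({0} : Finset ℕ), (ε : ℂ) ^ (p.1 + p.2) *
              (t ^ p.1 / (p.1.factorial : ℂ) * M.E ((M.dir d ^ p.1) P) 0) := by
          intro ε
          have := M.taylor' P 0 d ((ε : ℂ) * t)
          rw [zero_add] at this
          rw [smul_smul, this, Finset.sum_product]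
          refine Finset.sum_congr rfl fun j _ => ?_
          rw [Finset.sum_singleton, mul_pow, add_zero]
          ring
        simp only [e2]
        have e3 := lim_sum ((range (M.n + 1)) ×ˢ ({0} : Finset ℕ))
          (fun p => t ^ p.1 / (p.1.factorial : ℂ) * M.E ((M.dir d ^ p.1) P) 0) 2 (by
            rintro ⟨a, b⟩ hp hlt
            simp only [mem_product, mem_singleton] at hp
            obtain ⟨-, rfl⟩ := hp
            have : a = 0 ∨ a = 1 := by simp at hlt; omega
            rcases this with rfl | rfl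
            · simp [hP0]
            · simp [hP1])
        have e4 : ((range (M.n + 1)) ×ˢ ({0} : Finset ℕ)).filter (fun p : ℕ × ℕ => p.1 + p.2 = 2) =
            {(2, 0)} := by
          have := M.hn
          ext ⟨a, b⟩
          simp only [mem_filter, mem_product, mem_range, mem_singleton, Prod.mk.injEq]
          omega
        rw [e4, Finset.sum_singleton] at e3
        convert! e3 using 2
        have e5 : (M.dir d ^ 2) P = M.dir d (M.dir d P) := by rw [sq]; rfl
        rw [e5, hA2]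
        simp only [Nat.factorial]
        push_cast
        ring
      have e6 : Tendsto (fun ε : ℝ => (q : ℂ) * M.E (M.dir e0 P) ((ε : ℂ) • (t • cx d))) (𝓝[>] 0)
          (𝓝 (q * A1)) := by
        have hz : Tendsto (fun ε : ℝ => (ε : ℂ) • (t • cx d)) (𝓝[>] 0) (𝓝 0) := by
          have hc : Continuous fun ε : ℝ => (ε : ℂ) • (t • cx d) := by fun_prop
          have := (hc.tendsto 0).mono_left (nhdsWithin_le_nhds (s := Set.Ioi (0 : ℝ)))
          simpa using this
        exact (M.tendsto_E tendsto_const_nhds hz).const_mul _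
      refine (e1.add e6).congr' (eventually_nhdsWithin_of_forall fun ε hε => ?_)
      have hε0 : (ε : ℂ) ≠ 0 := Complex.ofReal_ne_zero.2 (ne_of_gt hε)
      simp only [hK]
      rw [M.add, M.smul]
      push_cast
      field_simp
    -- the contradiction by Hurwitz at `t = i`
    choose f hf hfe using fun ε : ℝ => M.line ((ε ^ 2)⁻¹ • K ε) ((ε : ℂ) • (Complex.I • cx d))
      ((ε : ℂ) • cx d)
    have hval : ∀ (ε : ℝ) (t : ℂ), (f ε).eval t =
        ((ε : ℂ) ^ 2)⁻¹ * M.E (K ε) ((ε : ℂ) • ((Complex.I + t) • cx d)) := by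
      intro ε t
      rw [hfe, M.smul]
      push_cast
      congr 2
      simp only [smul_smul, ← add_smul]
      congr 1
      ring
    have hne2 : ∀ᶠ ε : ℝ in 𝓝[>] 0, ∀ t : ℂ, ‖t‖ < 1 → (f ε).eval t ≠ 0 := by
      have e1 := hlim 0
      have e2 : (0 : ℂ) ^ 2 * (1 / 2 * A2) + q * A1 ≠ 0 := by
        rw [hqe]
        simpa using hP2
      have e3 := e1.eventually_ne e2
      filter_upwards [e3, self_mem_nhdsWithin] with ε hε hε' t ht
      rw [hval]
      have hε0 : (0 : ℝ) < ε := hε'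
      have e4 : (ε : ℂ) ^ 2 ≠ 0 := pow_ne_zero _ (Complex.ofReal_ne_zero.2 hε0.ne')
      refine mul_ne_zero (inv_ne_zero e4) ?_
      rcases M.boundary β (hKst ε) hd with h | h
      · exfalso
        apply hε
        have := h 0
        rw [zero_smul] at this
        rw [zero_smul, smul_zero, this, mul_zero]
      · rw [smul_smul]
        apply h
        rw [Complex.im_ofReal_mul]
        refine mul_pos hε0 ?_
        rw [Complex.add_im, Complex.I_im]
        have := (abs_le.1 (Complex.abs_im_le_norm t)).1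
        linarith
    have h5 := hurwitz_one (l := 𝓝[>] (0 : ℝ)) (n := M.n) (f := f)
      (g := fun t => (Complex.I + t) ^ 2 * (1 / 2 * A2) + q * A1) hf (fun t => by
        simp only [hval]
        exact hlim _) one_pos hne2 (by
          rw [hqe, add_zero, Complex.I_sq]; ring) (-Complex.I)
    simp only [add_neg_cancel] at h5
    rw [hqe] at h5
    apply hP2
    have : (1 / 2 : ℂ) * A2 = 0 := by simpa using h5
    rcases mul_eq_zero.1 this with h | h
    · norm_num at h
    · exact h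
  -- all first derivatives vanish
  have hPw : ∀ w, M.E (M.dir w P) 0 = 0 := by
    by_contra hcon
    push Not at hcon
    obtain ⟨w, hw⟩ := hcon
    have h2 : M.dir (0 : I ⊕ J → ℝ) = 0 := by simp [dir]
    have h3 := M.low_St β hPst 1 (fun x y p hp => by
      have : p = (0, 0) := by ext <;> simp at * <;> omega
      rw [this, M.ac_zero, hP0]) ⟨cv w 0, by
        rw [M.low_one, h2, zero_apply, M.E_zero, mul_zero, add_zero]
        exact hw⟩ (cv 0 e0) (by rw [imv_cv]; exact e0_mem β)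
    apply h3
    rw [M.low_one, h2, zero_apply, M.E_zero, hPe, mul_zero, add_zero]
  have hvan : ∀ (x y : I ⊕ J → ℝ) (p : ℕ × ℕ), p.1 + p.2 < 2 → M.ac P x y p = 0 := by
    intro x y p hp
    have : p = (0, 0) ∨ p = (1, 0) ∨ p = (0, 1) := by
      obtain ⟨a, b⟩ := p
      simp only [Prod.mk.injEq] at *
      omega
    rcases this with rfl | rfl | rfl
    · rw [M.ac_zero, hP0]
    · simp [ac, hPw]
    · simp [ac, hPw]
  set b := M.hess P with hb
  have hbd : b d d ≠ 0 := by
    intro h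
    apply hP2
    rw [← M.hess_apply, ← hb, h]
    simp
  have hq : St (CC β) (M.low P 2) := M.low_St β hPst 2 hvan ⟨cv d 0, by
    rw [M.low_two', ← hb]
    intro h
    apply hbd
    have := congrArg Complex.re h
    simpa using this⟩
  have H : ∀ X, ∀ Y ∈ CC β, ¬ (b X X = b Y Y ∧ b X Y = 0) := by
    rintro X Y hY ⟨h2, h3⟩
    apply hq (cv X Y) (by rw [imv_cv]; exact hY)
    rw [M.low_two', ← hb, h2, h3]
    simp
  set θ : ℝ := κ * b e0 e0 + ((∑ i, b (ti i) (ti i)) - τ * ∑ j, b (xj j) (xj j)) with hθ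
  have hTP : M.E (M.TT κ τ P) 0 = (θ : ℂ) := M.TT_apply κ τ P
  have hq2 : St (CC β) (fun z => M.low P 2 z + (θ : ℂ)) := by
    refine St.lim (l := 𝓝[>] (0 : ℝ)) (n := M.n) hopen
      (F := fun ε z => ((ε : ℂ) ^ 2)⁻¹ * M.E (ex (ε ^ 2 • M.TT κ τ) P) ((ε : ℂ) • z))
      (fun ε => ?_) (fun z => ?_) ?_ ?_
    · have h1 : (fun z => ((ε : ℂ) ^ 2)⁻¹ * M.E (ex (ε ^ 2 • M.TT κ τ) P) ((ε : ℂ) • z)) =
          M.E (((ε ^ 2)⁻¹ : ℝ) • M.S ε (ex (ε ^ 2 • M.TT κ τ) P)) := by
        funext z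
        rw [M.smul, M.dil]
        push_cast
        rfl
      rw [h1]
      exact M.line _
    · have e1 := M.tendsto_low P 2 z hvan
      have e2 : Tendsto (fun ε : ℝ => M.E (((ε ^ 2)⁻¹ • (ex (ε ^ 2 • M.TT κ τ) - 1)) P)
          ((ε : ℂ) • z)) (𝓝[>] 0) (𝓝 (θ : ℂ)) := by
        rw [← hTP]
        have hsq : Tendsto (fun ε : ℝ => ε ^ 2) (𝓝[>] 0) (𝓝[>] 0) := by
          rw [tendsto_nhdsWithin_iff]
          constructor
          · have hc : Continuous fun ε : ℝ => ε ^ 2 := by fun_prop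
            have := (hc.tendsto 0).mono_left (nhdsWithin_le_nhds (s := Set.Ioi (0 : ℝ)))
            simpa using this
          · refine eventually_nhdsWithin_of_forall fun ε hε => ?_
            have : (0 : ℝ) < ε := hε
            exact pow_pos this 2
        have h2 := (ex_smul_deriv_pos (M.TT κ τ)).comp hsq
        have h3 : Tendsto (fun ε : ℝ => ((ε ^ 2)⁻¹ • (ex (ε ^ 2 • M.TT κ τ) - 1)) P) (𝓝[>] 0)
            (𝓝 (M.TT κ τ P)) :=
          ((ContinuousLinearMap.apply ℝ U P).continuous.tendsto _).comp h2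
        refine M.tendsto_E h3 ?_
        have hc : Continuous fun ε : ℝ => (ε : ℂ) • z := by fun_prop
        have := (hc.tendsto 0).mono_left (nhdsWithin_le_nhds (s := Set.Ioi (0 : ℝ)))
        simpa using this
      refine (e1.add e2).congr' (eventually_nhdsWithin_of_forall fun ε hε => ?_)
      have hε0 : (ε : ℂ) ≠ 0 := Complex.ofReal_ne_zero.2 (ne_of_gt hε)
      have hε1 : (ε : ℝ) ^ 2 ≠ 0 := pow_ne_zero _ (ne_of_gt hε)
      have e3 : ex (ε ^ 2 • M.TT κ τ) P =
          P + (ε ^ 2) • (((ε ^ 2)⁻¹ • (ex (ε ^ 2 • M.TT κ τ) - 1)) P) := by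
        rw [smul_apply, smul_smul, mul_inv_cancel₀ hε1, one_smul, sub_apply, one_apply_eq_self]
        abel
      show _ = ((ε : ℂ) ^ 2)⁻¹ * M.E (ex (ε ^ 2 • M.TT κ τ) P) ((ε : ℂ) • z)
      rw [e3, M.add, M.smul]
      push_cast
      field_simp
    · have h2 : ∀ᶠ ε : ℝ in 𝓝[>] 0, ε < 1 := by
        have : ∀ᶠ ε : ℝ in 𝓝 0, ε < 1 := eventually_lt_nhds one_pos
        exact this.filter_mono nhdsWithin_le_nhds
      filter_upwards [h2, self_mem_nhdsWithin] with ε hε hε' z hz
      have hε0 : (0 : ℝ) < ε := hε'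
      have hε1 : (ε : ℂ) ≠ 0 := Complex.ofReal_ne_zero.2 hε0.ne'
      refine mul_ne_zero (inv_ne_zero (pow_ne_zero _ hε1)) ?_
      apply hPex (ε ^ 2) (pow_pos hε0 2) (by nlinarith)
      have : imv ((ε : ℂ) • z) = ε • imv z := by
        funext a; simp [imv]
      rw [this]
      exact CC_smul β hz hε0
    · by_contra hcon
      push Not at hcon
      have h2 := hcon (cv 0 0)
      have h3 := hcon (cv d 0)
      rw [M.low_two', ← hb] at h2 h3
      have h4 := congrArg Complex.re h2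
      have h5 := congrArg Complex.re h3
      simp at h4 h5
      rw [h4] at h5
      exact hbd (by linarith)
  have hbe : b e0 e0 ≠ 0 := by
    intro h
    exact H 0 e0 (e0_mem β) ⟨by simp [h], by simp⟩
  have hpos : 0 < θ / b e0 e0 := by
    rcases lt_or_gt_of_ne hbe with h | h
    · have h2 := form_trace β (-b) (fun x y => by
          simp only [LinearMap.neg_apply]; rw [hb, M.hess_symm])
        (fun X Y hY h3 => H X Y hY ⟨by simpa using h3.1, by simpa using h3.2⟩)
        (by simpa using h) hτ hτ1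
      simp only [LinearMap.neg_apply, Finset.sum_neg_distrib] at h2
      apply div_pos_of_neg_of_neg _ h
      rw [hθ]
      have := mul_neg_of_pos_of_neg hκ h
      linarith
    · have h2 := form_trace β b (fun x y => by rw [hb, M.hess_symm]) H h hτ hτ1
      apply div_pos _ h
      rw [hθ]
      have := mul_pos hκ h
      linarith
  set y : ℝ := Real.sqrt (2 * (θ / b e0 e0)) with hy
  have hy0 : 0 < y := Real.sqrt_pos.2 (by linarith)
  have hy2 : y * y = 2 * (θ / b e0 e0) := Real.mul_self_sqrt (by linarith)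
  apply hq2 (cv 0 (y • e0)) (by rw [imv_cv]; exact CC_smul β (e0_mem β) hy0)
  show M.low P 2 (cv 0 (y • e0)) + (θ : ℂ) = 0
  rw [M.low_two', ← hb]
  have h2 : b (y • e0) (y • e0) = 2 * θ := by
    rw [map_smul, map_smul, LinearMap.smul_apply, smul_eq_mul, smul_eq_mul, ← mul_assoc, hy2]
    field_simp
  rw [h2]
  simp

end Model

end Run7.h951.Hyp
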