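import Pool.Agent.Run7.h951.Hyp.Pol

/-!
# Stable determinants
-/

set_option autoImplicit false
set_option linter.unusedSectionVars false

namespace Run7.h951.Hyp

open MvPolynomial Finset Filter Topology
open Pool.Agent.W666.GB (Yf sn)

section pencil

variable {K : Type} [Fintype K] [DecidableEq K] {n : Type} [Fintype n] [DecidableEq n]

/-- the quadratic form of a matrix -/
def qf (b : n → n → ℝ) (x : n → ℝ) : ℝ := ∑ i, ∑ j, b i j * (x i * x j)

theorem qf_smul (b : n → n → ℝ) (r : ℝ) (x : n → ℝ) : qf b (r • x) = r ^ 2 * qf b x := by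
  unfold qf
  rw [Finset.mul_sum]
  refine Finset.sum_congr rfl fun i _ => ?_
  rw [Finset.mul_sum]
  refine Finset.sum_congr rfl fun j _ => ?_
  simp only [Pi.smul_apply, smul_eq_mul]
  ring

theorem qf_cont (b : n → n → ℝ) : Continuous (qf b) := by
  unfold qf; fun_prop

/-- the directions in which the pencil is positive definite -/
def PC (B : K → n → n → ℝ) : Set (K → ℝ) := {d | ∀ x : n → ℝ, x ≠ 0 → 0 < ∑ k, d k * qf (B k) x}

theorem PC_smul (B : K → n → n → ℝ) (r : ℝ) (hr : 0 < r) (y : K → ℝ) (hy : y ∈ PC B) :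
    r • y ∈ PC B := by
  intro x hx
  have h1 := hy x hx
  have h2 : ∑ k, (r • y) k * qf (B k) x = r * ∑ k, y k * qf (B k) x := by
    rw [Finset.mul_sum]
    refine Finset.sum_congr rfl fun k _ => ?_
    simp only [Pi.smul_apply, smul_eq_mul]
    ring
  rw [h2]
  positivity

theorem PC_isOpen (B : K → n → n → ℝ) : IsOpen (PC B) := by
  rw [isOpen_iff_mem_nhds]
  intro d hd
  have h1 : ∀ᶠ d' in 𝓝 d, ∀ x ∈ Metric.sphere (0 : n → ℝ) 1, 0 < ∑ k, d' k * qf (B k) x := by
    refine (isCompact_sphere (0 : n → ℝ) 1).eventually_forall_of_forall_eventually ?_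
    intro x hx
    have hc : Continuous fun q : (K → ℝ) × (n → ℝ) => ∑ k, q.1 k * qf (B k) q.2 := by
      have := fun k => qf_cont (B k)
      fun_prop
    have hx0 : x ≠ 0 := by
      rintro rfl
      simp at hx
    exact hc.continuousAt.eventually (lt_mem_nhds (hd x hx0))
  filter_upwards [h1] with d' hd' x hx
  have hn : 0 < ‖x‖ := norm_pos_iff.2 hx
  have h2 := hd' (‖x‖⁻¹ • x) (by
    rw [mem_sphere_zero_iff_norm, norm_smul, norm_inv, norm_norm]
    exact inv_mul_cancel₀ hn.ne')
  simp only [qf_smul] at h2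
  have h3 : ∑ k, d' k * (‖x‖⁻¹ ^ 2 * qf (B k) x) = ‖x‖⁻¹ ^ 2 * ∑ k, d' k * qf (B k) x := by
    rw [Finset.mul_sum]
    exact Finset.sum_congr rfl fun k _ => by ring
  rw [h3] at h2
  exact (mul_pos_iff_of_pos_left (by positivity)).1 h2

/-- the matrix of the pencil -/
noncomputable def pm (B : K → n → n → ℝ) (z : K → ℂ) : Matrix n n ℂ :=
  Matrix.of fun i j => ∑ k, z k * (B k i j : ℂ)

theorem herm_form (b : n → n → ℝ) (hb : ∀ i j, b i j = b j i) (v : n → ℂ) :
    ∑ i, ∑ j, star (v i) * ((b i j : ℂ) * v j) =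
      ((qf b (fun i => (v i).re) + qf b (fun i => (v i).im) : ℝ) : ℂ) := by
  have h1 : ∀ i j, star (v i) * ((b i j : ℂ) * v j) =
      ((b i j * ((v i).re * (v j).re) + b i j * ((v i).im * (v j).im) : ℝ) : ℂ) +
      ((b i j * ((v i).re * (v j).im) : ℝ) : ℂ) * Complex.I -
      ((b i j * ((v i).im * (v j).re) : ℝ) : ℂ) * Complex.I := by
    intro i j
    apply Complex.ext
    · simp only [RCLike.star_def, Complex.mul_re, Complex.conj_re, Complex.ofReal_re,
        Complex.conj_im, Complex.mul_im, Complex.ofReal_im, Complex.sub_re, Complex.add_re,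
        Complex.I_re, Complex.I_im]
      ring
    · simp only [RCLike.star_def, Complex.mul_re, Complex.conj_re, Complex.ofReal_re,
        Complex.conj_im, Complex.mul_im, Complex.ofReal_im, Complex.sub_im, Complex.add_im,
        Complex.I_re, Complex.I_im]
      ring
  simp only [h1, Finset.sum_sub_distrib, Finset.sum_add_distrib]
  have h2 : ∑ i, ∑ j, ((b i j * ((v i).im * (v j).re) : ℝ) : ℂ) * Complex.I =
      ∑ i, ∑ j, ((b i j * ((v i).re * (v j).im) : ℝ) : ℂ) * Complex.I := by
    rw [Finset.sum_comm]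
    refine Finset.sum_congr rfl fun i _ => Finset.sum_congr rfl fun j _ => ?_
    rw [hb j i]
    congr 2
    ring
  rw [h2, add_sub_cancel_right]
  unfold qf
  push_cast
  simp only [← Finset.sum_add_distrib]

theorem det_pm_ne (B : K → n → n → ℝ) (hB : ∀ k i j, B k i j = B k j i) (z : K → ℂ)
    (hz : imv z ∈ PC B) : (pm B z).det ≠ 0 := by
  intro h0
  obtain ⟨v, hv, hv0⟩ := Matrix.exists_mulVec_eq_zero_iff.2 h0
  have h1 : ∑ i, star (v i) * (pm B z).mulVec v i = 0 := by
    rw [hv0]; simp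
  have h2 : ∑ i, star (v i) * (pm B z).mulVec v i =
      ∑ k, z k * ((qf (B k) (fun i => (v i).re) + qf (B k) (fun i => (v i).im) : ℝ) : ℂ) := by
    simp only [← herm_form (B _) (hB _) v, Matrix.mulVec, dotProduct, pm, Matrix.of_apply]
    simp only [Finset.mul_sum, Finset.sum_mul]
    rw [Finset.sum_congr rfl fun i _ => Finset.sum_comm, Finset.sum_comm]
    refine Finset.sum_congr rfl fun k _ => Finset.sum_congr rfl fun i _ =>
      Finset.sum_congr rfl fun j _ => ?_
    ring
  rw [h2] at h1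
  have h3 := congrArg Complex.im h1
  rw [Complex.im_sum] at h3
  simp only [Complex.im_mul_ofReal, Complex.zero_im] at h3
  simp only [mul_add, Finset.sum_add_distrib] at h3
  have hge : ∀ x : n → ℝ, 0 ≤ ∑ k, (z k).im * qf (B k) x := by
    intro x
    by_cases hx : x = 0
    · rw [hx]
      simp [qf]
    · exact (hz x hx).le
  by_cases hre : (fun i => (v i).re) = 0
  · have him : (fun i => (v i).im) ≠ 0 := by
      intro him
      apply hv
      funext i
      exact Complex.ext (congrFun hre i) (congrFun him i)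
    have h4 := hz _ him
    have h5 := hge (fun i => (v i).re)
    simp only [imv] at h4
    linarith
  · have h4 := hz _ hre
    have h5 := hge (fun i => (v i).im)
    simp only [imv] at h4
    linarith

end pencil

section det

variable {K : Type} [Fintype K] [DecidableEq K] {m : ℕ}

theorem aeval_detP (B : K → Fin m × Bool → Fin m × Bool → ℝ) (z : K → ℂ) :
    aeval z (detP B) = (pm B z).det := by
  rw [detP, AlgHom.map_det]
  congr 1
  ext i j
  simp [pm, AlgHom.mapMatrix_apply]

theorem eval_detP (B : K → Fin m × Bool → Fin m × Bool → ℝ) (d : K → ℝ) :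
    eval d (detP B) = (Matrix.of fun i j => ∑ k, d k * B k i j).det := by
  rw [detP, RingHom.map_det]
  congr 1
  ext i j
  simp [RingHom.mapMatrix_apply]

theorem eval_detP_pos (B : K → Fin m × Bool → Fin m × Bool → ℝ)
    (hB : ∀ k i j, B k i j = B k j i) (d : K → ℝ) (hd : d ∈ PC B) :
    0 < eval d (detP B) := by
  rw [eval_detP]
  refine Matrix.PosDef.det_pos (Matrix.PosDef.of_dotProduct_mulVec_pos ?_ ?_)
  · ext i j
    simp only [Matrix.conjTranspose_apply, Matrix.of_apply, star_trivial]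
    exact Finset.sum_congr rfl fun k _ => by rw [hB k j i]
  · intro x hx
    have h1 := hd x hx
    have h2 : star x ⬝ᵥ ((Matrix.of fun i j => ∑ k, d k * B k i j).mulVec x) =
        ∑ k, d k * qf (B k) x := by
      simp only [Matrix.mulVec, dotProduct, Matrix.of_apply, qf, star_trivial,
        Pi.star_apply, Finset.mul_sum, Finset.sum_mul]
      rw [Finset.sum_congr rfl fun i _ => Finset.sum_comm, Finset.sum_comm]
      refine Finset.sum_congr rfl fun k _ => Finset.sum_congr rfl fun i _ =>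
        Finset.sum_congr rfl fun j _ => ?_
      ring
    rw [h2]
    exact h1

end det

section main

variable {I J : Type} [Fintype I] [DecidableEq I] [Fintype J] [DecidableEq J] {β : J → I}

/-- the signs -/
def sg0 : I ⊕ J → ℝ := Sum.elim (fun _ => 1) (fun _ => -1)

theorem dirP_ti (i : I) (p : MvPolynomial (I ⊕ J) ℝ) : dirP (ti i) p = pderiv (Sum.inl i) p := by
  rw [dirP_apply, Finset.sum_eq_single (Sum.inl i)]
  · simp [ti]
  · intro b _ hb
    simp [ti, Pi.single_eq_of_ne hb]
  · intro h; exact absurd (Finset.mem_univ _) h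

theorem dirP_xj (j : J) (p : MvPolynomial (I ⊕ J) ℝ) : dirP (xj j) p = pderiv (Sum.inr j) p := by
  rw [dirP_apply, Finset.sum_eq_single (Sum.inr j)]
  · simp [xj]
  · intro b _ hb
    simp [xj, Pi.single_eq_of_ne hb]
  · intro h; exact absurd (Finset.mem_univ _) h

theorem TP_eq : (TP 0 1 : MvPolynomial (I ⊕ J) ℝ →ₗ[ℝ] MvPolynomial (I ⊕ J) ℝ) = T0 sg0 := by
  refine LinearMap.ext fun p => ?_
  unfold TP
  rw [LinearMap.sub_apply, LinearMap.add_apply, LinearMap.smul_apply, LinearMap.smul_apply,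
    LinearMap.sum_apply, LinearMap.sum_apply, T0_apply, Fintype.sum_sum_type]
  simp only [sq, Module.End.mul_apply, dirP_ti, dirP_xj, sg0, Sum.elim_inl, Sum.elim_inr,
    one_smul, zero_smul, zero_add, neg_smul, Finset.sum_neg_distrib, sub_eq_add_neg]

/-- the perturbed pencil -/
def pert {n : Type} [DecidableEq n] (ε : ℝ) (B : I ⊕ J → n → n → ℝ) : I ⊕ J → n → n → ℝ :=
  fun k a b => B k a b + Sum.elim (fun _ => ε) (fun _ => 0) k * (if a = b then 1 else 0)

theorem qf_pert_inl {n : Type} [Fintype n] [DecidableEq n] (ε : ℝ) (B : I ⊕ J → n → n → ℝ) (i : I)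
    (x : n → ℝ) : qf (pert ε B (Sum.inl i)) x = qf (B (Sum.inl i)) x + ε * ∑ a, x a ^ 2 := by
  unfold qf pert
  simp only [Sum.elim_inl, add_mul, Finset.sum_add_distrib]
  congr 1
  rw [Finset.mul_sum]
  refine Finset.sum_congr rfl fun a _ => ?_
  rw [Finset.sum_eq_single a]
  · simp only [if_true]; ring
  · intro b _ hb
    rw [if_neg (Ne.symm hb)]
    ring
  · intro h; exact absurd (Finset.mem_univ _) h

theorem qf_pert_inr {n : Type} [Fintype n] [DecidableEq n] (ε : ℝ) (B : I ⊕ J → n → n → ℝ) (j : J)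
    (x : n → ℝ) : qf (pert ε B (Sum.inr j)) x = qf (B (Sum.inr j)) x := by
  unfold qf pert
  simp

theorem sum_fiber (f : J → ℝ) : ∑ j, f j = ∑ i, ∑ j with β j = i, f j :=
  (Finset.sum_fiberwise univ β f).symm

theorem PC_big {n : Type} [Fintype n] [DecidableEq n] {ε : ℝ} (hε : 0 < ε)
    (B : I ⊕ J → n → n → ℝ) (h0 : ∀ i x, 0 ≤ qf (B (Sum.inl i)) x)
    (h1 : ∀ i x, ∑ j with β j = i, qf (B (Sum.inr j)) x ^ 2 ≤ qf (B (Sum.inl i)) x ^ 2) :
    Big β (PC (pert ε B)) where
  isOpen := PC_isOpen _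
  smul := fun r hr y hy => PC_smul _ r hr y hy
  sub := by
    intro d hd hd0 x hx
    rw [Fintype.sum_sum_type, sum_fiber (β := β)]
    simp only [qf_pert_inl, qf_pert_inr]
    have hS : 0 < ∑ a, x a ^ 2 := by
      obtain ⟨a, ha⟩ : ∃ a, x a ≠ 0 := by
        by_contra hcon
        push Not at hcon
        exact hx (funext hcon)
      exact Finset.sum_pos' (fun _ _ => sq_nonneg _) ⟨a, Finset.mem_univ _, by positivity⟩
    have h2 : ∀ i, -(d (Sum.inl i) * qf (B (Sum.inl i)) x) ≤
        ∑ j with β j = i, d (Sum.inr j) * qf (B (Sum.inr j)) x := by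
      intro i
      obtain ⟨h3, h4⟩ := hd i
      have h5 : (∑ j with β j = i, d (Sum.inr j) * qf (B (Sum.inr j)) x) ^ 2 ≤
          nsq β d i * ∑ j with β j = i, qf (B (Sum.inr j)) x ^ 2 :=
        Finset.sum_mul_sq_le_sq_mul_sq _ _ _
      refine (abs_le_of_sq_le_sq' (h5.trans ?_) (mul_nonneg h3 (h0 i x))).1
      rw [mul_pow]
      exact mul_le_mul h4 (h1 i x) (Finset.sum_nonneg fun _ _ => sq_nonneg _) (by positivity)
    obtain ⟨i0, hi0⟩ : ∃ i, d (Sum.inl i) ≠ 0 := by
      by_contra hcon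
      push Not at hcon
      apply hd0
      funext k
      rcases k with i | j
      · exact hcon i
      · obtain ⟨h3, h4⟩ := hd (β j)
        rw [hcon (β j)] at h4
        have h5 : d (Sum.inr j) ^ 2 ≤ nsq β d (β j) := by
          unfold nsq
          exact Finset.single_le_sum (f := fun j => d (Sum.inr j) ^ 2)
            (fun _ _ => sq_nonneg _) (by simp)
        have h6 : d (Sum.inr j) ^ 2 = 0 := le_antisymm (by linarith) (sq_nonneg _)
        exact pow_eq_zero_iff (two_ne_zero) |>.1 h6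
    rw [← Finset.sum_add_distrib]
    refine Finset.sum_pos' (fun i _ => ?_) ⟨i0, Finset.mem_univ _, ?_⟩
    · have := h2 i
      have := mul_nonneg (mul_nonneg (hd i).1 hε.le) hS.le
      nlinarith
    · have := h2 i0
      have h3 : 0 < d (Sum.inl i0) := lt_of_le_of_ne (hd i0).1 (Ne.symm hi0)
      have := mul_pos (mul_pos h3 hε) hS
      nlinarith

theorem yf_pert [Nonempty I] {m : ℕ} {ε : ℝ} (hε : 0 < ε)
    (B : I ⊕ J → Fin m × Bool → Fin m × Bool → ℝ) (hB : ∀ k a b, B k a b = B k b a)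
    (h0 : ∀ i x, 0 ≤ qf (B (Sum.inl i)) x)
    (h1 : ∀ i x, ∑ j with β j = i, qf (B (Sum.inr j)) x ^ 2 ≤ qf (B (Sum.inl i)) x ^ 2) :
    0 ≤ Yf (fun a b c d => ∑ k, sg0 k * (pert ε B k a b * pert ε B k c d)) := by
  have hsym : ∀ k a b, pert ε B k a b = pert ε B k b a := by
    intro k a b
    unfold pert
    rw [hB k a b]
    simp only [eq_comm (a := a) (b := b)]
  have hbig := PC_big (β := β) hε B h0 h1
  have h2 := hom_nonneg (β := β) (detP_hom (pert ε B)) hbig (by
      intro z hz
      show aeval z (detP (pert ε B)) ≠ 0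
      rw [aeval_detP]
      exact det_pm_ne _ hsym z hz)
    (eval_detP_pos _ hsym e0 (hbig.sub e0 (CC_sub β (e0_mem β)) (by
      intro h
      obtain ⟨i⟩ := (inferInstance : Nonempty I)
      have := congrFun h (Sum.inl i)
      simp [e0] at this)))
  rw [TP_eq, T0_det, eval_C] at h2
  exact h2

/-- **positivity** of the double alternating sum -/
theorem yf_nonneg [Nonempty I] {m : ℕ}
    (B : I ⊕ J → Fin m × Bool → Fin m × Bool → ℝ) (hB : ∀ k a b, B k a b = B k b a)
    (h0 : ∀ i x, 0 ≤ qf (B (Sum.inl i)) x)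
    (h1 : ∀ i x, ∑ j with β j = i, qf (B (Sum.inr j)) x ^ 2 ≤ qf (B (Sum.inl i)) x ^ 2) :
    0 ≤ Yf (fun a b c d => ∑ k, sg0 k * (B k a b * B k c d)) := by
  have hc : Continuous fun ε : ℝ =>
      Yf (fun a b c d => ∑ k, sg0 k * (pert ε B k a b * pert ε B k c d)) := by
    unfold Yf pert
    refine continuous_finsetSum _ fun σ _ => continuous_finsetSum _ fun τ _ =>
      continuous_const.mul (continuous_finsetProd _ fun b _ =>
        continuous_finsetSum _ fun k _ => continuous_const.mul ?_)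
    rcases k with i | j
    · simp only [Sum.elim_inl]
      fun_prop
    · simp only [Sum.elim_inr]
      fun_prop
  have h2 : Tendsto (fun ε : ℝ =>
      Yf (fun a b c d => ∑ k, sg0 k * (pert ε B k a b * pert ε B k c d))) (𝓝[>] 0)
      (𝓝 (Yf (fun a b c d => ∑ k, sg0 k * (pert 0 B k a b * pert 0 B k c d)))) :=
    (hc.tendsto 0).mono_left nhdsWithin_le_nhds
  have h3 : pert 0 B = B := by
    funext k a b
    unfold pert
    rcases k with i | j <;> simp
  rw [h3] at h2
  refine ge_of_tendsto h2 ?_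
  filter_upwards [self_mem_nhdsWithin] with ε hε
  exact yf_pert (β := β) hε B hB h0 h1

end main

end Run7.h951.Hyp
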