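import Mathlib

/-!
# The exponential in a real Banach algebra
-/

set_option autoImplicit false

namespace Run7.h951.Hyp

open Filter Topology

variable {A : Type} [NormedRing A] [NormedAlgebra ℝ A] [CompleteSpace A]

/-- the exponential -/
noncomputable def ex (x : A) : A := NormedSpace.exp x

theorem ex_zero : ex (0 : A) = 1 := NormedSpace.exp_zero

theorem ex_add {x y : A} (h : Commute x y) : ex (x + y) = ex x * ex y := by
  letI : NormedAlgebra ℚ A := NormedAlgebra.restrictScalars ℚ ℝ A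
  exact NormedSpace.exp_add_of_commute h

theorem ex_cont : Continuous (ex : A → A) := by
  letI : NormedAlgebra ℚ A := NormedAlgebra.restrictScalars ℚ ℝ A
  exact NormedSpace.exp_continuous

theorem ex_neg_mul (x : A) : ex (-x) * ex x = 1 := by
  rw [← ex_add (Commute.refl x).neg_left, neg_add_cancel, ex_zero]

theorem ex_semi {s x y : A} (h : SemiconjBy s x y) : SemiconjBy s (ex x) (ex y) := by
  letI : NormedAlgebra ℚ A := NormedAlgebra.restrictScalars ℚ ℝ A
  exact h.exp_right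

theorem ex_commute {x y : A} (h : Commute x y) : Commute x (ex y) := ex_semi h

theorem ex_hasSum (x : A) : HasSum (fun j : ℕ => ((j.factorial : ℝ)⁻¹) • x ^ j) (ex x) :=
  NormedSpace.exp_series_hasSum_exp' x

theorem norm_pow_sub_pow_le {a b : A} {M : ℝ} (ha : ‖a‖ ≤ M) (hb : ‖b‖ ≤ M) (hM : 1 ≤ M)
    (h1 : ‖(1 : A)‖ ≤ 1) (k : ℕ) : ‖a ^ k - b ^ k‖ ≤ k * M ^ k * ‖a - b‖ := by
  have hpow : ∀ k : ℕ, ‖b ^ k‖ ≤ M ^ k := by
    intro k
    induction k with
    | zero => simpa using h1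
    | succ k ih =>
      rw [pow_succ, pow_succ]
      exact (norm_mul_le _ _).trans (mul_le_mul ih hb (norm_nonneg _) (by positivity))
  induction k with
  | zero => simp
  | succ k ih =>
    have h2 : a ^ (k + 1) - b ^ (k + 1) = (a ^ k - b ^ k) * a + b ^ k * (a - b) := by
      rw [pow_succ, pow_succ]; noncomm_ring
    rw [h2]
    have h3 : ‖(a ^ k - b ^ k) * a‖ ≤ (k * M ^ k * ‖a - b‖) * M :=
      (norm_mul_le _ _).trans (mul_le_mul ih ha (norm_nonneg _) (by positivity))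
    have h4 : ‖b ^ k * (a - b)‖ ≤ M ^ (k + 1) * ‖a - b‖ := by
      refine (norm_mul_le _ _).trans (mul_le_mul_of_nonneg_right ((hpow k).trans ?_)
        (norm_nonneg _))
      exact pow_le_pow_right₀ hM (Nat.le_succ k)
    calc ‖(a ^ k - b ^ k) * a + b ^ k * (a - b)‖ ≤ _ := norm_add_le _ _
      _ ≤ (k * M ^ k * ‖a - b‖) * M + M ^ (k + 1) * ‖a - b‖ := add_le_add h3 h4
      _ = _ := by push_cast; ring

theorem ex_smul_deriv (x : A) :
    Tendsto (fun δ : ℝ => δ⁻¹ • (ex (δ • x) - 1)) (𝓝[≠] 0) (𝓝 x) := by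
  have h := (hasDerivAt_exp_smul_const (𝕂 := ℝ) (𝔸 := A) x 0)
  rw [hasDerivAt_iff_tendsto_slope] at h
  have h2 : (NormedSpace.exp ((0 : ℝ) • x) * x) = x := by
    rw [zero_smul, NormedSpace.exp_zero, one_mul]
  rw [h2] at h
  refine h.congr fun δ => ?_
  rw [slope_def_module, zero_smul, NormedSpace.exp_zero, sub_zero]
  rfl

theorem ex_smul_deriv_pos (x : A) :
    Tendsto (fun δ : ℝ => δ⁻¹ • (ex (δ • x) - 1)) (𝓝[>] 0) (𝓝 x) :=
  (ex_smul_deriv x).mono_left (nhdsWithin_mono _ fun y hy => ne_of_gt hy)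

theorem norm_ex_le (h1 : ‖(1 : A)‖ ≤ 1) (x : A) : ‖ex x‖ ≤ Real.exp ‖x‖ := by
  have h2 := ex_hasSum x
  have h3 : HasSum (fun j : ℕ => ‖x‖ ^ j / (j.factorial : ℝ)) (Real.exp ‖x‖) := by
    rw [Real.exp_eq_exp_ℝ]
    exact NormedSpace.expSeries_div_hasSum_exp ‖x‖
  refine h2.norm_le_of_bounded h3 fun j => ?_
  rw [norm_smul, norm_inv, Real.norm_natCast, div_eq_inv_mul]
  refine mul_le_mul_of_nonneg_left ?_ (by positivity)
  rcases Nat.eq_zero_or_pos j with hj | hj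
  · subst hj; simpa using h1
  · exact norm_pow_le' x hj

/-- `exp x = lim (1 + x / k)^k` -/
theorem ex_lim (h1 : ‖(1 : A)‖ ≤ 1) (x : A) :
    Tendsto (fun k : ℕ => (1 + ((k : ℝ) + 1)⁻¹ • x) ^ (k + 1)) atTop (𝓝 (ex x)) := by
  have hpos : ∀ k : ℕ, (0 : ℝ) < (k : ℝ) + 1 := fun k => by positivity
  have e1 : ∀ k : ℕ, ex x = ex (((k : ℝ) + 1)⁻¹ • x) ^ (k + 1) := by
    intro k
    have h2 : ∀ (y : A) (m : ℕ), ex (m • y) = ex y ^ m := by
      intro y m
      induction m with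
      | zero => simp [ex_zero]
      | succ m ih =>
        rw [succ_nsmul, ex_add ((Commute.refl y).smul_left m), ih, pow_succ]
    rw [← h2, ← Nat.cast_smul_eq_nsmul ℝ, smul_smul]
    push_cast
    rw [mul_inv_cancel₀ (hpos k).ne', one_smul]
  have e2 : ∀ k : ℕ, ‖(1 + ((k : ℝ) + 1)⁻¹ • x) ^ (k + 1) - ex x‖ ≤
      Real.exp ‖x‖ * ‖((k : ℝ) + 1) • (ex (((k : ℝ) + 1)⁻¹ • x) - 1) - x‖ := by
    intro k
    set δ : ℝ := ((k : ℝ) + 1)⁻¹ with hδ
    have hδ0 : 0 < δ := inv_pos.2 (hpos k)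
    set M : ℝ := Real.exp (‖x‖ * δ) with hM
    have a1 : ‖(1 : A) + δ • x‖ ≤ M := by
      have := Real.add_one_le_exp (‖x‖ * δ)
      calc ‖(1 : A) + δ • x‖ ≤ ‖(1 : A)‖ + ‖δ • x‖ := norm_add_le _ _
        _ ≤ 1 + ‖x‖ * δ := by
          rw [norm_smul, Real.norm_of_nonneg hδ0.le]
          linarith
        _ ≤ M := by linarith
    have a2 : ‖ex (δ • x)‖ ≤ M := by
      refine (norm_ex_le h1 _).trans ?_
      rw [norm_smul, Real.norm_of_nonneg hδ0.le, hM, mul_comm]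
    have a3 : 1 ≤ M := Real.one_le_exp (by positivity)
    have a4 := norm_pow_sub_pow_le a1 a2 a3 h1 (k + 1)
    have a5 : M ^ (k + 1) = Real.exp ‖x‖ := by
      rw [hM, ← Real.exp_nat_mul]
      congr 1
      push_cast
      rw [hδ]
      field_simp
    rw [a5] at a4
    rw [e1 k]
    refine a4.trans (le_of_eq ?_)
    have a6 : ((k : ℝ) + 1) • (ex (δ • x) - 1) - x =
        ((k : ℝ) + 1) • (-((1 : A) + δ • x - ex (δ • x))) := by
      have : x = ((k : ℝ) + 1) • (δ • x) := by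
        rw [smul_smul, hδ, mul_inv_cancel₀ (hpos k).ne', one_smul]
      nth_rewrite 2 [this]
      rw [← smul_sub]
      congr 1
      abel
    rw [a6, norm_smul, norm_neg, Real.norm_of_nonneg (hpos k).le]
    push_cast
    ring
  have e3 : Tendsto (fun k : ℕ => ((k : ℝ) + 1)⁻¹) atTop (𝓝[≠] 0) := by
    rw [tendsto_nhdsWithin_iff]
    refine ⟨?_, Eventually.of_forall fun k => (inv_pos.2 (hpos k)).ne'⟩
    simpa [one_div] using tendsto_one_div_add_atTop_nhds_zero_nat (𝕜 := ℝ)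
  have e4 := (ex_smul_deriv x).comp e3
  have e5 : Tendsto (fun k : ℕ => Real.exp ‖x‖ *
      ‖((k : ℝ) + 1) • (ex (((k : ℝ) + 1)⁻¹ • x) - 1) - x‖) atTop (𝓝 0) := by
    have : Tendsto (fun k : ℕ => ((k : ℝ) + 1) • (ex (((k : ℝ) + 1)⁻¹ • x) - 1) - x) atTop
        (𝓝 0) := by
      have := e4.sub_const x
      rw [sub_self] at this
      refine this.congr fun k => ?_
      simp only [Function.comp_apply, inv_inv]
    simpa using this.norm.const_mul (Real.exp ‖x‖)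
  rw [tendsto_iff_norm_sub_tendsto_zero]
  exact squeeze_zero (fun _ => norm_nonneg _) e2 e5

end Run7.h951.Hyp
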