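import Pool.Agent.Run7.h951.Hyp.Second

/-!
# The sign of the Gauss–Bonnet–Chern integrand
-/

set_option autoImplicit false
set_option linter.unusedSectionVars false

namespace Run7.h951.Hyp

open Finset Pool.Agent.W666.GB Pool.Agent.W669.HD Pool.Agent.Y519.HB
open Pool.Agent.N565.LZ (CausalOn SecForm gaussT)

variable {V : Type} [NormedAddCommGroup V] [InnerProductSpace ℝ V] {ι : Type} [Fintype ι]
  [DecidableEq ι]

/-- Nonpositive sectional curvature, and an operator of the second kind which is nonpositive on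
some hyperplane of the space of all symmetric tensors. -/
def LorentzR (e : OrthonormalBasis ι ℝ V) (R : V → V → V → V → ℝ) : Prop :=
  AlgCurv R ∧ (∀ x y, R x y x y ≤ 0) ∧ ∃ a : ι → ι → ℝ, ∀ h : ι → ι → ℝ,
    (∀ i j, h i j = h j i) → ∑ i, ∑ j, a i j * h i j = 0 → second e R h ≤ 0

/-- Any number of tensors, each either the Gauss tensor of a causal form of any codimension or of
type `LorentzR`, minus `δ` times the unit tensor. -/
def ConeSum (e : OrthonormalBasis ι ℝ V) (δ : ℝ) (R : V → V → V → V → ℝ) : Prop :=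
  ∃ (r : ℕ) (S : Fin r → V → V → V → V → ℝ),
    (∀ i, (∃ N, CausalOn ⊤ N (S i)) ∨ LorentzR e (S i)) ∧
    ∀ x y z w, R x y z w = (∑ i, S i x y z w) - δ * unitT x y z w

theorem LorentzR.causal {e : OrthonormalBasis ι ℝ V} {R : V → V → V → V → ℝ}
    (h : LorentzR e R) : ∃ N, CausalOn ⊤ N R := by
  obtain ⟨hR, hK, a, ha⟩ := h
  refine causal_of_lorentz hR hK e (fun p => a p.1 p.2) fun v hv h0 => ?_
  have h1 := ha (fun i j => v (i, j)) (fun i j => hv (j, i)) (by
    rw [Fintype.sum_prod_type] at h0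
    exact h0)
  rw [second_eq e (h := fun i j => v (i, j)) (fun i j => hv (j, i))] at h1
  exact h1

theorem ConeSum.causalSum {e : OrthonormalBasis ι ℝ V} {δ : ℝ} {R : V → V → V → V → ℝ}
    (h : ConeSum e δ R) : CausalSum δ R := by
  obtain ⟨r, S, h1, h2⟩ := h
  have h3 : ∀ i, ∃ N, CausalOn ⊤ N (S i) := by
    intro i
    rcases h1 i with h | h
    · exact h
    · exact h.causal
  choose N hN using h3
  exact ⟨r, N, S, hN, h2⟩

theorem coneSum_hopfOn {e : OrthonormalBasis ι ℝ V} {R : V → V → V → V → ℝ}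
    (h : ConeSum e 0 R) : HopfOn ⊤ R := by
  obtain ⟨r, N, S, h1, h2⟩ := h.causalSum
  have h3 : R = fun a b c d => ∑ i, S i a b c d := by
    funext a b c d
    rw [h2]
    ring
  rw [h3]
  exact sum_hopf h1

theorem coneSum_bound {m : ℕ} (e : OrthonormalBasis (Fin m × Bool) ℝ V) {δ : ℝ} (hδ : 0 ≤ δ)
    {R : V → V → V → V → ℝ} (h : ConeSum e δ R) : roundGB m δ ≤ (-1) ^ m * gbc e R :=
  causalSum_bound e hδ h.causalSum

/-! ### The operator of the second kind on traceless tensors -/

theorem sum_coord (e : OrthonormalBasis ι ℝ V) (x : V) :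
    ∑ i, inner ℝ (e i) x * inner ℝ (e i) x = ‖x‖ ^ 2 := by
  rw [← e.sum_sq_inner_right x]
  exact Finset.sum_congr rfl fun i _ => (sq _).symm


/-- **The curvature operator of the second kind is nonpositive** on traceless symmetric tensors. -/
def SecondNonpos (e : OrthonormalBasis ι ℝ V) (R : V → V → V → V → ℝ) : Prop :=
  AlgCurv R ∧ ∀ h : ι → ι → ℝ, (∀ i j, h i j = h j i) → ∑ i, h i i = 0 → second e R h ≤ 0

theorem SecondNonpos.lorentz {e : OrthonormalBasis ι ℝ V} {R : V → V → V → V → ℝ}
    (h : SecondNonpos e R) : LorentzR e R := by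
  obtain ⟨hR, h1⟩ := h
  refine ⟨hR, fun x y => ?_, fun i j => if i = j then 1 else 0, fun h hs h0 => h1 h hs ?_⟩
  · set u : ι × ι → ℝ := ‖y‖ ^ 2 • tp e x x + (-‖x‖ ^ 2) • tp e y y with hu
    have hus : ∀ i j, u (i, j) = u (j, i) := by
      intro i j
      simp only [hu, Pi.add_apply, Pi.smul_apply, tp, smul_eq_mul]
      ring
    have h2 := h1 (fun i j => u (i, j)) hus (by
      simp only [hu, Pi.add_apply, Pi.smul_apply, tp, smul_eq_mul, Finset.sum_add_distrib,
        ← Finset.mul_sum, sum_coord]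
      ring)
    rw [second_eq e (h := fun i j => u (i, j)) hus] at h2
    have h3 : qf (MM2 e R) u = (2 * ‖x‖ ^ 2 * ‖y‖ ^ 2) * R x y x y := by
      rw [hu, qf_lin _ (MM2_symm hR e), ← bf_self, ← bf_self, ← Mf_expand4 hR, ← Mf_expand4 hR,
        ← Mf_expand4 hR, Mf_zero hR, Mf_zero hR]
      have h4 : Mf R x x y y = -R x y x y := by
        unfold Mf
        have := hR.a34 x y x y
        linarith
      rw [h4]
      ring
    have h4 : qf (MM2 e R) u ≤ 0 := h2
    rw [h3] at h4
    by_cases hx : x = 0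
    · rw [hx]
      have h5 := hR.smul 0 0 y 0 y
      rw [zero_smul, zero_mul] at h5
      exact h5.le
    by_cases hy : y = 0
    · rw [hy]
      have h5 := hR.smul2 0 x 0 x 0
      rw [zero_smul, zero_mul] at h5
      exact h5.le
    have hx' : 0 < ‖x‖ := norm_pos_iff.2 hx
    have hy' : 0 < ‖y‖ := norm_pos_iff.2 hy
    by_contra hcon
    push Not at hcon
    have : 0 < (2 * ‖x‖ ^ 2 * ‖y‖ ^ 2) * R x y x y := by positivity
    linarith
  · simpa using h0

theorem unit_curv : AlgCurv (unitT (V := V)) where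
  add x x' y z w := by simp only [unitT, inner_add_left]; ring
  smul t x y z w := by simp only [unitT, inner_smul_left, conj_trivial]; ring
  anti x y z w := by simp only [unitT]; ring
  pair x y z w := by
    simp only [unitT, real_inner_comm x z, real_inner_comm y w, real_inner_comm x w,
      real_inner_comm y z]
    ring
  bianchi x y z w := by
    simp only [unitT, real_inner_comm x y, real_inner_comm x z, real_inner_comm y z]
    ring

theorem second_unit (e : OrthonormalBasis ι ℝ V) {h : ι → ι → ℝ} (hs : ∀ i j, h i j = h j i) :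
    second e unitT h = (∑ i, ∑ j, h i j ^ 2) - (∑ i, h i i) ^ 2 := by
  have h1 : ∀ i k l j, unitT (e i) (e k) (e l) (e j) =
      (if i = l then 1 else 0) * (if k = j then 1 else 0) -
      (if i = j then 1 else 0) * (if k = l then 1 else 0) := by
    intro i k l j
    unfold unitT
    simp only [OrthonormalBasis.inner_eq_ite]
  unfold second
  simp only [h1, sub_mul, Finset.sum_sub_distrib]
  congr 1
  · refine Finset.sum_congr rfl fun i _ => Finset.sum_congr rfl fun j _ => ?_
    rw [Finset.sum_eq_single j]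
    · rw [Finset.sum_eq_single i]
      · rw [if_pos rfl, if_pos rfl, hs j i]
        ring
      · intro b _ hb
        rw [if_neg (Ne.symm hb)]
        ring
      · intro hcon; exact absurd (Finset.mem_univ _) hcon
    · intro b _ hb
      refine Finset.sum_eq_zero fun l _ => ?_
      rw [if_neg hb]
      ring
    · intro hcon; exact absurd (Finset.mem_univ _) hcon
  · rw [sq, Finset.sum_mul_sum]
    refine Finset.sum_congr rfl fun i _ => ?_
    rw [Finset.sum_eq_single i]
    · refine Finset.sum_congr rfl fun k _ => ?_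
      rw [Finset.sum_eq_single k]
      · rw [if_pos rfl, if_pos rfl]
        ring
      · intro b _ hb
        rw [if_neg (Ne.symm hb)]
        ring
      · intro hcon; exact absurd (Finset.mem_univ _) hcon
    · intro b _ hb
      refine Finset.sum_eq_zero fun k _ => Finset.sum_eq_zero fun l _ => ?_
      rw [if_neg (Ne.symm hb)]
      ring
    · intro hcon; exact absurd (Finset.mem_univ _) hcon

/-- The curvature operator of the second kind is at most `-δ`. -/
def SecondLe (e : OrthonormalBasis ι ℝ V) (δ : ℝ) (R : V → V → V → V → ℝ) : Prop :=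
  AlgCurv R ∧ ∀ h : ι → ι → ℝ, (∀ i j, h i j = h j i) → ∑ i, h i i = 0 →
    second e R h ≤ -δ * ∑ i, ∑ j, h i j ^ 2

theorem SecondLe.coneSum {e : OrthonormalBasis ι ℝ V} {δ : ℝ} {R : V → V → V → V → ℝ}
    (h : SecondLe e δ R) : ConeSum e δ R := by
  obtain ⟨hR, h1⟩ := h
  refine ⟨1, fun _ x y z w => R x y z w + δ * unitT x y z w, fun _ => Or.inr ?_,
    fun x y z w => by simp⟩
  refine SecondNonpos.lorentz ⟨⟨?_, ?_, ?_, ?_, ?_⟩, fun h hs h0 => ?_⟩
  · intro x x' y z w
    beta_reduce
    rw [hR.add, unit_curv.add]; ring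
  · intro t x y z w
    beta_reduce
    rw [hR.smul, unit_curv.smul]; ring
  · intro x y z w
    beta_reduce
    rw [hR.anti, unit_curv.anti]; ring
  · intro x y z w
    beta_reduce
    rw [hR.pair, unit_curv.pair]
  · intro x y z w
    have h2 := hR.bianchi x y z w
    have h3 := (unit_curv (V := V)).bianchi x y z w
    linear_combination h2 + δ * h3
  · have h2 : second e (fun x y z w => R x y z w + δ * unitT x y z w) h =
        second e R h + δ * second e unitT h := by
      unfold second
      simp only [Finset.mul_sum, ← Finset.sum_add_distrib]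
      refine Finset.sum_congr rfl fun i _ => Finset.sum_congr rfl fun j _ =>
        Finset.sum_congr rfl fun k _ => Finset.sum_congr rfl fun l _ => ?_
      ring
    rw [h2, second_unit e hs, h0]
    have h3 := h1 h hs h0
    linarith

/-! ### Submanifolds -/

theorem gauss_causal {W : Type} [NormedAddCommGroup W] [InnerProductSpace ℝ W]
    [FiniteDimensional ℝ W] {β : V → V → W} (hs : SecForm β) {c : ℝ} (hc : 0 ≤ c)
    (hβ : ∀ x, ‖β x x‖ ^ 2 ≤ c * ‖x‖ ^ 4) :
    CausalOn ⊤ (Module.finrank ℝ W) (gaussT c β) := by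
  set f := stdOrthonormalBasis ℝ W with hf
  have hpar : ∀ u v : W, ∑ k, inner ℝ (f k) u * inner ℝ (f k) v = inner ℝ u v := by
    intro u v
    rw [← f.sum_inner_mul_inner u v]
    refine Finset.sum_congr rfl fun k _ => ?_
    rw [real_inner_comm u (f k)]
  have htop : ∀ x ∈ (⊤ : Submodule ℝ V)ᗮ, x = 0 := by
    intro x hx
    rwa [Submodule.top_orthogonal_eq_bot, Submodule.mem_bot] at hx
  refine ⟨fun x y => Real.sqrt c * inner ℝ x y, fun k x y => inner ℝ (f k) (β x y),
    ⟨?_, ?_, ?_, ?_⟩, fun k => ⟨?_, ?_, ?_, ?_⟩, ?_, ?_⟩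
  · intro x x' y; rw [inner_add_left]; ring
  · intro t x y; rw [inner_smul_left, conj_trivial]; ring
  · intro x y; rw [real_inner_comm]
  · intro x hx y; rw [htop x hx, inner_zero_left, mul_zero]
  · intro x x' y; beta_reduce; rw [hs.add, inner_add_right]
  · intro t x y; beta_reduce; rw [hs.smul, inner_smul_right]
  · intro x y; beta_reduce; rw [hs.symm]
  · intro x hx y
    beta_reduce
    have := hs.smul 0 0 y
    rw [zero_smul, zero_smul] at this
    rw [htop x hx, this, inner_zero_right]
  · intro x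
    beta_reduce
    refine ⟨by rw [real_inner_self_eq_norm_sq]; positivity, ?_⟩
    have h1 : ∑ k, inner ℝ (f k) (β x x) ^ 2 = ‖β x x‖ ^ 2 := by
      rw [← real_inner_self_eq_norm_sq, ← hpar (β x x) (β x x)]
      exact Finset.sum_congr rfl fun k _ => sq _
    rw [h1, mul_pow, Real.sq_sqrt hc, real_inner_self_eq_norm_sq, ← pow_mul]
    exact hβ x
  · intro x y z w
    beta_reduce
    rw [Finset.sum_sub_distrib, hpar, hpar]
    unfold gaussT unitT
    have h2 : Real.sqrt c * Real.sqrt c = c := Real.mul_self_sqrt hc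
    linear_combination (inner ℝ x z * inner ℝ y w - inner ℝ x w * inner ℝ y z) * h2

/-- **Submanifolds of arbitrary codimension.** -/
theorem submanifold {e : OrthonormalBasis ι ℝ V} {W : Type} [NormedAddCommGroup W]
    [InnerProductSpace ℝ W] [FiniteDimensional ℝ W] {β : V → V → W} (hs : SecForm β) {c δ : ℝ}
    (hc : δ ≤ c) (hβ : ∀ x, ‖β x x‖ ^ 2 ≤ (c - δ) * ‖x‖ ^ 4) {A : V → V → V → V → ℝ}
    (hA : ConeSum e c A) :
    ConeSum e δ (fun x y z w => A x y z w +
      (inner ℝ (β x z) (β y w) - inner ℝ (β x w) (β y z))) := by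
  obtain ⟨r, S, h1, h2⟩ := hA
  refine ⟨r + 1, Fin.cons (gaussT (c - δ) β) S, fun i => ?_, fun x y z w => ?_⟩
  · refine Fin.cases ?_ (fun i => ?_) i
    · exact Or.inl ⟨_, gauss_causal hs (sub_nonneg.2 hc) hβ⟩
    · exact h1 i
  · beta_reduce
    rw [Fin.sum_univ_succ, h2]
    simp only [Fin.cons_zero, Fin.cons_succ, gaussT]
    ring

/-! ### Integrated forms -/

theorem field_cone {m : ℕ} {M : Type} [MeasurableSpace M] (μ : MeasureTheory.Measure M)
    (K : CurvField m M) (h : ∀ p, ConeSum (K.e p) 0 (K.R p)) :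
    0 ≤ (-1) ^ m * ∫ p, K.gb p ∂μ :=
  field_cls μ K fun p => by
    have hfin : FiniteDimensional ℝ (K.V p) := Module.Finite.of_basis (K.e p).toBasis
    exact Or.inl (h p).causalSum.hopf

theorem field_coneδ {m : ℕ} {M : Type} [MeasurableSpace M] (μ : MeasureTheory.Measure M)
    [MeasureTheory.IsFiniteMeasure μ] (K : CurvField m M) (hi : MeasureTheory.Integrable K.gb μ)
    {δ : ℝ} (hδ : 0 ≤ δ) (h : ∀ p, ConeSum (K.e p) δ (K.R p)) :
    roundGB m δ * μ.real Set.univ ≤ (-1) ^ m * ∫ p, K.gb p ∂μ :=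
  field_clsδ μ K hi hδ fun p => by
    have hfin : FiniteDimensional ℝ (K.V p) := Module.Finite.of_basis (K.e p).toBasis
    exact Or.inl (h p).causalSum.hopf

end Run7.h951.Hyp
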