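import Pool.Agent.Run7.h951.Hyp.DetSt
import Pool.Agent.N565.LZ.Fin

/-!
# Sums of causal curvature tensors of arbitrary codimension
-/

set_option autoImplicit false

namespace Run7.h951.Hyp

open Finset Pool.Agent.W666.GB Pool.Agent.W669.HD Pool.Agent.Y519.HB
open Pool.Agent.N565.LZ (CausalOn toLin gbc_GG gaussT SecForm)
open Pool.Agent.W688.HD (GG)

theorem Yf_neg {m : ℕ} (F : Fin m × Bool → Fin m × Bool → Fin m × Bool → Fin m × Bool → ℝ) :
    Yf (fun a b c d => -F a b c d) = (-1) ^ m * Yf F := by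
  unfold Yf
  rw [Finset.mul_sum]
  refine Finset.sum_congr rfl fun σ _ => ?_
  rw [Finset.mul_sum]
  refine Finset.sum_congr rfl fun τ _ => ?_
  have h1 : ∏ b : Fin m, -F (σ (b, false)) (τ (b, false)) (σ (b, true)) (τ (b, true)) =
      (-1) ^ m * ∏ b : Fin m, F (σ (b, false)) (τ (b, false)) (σ (b, true)) (τ (b, true)) := by
    rw [Finset.prod_congr rfl fun b _ => neg_eq_neg_one_mul _, Finset.prod_mul_distrib,
      Finset.prod_const, Finset.card_univ, Fintype.card_fin]
  rw [h1]
  ring

variable {V : Type} [NormedAddCommGroup V] [InnerProductSpace ℝ V]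

theorem qf_form {U : Submodule ℝ V} {b : V → V → ℝ} (hb : SymForm U b) {n : Type} [Fintype n]
    [DecidableEq n] (v : n → V) (x : n → ℝ) :
    qf (fun i j => b (v i) (v j)) x = b (∑ i, x i • v i) (∑ i, x i • v i) := by
  have h1 : ∀ x y, b x y = toLin hb x y := fun _ _ => rfl
  simp only [h1, qf, map_sum, LinearMap.sum_apply, map_smul, LinearMap.smul_apply, smul_eq_mul]
  rw [Finset.sum_comm]
  refine Finset.sum_congr rfl fun i _ => ?_
  rw [Finset.mul_sum]
  refine Finset.sum_congr rfl fun j _ => ?_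
  ring

/-- **Sums of causal curvature tensors of arbitrary codimension** have the Hopf sign on all
even-dimensional subspaces. -/
theorem sum_hopf {U : Submodule ℝ V} {r : ℕ} {N : Fin r → ℕ} {S : Fin r → V → V → V → V → ℝ}
    (h : ∀ i, CausalOn U (N i) (S i)) : HopfOn U (fun a b c d => ∑ i, S i a b c d) := by
  choose b β hb hβ hc hS using h
  intro m E hE e
  set I := Option (Fin r) with hI
  set J := (Σ i : Fin r, Fin (N i)) with hJ
  set β' : J → I := fun j => some j.1 with hβ'
  set B : I ⊕ J → Fin m × Bool → Fin m × Bool → ℝ := Sum.elim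
    (fun o a c => o.elim 0 (fun i => b i (e a : V) (e c : V)))
    (fun j a c => β j.1 j.2 (e a : V) (e c : V)) with hB
  have hsym : ∀ k a c, B k a c = B k c a := by
    intro k a c
    rcases k with o | j
    · rcases o with _ | i
      · rfl
      · exact (hb i).symm _ _
    · exact (hβ j.1 j.2).symm _ _
  have hq0 : ∀ x, qf (B (Sum.inl none)) x = 0 := by
    intro x
    simp [qf, hB]
  have hq1 : ∀ i x, qf (B (Sum.inl (some i))) x =
      b i (∑ a, x a • (e a : V)) (∑ a, x a • (e a : V)) := fun i x => qf_form (hb i) _ x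
  have hq2 : ∀ j x, qf (B (Sum.inr j)) x =
      β j.1 j.2 (∑ a, x a • (e a : V)) (∑ a, x a • (e a : V)) := fun j x => qf_form (hβ _ _) _ x
  have hsum : ∀ (f : J → ℝ) (i : Fin r), ∑ j with β' j = some i, f j = ∑ k, f ⟨i, k⟩ := by
    intro f i
    rw [Finset.sum_filter, Fintype.sum_sigma, Finset.sum_eq_single i]
    · refine Finset.sum_congr rfl fun k _ => ?_
      rw [if_pos rfl]
    · intro i' _ hi'
      refine Finset.sum_eq_zero fun k _ => ?_
      rw [if_neg]
      intro hcon
      exact hi' (Option.some_injective _ hcon)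
    · intro hcon; exact absurd (Finset.mem_univ _) hcon
  have hsum0 : ∀ (f : J → ℝ), ∑ j with β' j = none, f j = 0 := by
    intro f
    refine Finset.sum_eq_zero fun j hj => ?_
    rw [Finset.mem_filter] at hj
    exact absurd hj.2 (Option.some_ne_none _)
  have key := yf_nonneg (I := I) (J := J) (β := β') (m := m) B hsym
    (fun o x => by
      rcases o with _ | i
      · rw [hq0]
      · rw [hq1]; exact (hc i _).1)
    (fun o x => by
      rcases o with _ | i
      · rw [hsum0, hq0]; norm_num
      · rw [hsum, hq1]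
        simp only [hq2]
        exact (hc i _).2)
  have hF : ∀ a a' c c', ∑ k, sg0 k * (B k a a' * B k c c') =
      ∑ i, (b i (e a : V) (e a' : V) * b i (e c : V) (e c' : V) -
        ∑ k, β i k (e a : V) (e a' : V) * β i k (e c : V) (e c' : V)) := by
    intro a a' c c'
    rw [Fintype.sum_sum_type, Fintype.sum_option, Fintype.sum_sigma, Finset.sum_sub_distrib]
    simp only [sg0, hB, Sum.elim_inl, Sum.elim_inr, Option.elim_none, Option.elim_some, one_mul,
      Pi.zero_apply, mul_zero, zero_add, neg_mul, Finset.sum_neg_distrib, sub_eq_add_neg]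
  have h3 := lift_sum (B := Fin m) (fun a a' c c' => -∑ k, sg0 k * (B k a a' * B k c c'))
    (fun i j k l => ∑ t, S t (e i : V) (e j : V) (e k : V) (e l : V)) (by
      intro i j k l
      rw [hF, hF, ← Finset.sum_neg_distrib, ← Finset.sum_neg_distrib, ← Finset.sum_sub_distrib]
      refine Finset.sum_congr rfl fun t _ => ?_
      rw [hS, Finset.sum_sub_distrib]
      ring)
  rw [Fintype.card_fin, Yf_neg] at h3
  rw [gbc_GG]
  have h4 : GG (fun x y z w : E => ∑ i, S i (x : V) (y : V) (z : V) (w : V)) e e =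
      2 ^ m * ((-1) ^ m * Yf (fun a a' c c' => ∑ k, sg0 k * (B k a a' * B k c c'))) := h3
  rw [h4]
  have h5 : (-1 : ℝ) ^ m * (-1) ^ m = 1 := by
    rw [← mul_pow]; norm_num
  have h6 : (-1 : ℝ) ^ m * (1 / ((8 * Real.pi) ^ m * m.factorial) *
      (2 ^ m * ((-1) ^ m * Yf (fun a a' c c' => ∑ k, sg0 k * (B k a a' * B k c c'))))) =
      1 / ((8 * Real.pi) ^ m * m.factorial) *
      (2 ^ m * Yf (fun a a' c c' => ∑ k, sg0 k * (B k a a' * B k c c'))) := by
    linear_combination (1 / ((8 * Real.pi) ^ m * m.factorial) *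
      (2 ^ m * Yf (fun a a' c c' => ∑ k, sg0 k * (B k a a' * B k c c')))) * h5
  rw [h6]
  have hπ := Real.pi_pos
  exact mul_nonneg (by positivity) (mul_nonneg (by positivity) key)

/-- the sum of any number of causal curvature tensors of any codimensions, minus `δ` times the
unit tensor -/
def CausalSum (δ : ℝ) (R : V → V → V → V → ℝ) : Prop :=
  ∃ (r : ℕ) (N : Fin r → ℕ) (S : Fin r → V → V → V → V → ℝ),
    (∀ i, CausalOn ⊤ (N i) (S i)) ∧
    ∀ x y z w, R x y z w = (∑ i, S i x y z w) - δ * unitT x y z w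

theorem algCurv_sum {r : ℕ} {S : Fin r → V → V → V → V → ℝ} (h : ∀ i, AlgCurv (S i)) :
    AlgCurv (fun a b c d => ∑ i, S i a b c d) where
  add x x' y z w := by
    rw [← Finset.sum_add_distrib]
    exact Finset.sum_congr rfl fun i _ => (h i).add _ _ _ _ _
  smul t x y z w := by
    rw [Finset.mul_sum]
    exact Finset.sum_congr rfl fun i _ => (h i).smul _ _ _ _ _
  anti x y z w := by
    rw [← Finset.sum_neg_distrib]
    exact Finset.sum_congr rfl fun i _ => (h i).anti _ _ _ _
  pair x y z w := Finset.sum_congr rfl fun i _ => (h i).pair _ _ _ _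
  bianchi x y z w := by
    rw [← Finset.sum_add_distrib, ← Finset.sum_add_distrib]
    exact Finset.sum_eq_zero fun i _ => (h i).bianchi _ _ _ _

theorem CausalSum.hopf [FiniteDimensional ℝ V] {δ : ℝ} {R : V → V → V → V → ℝ}
    (h : CausalSum δ R) : HopfBlocks δ R := by
  obtain ⟨r, N, S, h1, h2⟩ := h
  refine ⟨1, fun _ => ⊤, fun _ => fun a b c d => ∑ i, S i a b c d, 0, fun k => k.elim0,
    fun k => k.elim0, fun _ => 0, fun _ => 0, ⟨?_, ciSup_const⟩,
    fun _ => algCurv_sum fun i => (h1 i).curv, fun _ => ?_, fun _ => sum_hopf h1,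
    fun k => k.elim0, fun k => k.elim0, ?_⟩
  · intro i j hij
    exact absurd (Subsingleton.elim i j) hij
  · intro x hx y z w
    exact Finset.sum_eq_zero fun i _ => (h1 i).lives x hx y z w
  · intro a b c d
    rw [h2]
    simp

/-- **The sign of the Gauss–Bonnet–Chern integrand** for sums of causal tensors. -/
theorem causalSum_bound {m : ℕ} (e : OrthonormalBasis (Fin m × Bool) ℝ V) {δ : ℝ} (hδ : 0 ≤ δ)
    {R : V → V → V → V → ℝ} (h : CausalSum δ R) : roundGB m δ ≤ (-1) ^ m * gbc e R := by
  have hfin : FiniteDimensional ℝ V := Module.Finite.of_basis e.toBasis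
  exact cls_bound e hδ (Or.inl h.hopf)

end Run7.h951.Hyp
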