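import Pool.Agent.Run7.h951.Hyp.Main

/-!
# Homogeneous elements of a model
-/

set_option autoImplicit false
set_option linter.unusedSectionVars false

namespace Run7.h951.Hyp

open Finset Filter Topology

namespace Model

theorem ex_hasSum_apply {U : Type} [NormedAddCommGroup U] [NormedSpace ℝ U]
    [CompleteSpace U] (T : U →L[ℝ] U) (c : U) :
    HasSum (fun j : ℕ => ((j.factorial : ℝ)⁻¹ • T ^ j) c) (ex T c) := by
  have h1 := ex_hasSum T
  have h2 := h1.map (ContinuousLinearMap.apply ℝ U c).toLinearMap.toAddMonoidHom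
    (ContinuousLinearMap.apply ℝ U c).continuous
  exact h2

theorem E_hasSum {ι U : Type} [Fintype ι] [NormedAddCommGroup U] [NormedSpace ℝ U]
    (M : Model ι U) (f : ℕ → U) (c : U) (h2 : HasSum f c) (z : ι → ℂ) :
    HasSum (fun j : ℕ => M.E (f j) z) (M.E c z) := by
  set Ez : U →+ ℂ :=
    { toFun := fun c => M.E c z, map_zero' := M.E_zero z, map_add' := fun a b => M.add a b z }
    with hEz
  have hc : Continuous fun c => M.E c z := M.cont.comp (continuous_id.prodMk continuous_const)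
  exact h2.map Ez hc

theorem E_term {ι U : Type} [Fintype ι] [NormedAddCommGroup U] [NormedSpace ℝ U]
    (M : Model ι U) (T : U →L[ℝ] U) (c : U) (z : ι → ℂ) (j : ℕ) :
    M.E (((j.factorial : ℝ)⁻¹ • (-T) ^ j) c) z =
      ((-1 : ℂ) ^ j / (j.factorial : ℂ)) * M.E ((T ^ j) c) z := by
  have h6 : (-T) ^ j = ((-1 : ℝ) ^ j) • T ^ j := by
    rw [← neg_one_smul ℝ T, smul_pow]
  rw [h6, smul_smul, smul_apply, M.smul]
  push_cast
  ring

/-- the value of `exp(-T) c` when `T^j c = 0` for `j > m` -/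
theorem ex_value {ι U : Type} [Fintype ι] [NormedAddCommGroup U] [NormedSpace ℝ U]
    [CompleteSpace U] (M : Model ι U) (T : U →L[ℝ] U) (c : U) (m : ℕ)
    (hT : ∀ j, m < j → (T ^ j) c = 0) (z : ι → ℂ) :
    M.E (ex (-T) c) z = ∑ j ∈ range (m + 1), ((-1 : ℂ) ^ j / (j.factorial : ℂ)) *
      M.E ((T ^ j) c) z := by
  have h3 := M.E_hasSum _ _ (ex_hasSum_apply (-T) c) z
  simp only [M.E_term] at h3
  refine h3.unique (hasSum_sum_of_ne_finset_zero fun j hj => ?_)
  have hj' : m < j := by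
    rw [Finset.mem_range] at hj
    omega
  rw [hT j hj', M.E_zero, mul_zero]

variable {I J : Type} [Fintype I] [DecidableEq I] [Fintype J] [DecidableEq J] {β : J → I}
  {U : Type} [NormedAddCommGroup U] [NormedSpace ℝ U] (M : Model (I ⊕ J) U)

/-- **positivity** -/
theorem hom_nonneg_kappa [Nonempty I] [FiniteDimensional ℝ U] {m : ℕ} {c : U}
    {C' : Set (I ⊕ J → ℝ)} (hC : Big β C') (hst : St C' (M.E c)) {κ : ℝ} (hκ : 0 < κ)
    (hhom : ∀ j ≤ m, ∀ (r : ℂ) (z : I ⊕ J → ℂ), M.E ((M.TT κ 1 ^ j) c) (r • z) =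
      r ^ (2 * (m - j)) * M.E ((M.TT κ 1 ^ j) c) z)
    (hzero : ∀ j, m < j → (M.TT κ 1 ^ j) c = 0) (hpos : 0 < (M.E c (cx e0)).re) :
    0 ≤ (M.E ((M.TT κ 1 ^ m) c) (cx e0)).re := by
  have : CompleteSpace U := FiniteDimensional.complete ℝ U
  have hmain := M.stab hC hκ (Set.right_mem_Icc.2 zero_le_one) c hst
  set a : ℕ → ℝ := fun j => (M.E ((M.TT κ 1 ^ j) c) (cx e0)).re with ha
  have haE : ∀ j, M.E ((M.TT κ 1 ^ j) c) (cx e0) = (a j : ℂ) := by
    intro j
    apply Complex.ext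
    · simp [ha]
    · rw [M.E_im]; simp
  set r : ℝ → ℝ := fun y => ∑ j ∈ range (m + 1), y ^ (2 * (m - j)) / (j.factorial : ℝ) * a j with hr
  have hr0 : ∀ y : ℝ, 0 < y → r y ≠ 0 := by
    intro y hy h0
    apply hmain (cv 0 (y • e0)) (by rw [imv_cv]; exact CC_smul β (e0_mem β) hy)
    have h1 : cv (0 : I ⊕ J → ℝ) (y • e0) = ((y : ℂ) * Complex.I) • cx e0 := by
      rw [← cv_smul, cv_eq, smul_smul]
    rw [M.ex_value _ c m hzero, h1]
    have h2 : ∀ j ∈ range (m + 1), ((-1 : ℂ) ^ j / (j.factorial : ℂ)) *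
        M.E ((M.TT κ 1 ^ j) c) (((y : ℂ) * Complex.I) • cx e0) =
        (-1 : ℂ) ^ m * ((y ^ (2 * (m - j)) / (j.factorial : ℝ) * a j : ℝ) : ℂ) := by
      intro j hj
      have hjm : j ≤ m := by
        have := Finset.mem_range.1 hj
        omega
      rw [hhom j hjm, haE, mul_pow, pow_mul Complex.I, Complex.I_sq]
      have h4 : (-1 : ℂ) ^ m = (-1) ^ j * (-1) ^ (m - j) := by
        rw [← pow_add]; congr 1; omega
      rw [h4]
      push_cast
      ring
    rw [Finset.sum_congr rfl h2, ← Finset.mul_sum, ← Complex.ofReal_sum]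
    have h5 : ∑ j ∈ range (m + 1), y ^ (2 * (m - j)) / (j.factorial : ℝ) * a j = 0 := h0
    rw [h5]
    simp
  set h : ℝ → ℝ := fun u => ∑ j ∈ range (m + 1), u ^ j / (j.factorial : ℝ) * a j with hh
  have hrh : ∀ y : ℝ, 0 < y → r y = y ^ (2 * m) * h ((y ^ 2)⁻¹) := by
    intro y hy
    simp only [hr, hh]
    rw [Finset.mul_sum]
    refine Finset.sum_congr rfl fun j hj => ?_
    have hjm : j ≤ m := by
      have := Finset.mem_range.1 hj
      omega
    have h1 : y ^ (2 * m) = y ^ (2 * (m - j)) * (y ^ 2) ^ j := by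
      rw [← pow_mul, ← pow_add]; congr 1; omega
    rw [h1, inv_pow]
    field_simp
  have hhne : ∀ u : ℝ, 0 < u → h u ≠ 0 := by
    intro u hu h0
    have h1 := hr0 (Real.sqrt u⁻¹) (Real.sqrt_pos.2 (inv_pos.2 hu))
    rw [hrh _ (Real.sqrt_pos.2 (inv_pos.2 hu)), Real.sq_sqrt (inv_pos.2 hu).le, inv_inv, h0,
      mul_zero] at h1
    exact h1 rfl
  have hh0 : 0 < h 0 := by
    simp only [hh]
    rw [Finset.sum_eq_single 0]
    · simpa [ha] using hpos
    · intro j _ hj
      rw [zero_pow hj]; simp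
    · intro hcon
      exact absurd (Finset.mem_range.2 (by omega)) hcon
  have hcont : Continuous h := by
    simp only [hh]
    fun_prop
  have hpos' : ∀ u : ℝ, 0 < u → 0 < h u := by
    intro u hu
    by_contra hcon
    push Not at hcon
    obtain ⟨v, hv, hv0⟩ := intermediate_value_Icc' hu.le hcont.continuousOn ⟨hcon, hh0.le⟩
    rcases hv.1.eq_or_lt with h1 | h1
    · rw [← h1] at hv0; rw [hv0] at hh0; exact lt_irrefl _ hh0
    · exact hhne v h1 hv0
  have hrcont : Continuous r := by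
    simp only [hr]
    fun_prop
  have hr00 : 0 ≤ r 0 := by
    have h1 := (hrcont.tendsto 0).mono_left (nhdsWithin_le_nhds (s := Set.Ioi (0 : ℝ)))
    refine ge_of_tendsto h1 (eventually_nhdsWithin_of_forall fun y hy => ?_)
    have hy0 : (0 : ℝ) < y := hy
    rw [hrh y hy0]
    exact (mul_pos (by positivity) (hpos' _ (by positivity))).le
  have h1 : r 0 = a m / (m.factorial : ℝ) := by
    simp only [hr]
    rw [Finset.sum_eq_single m]
    · rw [Nat.sub_self, mul_zero, pow_zero]; ring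
    · intro j hj hjm
      have := Finset.mem_range.1 hj
      have h2 : 2 * (m - j) ≠ 0 := by omega
      rw [zero_pow h2]; ring
    · intro hcon
      exact absurd (Finset.mem_range.2 (by omega)) hcon
  rw [h1] at hr00
  have h2 : (0 : ℝ) < m.factorial := by positivity
  by_contra hcon
  push Not at hcon
  exact absurd hr00 (not_le.2 (div_neg_of_neg_of_pos hcon h2))

theorem TT_pow_cont (τ : ℝ) (m : ℕ) (c : U) (z : I ⊕ J → ℂ) :
    Continuous fun κ : ℝ => (M.E ((M.TT κ τ ^ m) c) z).re := by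
  have h4 : Continuous fun κ : ℝ => M.TT κ τ ^ m := by
    unfold Model.TT
    fun_prop
  have h3 : Continuous fun κ : ℝ => (M.TT κ τ ^ m) c :=
    (ContinuousLinearMap.apply ℝ _ c).continuous.comp h4
  exact Complex.continuous_re.comp (M.cont.comp (h3.prodMk continuous_const))

/-- **positivity**, without the first term of the operator -/
theorem hom_nonneg [Nonempty I] [FiniteDimensional ℝ U] {m : ℕ} {c : U}
    {C' : Set (I ⊕ J → ℝ)} (hC : Big β C') (hst : St C' (M.E c))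
    (hhom : ∀ κ : ℝ, ∀ j ≤ m, ∀ (r : ℂ) (z : I ⊕ J → ℂ), M.E ((M.TT κ 1 ^ j) c) (r • z) =
      r ^ (2 * (m - j)) * M.E ((M.TT κ 1 ^ j) c) z)
    (hzero : ∀ κ : ℝ, ∀ j, m < j → (M.TT κ 1 ^ j) c = 0) (hpos : 0 < (M.E c (cx e0)).re) :
    0 ≤ (M.E ((M.TT 0 1 ^ m) c) (cx e0)).re := by
  have h3 := ((M.TT_pow_cont 1 m c (cx e0)).tendsto 0).mono_left
    (nhdsWithin_le_nhds (s := Set.Ioi (0 : ℝ)))
  refine ge_of_tendsto h3 (eventually_nhdsWithin_of_forall fun κ hκ => ?_)
  exact M.hom_nonneg_kappa hC hst hκ (hhom κ) (hzero κ) hpos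

end Model

end Run7.h951.Hyp
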