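import Pool.Agent.Run7.h951.Hyp.Inst
import Pool.Agent.Run7.h951.Hyp.MHom

/-!
# Homogeneous polynomials: `(∑ ∂_{t_i}² - ∑ ∂_{x_j}²)^m p ≥ 0`
-/

set_option autoImplicit false
set_option linter.unusedSectionVars false

namespace Run7.h951.Hyp

open MvPolynomial Finset Filter Topology

section gen

variable {ι : Type} [Fintype ι] [DecidableEq ι]

theorem hom_aeval {n : ℕ} {q : MvPolynomial ι ℝ} (hq : q.IsHomogeneous n) (r : ℂ) (z : ι → ℂ) :
    aeval (r • z) q = r ^ n * aeval z q := by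
  conv_lhs => rw [q.as_sum]
  conv_rhs => rw [q.as_sum]
  rw [map_sum, map_sum, Finset.mul_sum]
  refine Finset.sum_congr rfl fun s hs => ?_
  rw [aeval_monomial, aeval_monomial]
  have h1 : ∑ i ∈ s.support, s i = n := (hq.degree_eq_sum_deg_support hs).symm
  have h2 : (s.prod fun i k => (r • z) i ^ k) = r ^ n * s.prod fun i k => z i ^ k := by
    rw [Finsupp.prod, Finsupp.prod, ← h1, ← Finset.prod_pow_eq_pow_sum, ← Finset.prod_mul_distrib]
    exact Finset.prod_congr rfl fun i _ => by rw [Pi.smul_apply, smul_eq_mul, mul_pow]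
  rw [h2]
  ring

theorem dirP_hom {n : ℕ} {q : MvPolynomial ι ℝ} (hq : q.IsHomogeneous n) (w : ι → ℝ) :
    (dirP w q).IsHomogeneous (n - 1) := by
  rw [dirP_apply]
  refine IsHomogeneous.sum _ _ _ fun a _ => ?_
  rw [smul_eq_C_mul]
  exact (hq.pderiv).C_mul _

theorem dirP_hom_zero {q : MvPolynomial ι ℝ} (hq : q.IsHomogeneous 0) (w : ι → ℝ) :
    dirP w q = 0 := by
  have h1 : q = C (coeff 0 q) := (totalDegree_eq_zero_iff_eq_C).1
    (Nat.le_zero.1 hq.totalDegree_le)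
  rw [dirP_apply, h1]
  simp

theorem dirP_sq_hom {n : ℕ} {q : MvPolynomial ι ℝ} (hq : q.IsHomogeneous n) (w : ι → ℝ) :
    ((dirP w ^ 2) q).IsHomogeneous (n - 2) := by
  have h1 := dirP_hom (dirP_hom hq w) w
  rw [Nat.sub_sub] at h1
  rw [sq]
  exact h1

theorem dirP_sq_zero {n : ℕ} (hn : n < 2) {q : MvPolynomial ι ℝ} (hq : q.IsHomogeneous n)
    (w : ι → ℝ) : (dirP w ^ 2) q = 0 := by
  rw [sq]
  show dirP w (dirP w q) = 0
  refine dirP_hom_zero ?_ w
  have := dirP_hom hq w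
  rwa [show n - 1 = 0 by omega] at this

end gen

variable {I J : Type} [Fintype I] [DecidableEq I] [Fintype J] [DecidableEq J] {β : J → I}

/-- the operator on polynomials -/
noncomputable def TP (κ τ : ℝ) : MvPolynomial (I ⊕ J) ℝ →ₗ[ℝ] MvPolynomial (I ⊕ J) ℝ :=
  κ • dirP e0 ^ 2 + ∑ i, dirP (ti i) ^ 2 - τ • ∑ j, dirP (xj j) ^ 2

theorem TP_hom {κ τ : ℝ} {n : ℕ} {q : MvPolynomial (I ⊕ J) ℝ} (hq : q.IsHomogeneous n) :
    (TP κ τ q).IsHomogeneous (n - 2) := by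
  unfold TP
  rw [LinearMap.sub_apply, LinearMap.add_apply, LinearMap.smul_apply, LinearMap.smul_apply,
    LinearMap.sum_apply, LinearMap.sum_apply]
  refine IsHomogeneous.sub (IsHomogeneous.add ?_ ?_) ?_
  · rw [smul_eq_C_mul]; exact (dirP_sq_hom hq _).C_mul _
  · exact IsHomogeneous.sum _ _ _ fun i _ => dirP_sq_hom hq _
  · rw [smul_eq_C_mul]
    exact (IsHomogeneous.sum _ _ _ fun i _ => dirP_sq_hom hq _).C_mul _

theorem TP_zero {κ τ : ℝ} {n : ℕ} (hn : n < 2) {q : MvPolynomial (I ⊕ J) ℝ}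
    (hq : q.IsHomogeneous n) : TP κ τ q = 0 := by
  unfold TP
  rw [LinearMap.sub_apply, LinearMap.add_apply, LinearMap.smul_apply, LinearMap.smul_apply,
    LinearMap.sum_apply, LinearMap.sum_apply, dirP_sq_zero hn hq]
  simp only [dirP_sq_zero hn hq, Finset.sum_const_zero, smul_zero, add_zero, sub_zero]

theorem TP_pow_hom {κ τ : ℝ} {n : ℕ} {q : MvPolynomial (I ⊕ J) ℝ} (hq : q.IsHomogeneous n)
    (j : ℕ) : ((TP κ τ ^ j) q).IsHomogeneous (n - 2 * j) := by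
  induction j with
  | zero => simpa using hq
  | succ j ih =>
    have h1 := TP_hom (κ := κ) (τ := τ) ih
    rw [pow_succ', Module.End.mul_apply]
    rwa [show n - 2 * j - 2 = n - 2 * (j + 1) by omega] at h1

theorem TP_pow_zero {κ τ : ℝ} {m : ℕ} {q : MvPolynomial (I ⊕ J) ℝ} (hq : q.IsHomogeneous (2 * m))
    {j : ℕ} (hj : m < j) : (TP κ τ ^ j) q = 0 := by
  obtain ⟨k, rfl⟩ : ∃ k, j = m + 1 + k := ⟨j - (m + 1), by omega⟩
  have h0 := TP_pow_hom (κ := κ) (τ := τ) hq m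
  rw [Nat.sub_self] at h0
  have h1 : (TP κ τ ^ (m + 1)) q = 0 := by
    rw [pow_succ', Module.End.mul_apply]
    exact TP_zero (by norm_num) h0
  rw [add_comm, pow_add, Module.End.mul_apply, h1, map_zero]

section model

variable {N : ℕ} (hN : 2 ≤ N)

theorem toP_TT (κ τ : ℝ) (c : Fin (dimP (I ⊕ J) N) → ℝ) :
    toP (I ⊕ J) N ((polyModel (I ⊕ J) N hN).TT κ τ c) = TP κ τ (toP (I ⊕ J) N c) := by
  have h1 : ∀ w, toP (I ⊕ J) N (((polyModel (I ⊕ J) N hN).dir w ^ 2) c) =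
      (dirP w ^ 2) (toP (I ⊕ J) N c) := fun w => toP_dir w 2 c
  have hadd : ∀ c c' : Fin (dimP (I ⊕ J) N) → ℝ, toP (I ⊕ J) N (c - c') =
      toP (I ⊕ J) N c - toP (I ⊕ J) N c' := by
    intro c c'
    rw [sub_eq_add_neg, toP_add, ← neg_one_smul ℝ c', toP_smul, neg_one_smul, sub_eq_add_neg]
  have hsum : ∀ {A : Type} (s : Finset A) (f : A → Fin (dimP (I ⊕ J) N) → ℝ),
      toP (I ⊕ J) N (∑ a ∈ s, f a) = ∑ a ∈ s, toP (I ⊕ J) N (f a) := by
    intro A s f
    classical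
    induction s using Finset.induction_on with
    | empty => simp [toP_zero]
    | insert a s ha ih => rw [Finset.sum_insert ha, Finset.sum_insert ha, toP_add, ih]
  unfold Model.TT TP
  rw [sub_apply, add_apply, smul_apply, smul_apply, _root_.sum_apply, _root_.sum_apply, hadd,
    toP_add, toP_smul, toP_smul, hsum, hsum, LinearMap.sub_apply, LinearMap.add_apply,
    LinearMap.smul_apply, LinearMap.smul_apply, LinearMap.sum_apply, LinearMap.sum_apply, h1]
  simp only [h1]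

theorem toP_TT_pow (κ τ : ℝ) (j : ℕ) (c : Fin (dimP (I ⊕ J) N) → ℝ) :
    toP (I ⊕ J) N (((polyModel (I ⊕ J) N hN).TT κ τ ^ j) c) =
      (TP κ τ ^ j) (toP (I ⊕ J) N c) := by
  induction j with
  | zero => simp
  | succ j ih =>
    rw [pow_succ', mul_apply_eq_comp, toP_TT, ih, pow_succ', Module.End.mul_apply]

end model

theorem polyModel_E {ι : Type} [Fintype ι] [DecidableEq ι] {N : ℕ} (hN : 2 ≤ N)
    (c : Fin (dimP ι N) → ℝ) (z : ι → ℂ) :
    (polyModel ι N hN).E c z = aeval z (toP ι N c) := rfl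

/-- **positivity of `(∑ ∂_{t_i}² - ∑ ∂_{x_j}²)^m p`** -/
theorem hom_nonneg [Nonempty I] {m : ℕ} {p : MvPolynomial (I ⊕ J) ℝ}
    (hp : p.IsHomogeneous (2 * m)) {C' : Set (I ⊕ J → ℝ)} (hC : Big β C')
    (hst : St C' (fun z => aeval z p)) (hpos : 0 < eval e0 p) :
    0 ≤ eval e0 ((TP 0 1 ^ m) p) := by
  have hN : 2 ≤ 2 * m + 2 := by omega
  have hmem : p ∈ PN (I ⊕ J) (2 * m + 2) := by
    rw [mem_restrictTotalDegree]
    exact hp.totalDegree_le.trans (by omega)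
  obtain ⟨c, hcp⟩ : ∃ c, toP (I ⊕ J) (2 * m + 2) c = p :=
    ⟨(φP (I ⊕ J) (2 * m + 2)).symm ⟨p, hmem⟩, by rw [toP, LinearEquiv.apply_symm_apply]⟩
  have hE : ∀ (κ : ℝ) (j : ℕ) (z : I ⊕ J → ℂ), (polyModel (I ⊕ J) (2 * m + 2) hN).E
      (((polyModel (I ⊕ J) (2 * m + 2) hN).TT κ 1 ^ j) c) z = aeval z ((TP κ 1 ^ j) p) := by
    intro κ j z
    rw [polyModel_E, toP_TT_pow, hcp]
  have h1 := (polyModel (I ⊕ J) (2 * m + 2) hN).hom_nonneg (m := m) (c := c) hC
    (fun z hz => by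
      rw [polyModel_E, hcp]
      exact hst z hz)
    (fun κ j hj r z => by
      rw [hE, hE]
      have h3 := TP_pow_hom (κ := κ) (τ := 1) hp j
      rw [← Nat.mul_sub] at h3
      exact hom_aeval h3 r z)
    (fun κ j hj => by
      apply toP_injective
      rw [toP_TT_pow, hcp, TP_pow_zero hp hj, toP_zero])
    (by rw [polyModel_E, hcp, aeval_cx, Complex.ofReal_re]; exact hpos)
  rw [hE, aeval_cx, Complex.ofReal_re] at h1
  exact h1

end Run7.h951.Hyp
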