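import Pool.Agent.Run7.h951.Hyp.Main

/-!
# The model given by real polynomials of bounded degree
-/

set_option autoImplicit false
set_option linter.unusedSectionVars false

namespace Run7.h951.Hyp

open MvPolynomial Finset

variable {ι : Type} [Fintype ι] [DecidableEq ι]

theorem pderiv_mem {N : ℕ} {p : MvPolynomial ι ℝ} (hp : p ∈ restrictTotalDegree ι ℝ N) (a : ι) :
    pderiv a p ∈ restrictTotalDegree ι ℝ N := by
  rw [mem_restrictTotalDegree] at hp ⊢
  refine Finset.sup_le fun s hs => ?_
  rw [mem_support_iff, coeff_pderiv] at hs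
  have h1 : s + Finsupp.single a 1 ∈ p.support := by
    rw [mem_support_iff]
    intro h
    rw [h, zero_mul] at hs
    exact hs rfl
  have h2 := (le_totalDegree h1).trans hp
  refine le_trans ?_ h2
  rw [Finsupp.sum_add_index' (fun _ => rfl) (fun _ _ _ => rfl)]
  exact Nat.le_add_right _ _

/-- dilation -/
noncomputable def dilP (r : ℝ) : MvPolynomial ι ℝ →ₐ[ℝ] MvPolynomial ι ℝ :=
  aeval fun a => C r * X a

theorem dilP_monomial (r : ℝ) (s : ι →₀ ℕ) (c : ℝ) :
    dilP r (monomial s c) = monomial s (c * r ^ (s.sum fun _ e => e)) := by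
  rw [dilP, aeval_monomial]
  have h1 : (s.prod fun i k => (C r * X i : MvPolynomial ι ℝ) ^ k) =
      C (r ^ (s.sum fun _ e => e)) * (s.prod fun i k => (X i : MvPolynomial ι ℝ) ^ k) := by
    simp only [mul_pow]
    rw [Finsupp.prod_mul]
    congr 1
    rw [Finsupp.prod, Finsupp.sum, ← Finset.prod_pow_eq_pow_sum, map_prod]
    exact Finset.prod_congr rfl fun i _ => by rw [C_pow]
  rw [h1, algebraMap_eq, ← mul_assoc, ← C_mul, ← monomial_eq]

theorem dilP_mem {N : ℕ} {p : MvPolynomial ι ℝ} (hp : p ∈ restrictTotalDegree ι ℝ N) (r : ℝ) :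
    dilP r p ∈ restrictTotalDegree ι ℝ N := by
  rw [mem_restrictTotalDegree] at hp
  rw [p.as_sum, map_sum]
  refine Submodule.sum_mem _ fun s hs => ?_
  rw [dilP_monomial, mem_restrictTotalDegree]
  refine (totalDegree_monomial_le _ _).trans ?_
  exact (le_totalDegree hs).trans hp

theorem aeval_dilP (r : ℝ) (p : MvPolynomial ι ℝ) (z : ι → ℂ) :
    aeval z (dilP r p) = aeval ((r : ℂ) • z) p := by
  induction p using MvPolynomial.induction_on with
  | C a => simp [dilP]
  | add p q hp hq => rw [map_add, map_add, map_add, hp, hq]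
  | mul_X p b hp =>
    rw [map_mul, map_mul, map_mul, hp]
    congr 1
    simp [dilP]

theorem pderiv_dilP (r : ℝ) (a : ι) (p : MvPolynomial ι ℝ) :
    pderiv a (dilP r p) = r • dilP r (pderiv a p) := by
  induction p using MvPolynomial.induction_on with
  | C c =>
    have : dilP r (C c : MvPolynomial ι ℝ) = C c := by simp [dilP]
    rw [this, pderiv_C, map_zero, smul_zero]
  | add p q hp hq => rw [map_add, map_add, map_add, map_add, smul_add, hp, hq]
  | mul_X p b hp =>
    have h1 : dilP r (X b : MvPolynomial ι ℝ) = C r * X b := by simp [dilP]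
    rw [map_mul, pderiv_mul, pderiv_mul, map_add, map_mul, map_mul, hp, h1, pderiv_C_mul,
      pderiv_X, smul_eq_C_mul, smul_eq_C_mul]
    rcases eq_or_ne a b with hab | hab
    · subst hab
      rw [Pi.single_eq_same, map_one]
      ring
    · rw [Pi.single_eq_of_ne hab.symm, map_zero]
      ring

theorem pderiv_comm' (a b : ι) (p : MvPolynomial ι ℝ) :
    pderiv a (pderiv b p) = pderiv b (pderiv a p) := by
  rcases eq_or_ne a b with hab | hab
  · rw [hab]
  · ext m
    rw [coeff_pderiv, coeff_pderiv, coeff_pderiv, coeff_pderiv]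
    have h1 : (m + Finsupp.single a 1 : ι →₀ ℕ) b = m b := by
      rw [Finsupp.add_apply, Finsupp.single_eq_of_ne hab.symm, add_zero]
    have h2 : (m + Finsupp.single b 1 : ι →₀ ℕ) a = m a := by
      rw [Finsupp.add_apply, Finsupp.single_eq_of_ne hab, add_zero]
    rw [h1, h2, add_right_comm]
    ring

/-- restriction to a complex line -/
noncomputable def lineP (z w : ι → ℂ) : MvPolynomial ι ℝ →ₐ[ℝ] Polynomial ℂ :=
  aeval fun a => Polynomial.C (z a) + Polynomial.C (w a) * Polynomial.X

theorem lineP_eval (z w : ι → ℂ) (p : MvPolynomial ι ℝ) (t : ℂ) :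
    (lineP z w p).eval t = aeval (z + t • w) p := by
  induction p using MvPolynomial.induction_on with
  | C a => simp [lineP]
  | add p q hp hq => rw [map_add, map_add, Polynomial.eval_add, hp, hq]
  | mul_X p b hp =>
    rw [map_mul, map_mul, Polynomial.eval_mul, hp]
    congr 1
    simp [lineP]
    ring

theorem lineP_natDegree (z w : ι → ℂ) {N : ℕ} {p : MvPolynomial ι ℝ} (hp : p.totalDegree ≤ N) :
    (lineP z w p).natDegree ≤ N := by
  have h1 : lineP z w p = aeval (fun a => Polynomial.C (z a) + Polynomial.C (w a) * Polynomial.X)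
      (map (algebraMap ℝ ℂ) p) := by
    rw [aeval_map_algebraMap]
    rfl
  rw [h1]
  have h2 := aeval_natDegree_le (n := 1) (m := N) (map (algebraMap ℝ ℂ) p)
    (le_trans (Finset.sup_mono (support_map_subset _ _)) hp)
    (fun a => Polynomial.C (z a) + Polynomial.C (w a) * Polynomial.X) (fun i => by
      refine (Polynomial.natDegree_add_le _ _).trans (max_le (by simp) ?_)
      exact (Polynomial.natDegree_C_mul_le _ _).trans (by simp))
  simpa using h2

/-- the directional derivative on polynomials -/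
noncomputable def dirP (w : ι → ℝ) : MvPolynomial ι ℝ →ₗ[ℝ] MvPolynomial ι ℝ :=
  ∑ a, w a • (pderiv a).toLinearMap

theorem dirP_apply (w : ι → ℝ) (p : MvPolynomial ι ℝ) : dirP w p = ∑ a, w a • pderiv a p := by
  simp [dirP]

theorem lineP_derivative (z : ι → ℂ) (w : ι → ℝ) (p : MvPolynomial ι ℝ) :
    (lineP z (cx w) p).derivative = lineP z (cx w) (dirP w p) := by
  induction p using MvPolynomial.induction_on with
  | C a =>
    have h1 : lineP z (cx w) (C a) = Polynomial.C (a : ℂ) := by
      simp [lineP]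
    rw [h1, Polynomial.derivative_C, dirP_apply]
    simp
  | add p q hp hq => rw [map_add, map_add, map_add, map_add, hp, hq]
  | mul_X p b hp =>
    have h1 : dirP w (p * X b) = dirP w p * X b + p * C (w b) := by
      simp only [dirP_apply, pderiv_mul, smul_add, Finset.sum_add_distrib, Finset.sum_mul]
      congr 1
      · exact Finset.sum_congr rfl fun a _ => by rw [smul_mul_assoc]
      · rw [Finset.sum_eq_single b]
        · rw [pderiv_X_self, mul_one, smul_eq_C_mul, mul_comm]
        · intro a _ hab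
          rw [pderiv_X_of_ne hab.symm, mul_zero, smul_zero]
        · intro h; exact absurd (Finset.mem_univ _) h
    have h2 : lineP z (cx w) (X b) = Polynomial.C (z b) + Polynomial.C (cx w b) * Polynomial.X := by
      simp [lineP]
    have h3 : lineP z (cx w) (C (w b)) = Polynomial.C (cx w b) := by
      simp [lineP, cx]
    rw [h1, map_add (lineP z (cx w)), map_mul (lineP z (cx w)), map_mul (lineP z (cx w)),
      map_mul (lineP z (cx w)), h2, h3, Polynomial.derivative_mul, hp]
    simp [cx]

theorem lineP_iterate (z : ι → ℂ) (w : ι → ℝ) (p : MvPolynomial ι ℝ) (j : ℕ) :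
    Polynomial.derivative^[j] (lineP z (cx w) p) = lineP z (cx w) ((dirP w ^ j) p) := by
  induction j generalizing p with
  | zero => rfl
  | succ j ih =>
    rw [Function.iterate_succ_apply, lineP_derivative, ih, pow_succ]
    rfl

theorem taylorP {N : ℕ} {p : MvPolynomial ι ℝ} (hp : p.totalDegree ≤ N) (z : ι → ℂ) (w : ι → ℝ)
    (t : ℂ) : aeval (z + t • cx w) p =
    ∑ j ∈ range (N + 1), (t ^ j / (j.factorial : ℂ)) * aeval z ((dirP w ^ j) p) := by
  rw [← lineP_eval, Polynomial.eval_eq_sum_range' (Nat.lt_succ_of_le (lineP_natDegree z _ hp))]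
  refine Finset.sum_congr rfl fun j _ => ?_
  have h1 := Polynomial.coeff_iterate_derivative (k := j) (lineP z (cx w) p) 0
  rw [lineP_iterate, zero_add, Nat.descFactorial_self, Polynomial.coeff_zero_eq_eval_zero,
    lineP_eval, zero_smul, add_zero] at h1
  rw [h1, nsmul_eq_mul]
  have : (j.factorial : ℂ) ≠ 0 := Nat.cast_ne_zero.2 (Nat.factorial_ne_zero j)
  field_simp

theorem aeval_conj (p : MvPolynomial ι ℝ) (z : ι → ℂ) :
    aeval (fun a => (starRingEnd ℂ) (z a)) p = (starRingEnd ℂ) (aeval z p) := by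
  induction p using MvPolynomial.induction_on with
  | C a => simp
  | add p q hp hq => rw [map_add, map_add, map_add, hp, hq]
  | mul_X p b hp => rw [map_mul, map_mul, map_mul, hp]; simp

theorem aeval_cx (p : MvPolynomial ι ℝ) (x : ι → ℝ) : aeval (cx x) p = ((eval x p : ℝ) : ℂ) := by
  induction p using MvPolynomial.induction_on with
  | C a => simp
  | add p q hp hq => rw [map_add, map_add, hp, hq]; push_cast; rfl
  | mul_X p b hp => rw [map_mul, map_mul, hp]; simp [cx]

theorem aeval_inj {p : MvPolynomial ι ℝ} (h : ∀ z : ι → ℂ, aeval z p = 0) : p = 0 := by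
  apply MvPolynomial.funext
  intro x
  rw [map_zero]
  have h1 := h (cx x)
  rw [aeval_cx] at h1
  exact_mod_cast h1

theorem aeval_cont (p : MvPolynomial ι ℝ) : Continuous fun z : ι → ℂ => aeval z p := by
  induction p using MvPolynomial.induction_on with
  | C a => simpa using continuous_const
  | add p q hp hq => simp only [map_add]; exact hp.add hq
  | mul_X p b hp => simp only [map_mul, aeval_X]; exact hp.mul (continuous_apply b)

variable (ι)

/-- polynomials of degree at most `N` -/
noncomputable abbrev PN (N : ℕ) : Submodule ℝ (MvPolynomial ι ℝ) := restrictTotalDegree ι ℝ N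

/-- the dimension -/
noncomputable abbrev dimP (N : ℕ) : ℕ := Module.finrank ℝ (PN ι N)

/-- coordinates -/
noncomputable def φP (N : ℕ) : (Fin (dimP ι N) → ℝ) ≃ₗ[ℝ] PN ι N :=
  (Module.finBasis ℝ (PN ι N)).equivFun.symm

/-- the polynomial with the given coordinates -/
noncomputable def toP (N : ℕ) (c : Fin (dimP ι N) → ℝ) : MvPolynomial ι ℝ := (φP ι N c : PN ι N)

variable {ι}

theorem toP_mem {N : ℕ} (c : Fin (dimP ι N) → ℝ) : toP ι N c ∈ PN ι N := (φP ι N c).2

theorem toP_deg {N : ℕ} (c : Fin (dimP ι N) → ℝ) : (toP ι N c).totalDegree ≤ N :=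
  (mem_restrictTotalDegree _ _ _).1 (toP_mem c)

/-- an operator on polynomials in coordinates -/
noncomputable def opP {N : ℕ} (T : MvPolynomial ι ℝ →ₗ[ℝ] MvPolynomial ι ℝ)
    (hT : ∀ p ∈ PN ι N, T p ∈ PN ι N) : (Fin (dimP ι N) → ℝ) →L[ℝ] (Fin (dimP ι N) → ℝ) :=
  LinearMap.toContinuousLinearMap
    ((φP ι N).symm.toLinearMap ∘ₗ (T.restrict hT) ∘ₗ (φP ι N).toLinearMap)

theorem toP_opP {N : ℕ} (T : MvPolynomial ι ℝ →ₗ[ℝ] MvPolynomial ι ℝ)
    (hT : ∀ p ∈ PN ι N, T p ∈ PN ι N) (c : Fin (dimP ι N) → ℝ) :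
    toP ι N (opP T hT c) = T (toP ι N c) := by
  simp only [toP, opP, LinearMap.coe_toContinuousLinearMap', LinearMap.comp_apply,
    LinearEquiv.coe_coe, LinearEquiv.apply_symm_apply]
  rfl

theorem toP_injective (N : ℕ) : Function.Injective (toP ι N) := fun _ _ h =>
  (φP ι N).injective (Subtype.ext h)

theorem toP_add {N : ℕ} (c c' : Fin (dimP ι N) → ℝ) :
    toP ι N (c + c') = toP ι N c + toP ι N c' := by
  simp [toP]

theorem toP_smul {N : ℕ} (r : ℝ) (c : Fin (dimP ι N) → ℝ) :
    toP ι N (r • c) = r • toP ι N c := by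
  simp [toP]

theorem toP_zero {N : ℕ} : toP ι N 0 = 0 := by simp [toP]

theorem toP_sum {N : ℕ} (c : Fin (dimP ι N) → ℝ) :
    toP ι N c = ∑ i, c i • toP ι N (Pi.single i 1) := by
  conv_lhs => rw [pi_eq_sum_univ' c]
  have h1 : ∀ s : Finset (Fin (dimP ι N)), toP ι N (∑ i ∈ s, c i • Pi.single i 1) =
      ∑ i ∈ s, c i • toP ι N (Pi.single i 1) := by
    intro s
    induction s using Finset.induction_on with
    | empty => simp [toP_zero]
    | insert a s ha ih => rw [Finset.sum_insert ha, Finset.sum_insert ha, toP_add, toP_smul, ih]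
  rw [← h1]

theorem dirP_mem {N : ℕ} (w : ι → ℝ) {p : MvPolynomial ι ℝ} (hp : p ∈ PN ι N) :
    dirP w p ∈ PN ι N := by
  rw [dirP_apply]
  exact Submodule.sum_mem _ fun a _ => Submodule.smul_mem _ _ (pderiv_mem hp a)

/-- the operator `pderiv` in coordinates -/
noncomputable def DP (N : ℕ) (a : ι) : (Fin (dimP ι N) → ℝ) →L[ℝ] (Fin (dimP ι N) → ℝ) :=
  opP (pderiv a).toLinearMap fun _ hp => pderiv_mem hp a

theorem toP_DP {N : ℕ} (a : ι) (c : Fin (dimP ι N) → ℝ) :
    toP ι N (DP N a c) = pderiv a (toP ι N c) := toP_opP _ _ _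

theorem toP_dir {N : ℕ} (w : ι → ℝ) (j : ℕ) (c : Fin (dimP ι N) → ℝ) :
    toP ι N (((∑ a, w a • DP N a) ^ j) c) = (dirP w ^ j) (toP ι N c) := by
  have h1 : ∀ c, toP ι N ((∑ a, w a • DP N a) c) = dirP w (toP ι N c) := by
    intro c
    rw [dirP_apply, _root_.sum_apply]
    have h2 : ∀ s : Finset ι, toP ι N (∑ a ∈ s, (w a • DP N a) c) =
        ∑ a ∈ s, w a • pderiv a (toP ι N c) := by
      intro s
      induction s using Finset.induction_on with
      | empty => simp [toP_zero]
      | insert a s ha ih =>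
        rw [Finset.sum_insert ha, Finset.sum_insert ha, toP_add, ih, smul_apply, toP_smul, toP_DP]
    exact h2 univ
  induction j with
  | zero => simp
  | succ j ih =>
    rw [pow_succ', mul_apply_eq_comp, h1, ih, pow_succ']
    rfl

/-- **the model** -/
noncomputable def polyModel (ι : Type) [Fintype ι] [DecidableEq ι] (N : ℕ) (hN : 2 ≤ N) :
    Model ι (Fin (dimP ι N) → ℝ) where
  n := N
  hn := hN
  E c z := aeval z (toP ι N c)
  add c c' z := by rw [toP_add, map_add]
  smul r c z := by rw [toP_smul, map_smul]; simp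
  cont := by
    have h1 : (fun p : (Fin (dimP ι N) → ℝ) × (ι → ℂ) => aeval p.2 (toP ι N p.1)) =
        fun p => ∑ i, (p.1 i : ℂ) * aeval p.2 (toP ι N (Pi.single i 1)) := by
      funext p
      rw [toP_sum, map_sum]
      exact Finset.sum_congr rfl fun i _ => by rw [map_smul]; simp
    rw [h1]
    refine continuous_finsetSum _ fun i _ => Continuous.mul (by fun_prop) ?_
    exact (aeval_cont _).comp continuous_snd
  inj c h := by
    apply toP_injective
    rw [toP_zero]
    exact aeval_inj h
  conj c z := aeval_conj _ _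
  D := DP N
  comm a b := by
    ext c : 1
    apply toP_injective
    rw [mul_apply_eq_comp, mul_apply_eq_comp, toP_DP, toP_DP, toP_DP, toP_DP, pderiv_comm']
  line c z w := ⟨lineP z w (toP ι N c), lineP_natDegree z w (toP_deg c), fun t => lineP_eval _ _ _ _⟩
  taylor c z w t := by
    rw [taylorP (toP_deg c)]
    exact Finset.sum_congr rfl fun j _ => by rw [toP_dir]
  S r := opP (dilP r).toLinearMap fun _ hp => dilP_mem hp r
  dil r c z := by
    rw [toP_opP]
    exact aeval_dilP r _ z
  semi r a := by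
    ext c : 1
    apply toP_injective
    rw [mul_apply_eq_comp, toP_DP, toP_opP, smul_apply, mul_apply_eq_comp, toP_smul, toP_opP,
      toP_DP]
    exact pderiv_dilP r a _

end Run7.h951.Hyp
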