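import Mathlib

/-!
# Products of Lorentz cones, and quadratic forms hyperbolic with respect to them
-/

set_option autoImplicit false
set_option linter.unusedSectionVars false

namespace Run7.h951.Hyp

open Filter Topology Finset

variable {I J : Type} [Fintype I] [DecidableEq I] [Fintype J] [DecidableEq J] (β : J → I)

/-- the square of the norm of the space part in the block `i` -/
def nsq (y : I ⊕ J → ℝ) (i : I) : ℝ := ∑ j with β j = i, y (Sum.inr j) ^ 2

/-- the open cone -/
def CC : Set (I ⊕ J → ℝ) := {y | ∀ i, 0 < y (Sum.inl i) ∧ nsq β y i < y (Sum.inl i) ^ 2}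

/-- the closed cone -/
def CB : Set (I ⊕ J → ℝ) := {y | ∀ i, 0 ≤ y (Sum.inl i) ∧ nsq β y i ≤ y (Sum.inl i) ^ 2}

/-- the base point -/
def e0 : I ⊕ J → ℝ := Sum.elim (fun _ => 1) (fun _ => 0)

theorem nsq_nonneg (y : I ⊕ J → ℝ) (i : I) : 0 ≤ nsq β y i :=
  Finset.sum_nonneg fun _ _ => sq_nonneg _

theorem nsq_cont (i : I) : Continuous fun y : I ⊕ J → ℝ => nsq β y i := by
  unfold nsq; fun_prop

theorem isOpen_CC : IsOpen (CC β : Set (I ⊕ J → ℝ)) := by
  have : (CC β : Set (I ⊕ J → ℝ)) =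
      ⋂ i, ({y | 0 < y (Sum.inl i)} ∩ {y | nsq β y i < y (Sum.inl i) ^ 2}) := by
    ext y; simp [CC]
  rw [this]
  refine isOpen_iInter_of_finite fun i => IsOpen.inter ?_ ?_
  · exact isOpen_lt continuous_const (by fun_prop)
  · exact isOpen_lt (nsq_cont β i) (by fun_prop)

theorem isClosed_CB : IsClosed (CB β : Set (I ⊕ J → ℝ)) := by
  have : (CB β : Set (I ⊕ J → ℝ)) =
      ⋂ i, ({y | 0 ≤ y (Sum.inl i)} ∩ {y | nsq β y i ≤ y (Sum.inl i) ^ 2}) := by
    ext y; simp [CB]
  rw [this]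
  refine isClosed_iInter fun i => IsClosed.inter ?_ ?_
  · exact isClosed_le continuous_const (by fun_prop)
  · exact isClosed_le (nsq_cont β i) (by fun_prop)

theorem CC_sub : (CC β : Set (I ⊕ J → ℝ)) ⊆ CB β := fun _ hy i => ⟨(hy i).1.le, (hy i).2.le⟩

theorem e0_mem : (e0 : I ⊕ J → ℝ) ∈ CC β := by
  intro i
  simp [e0, nsq]

theorem CC_add {y d : I ⊕ J → ℝ} (hy : y ∈ CC β) (hd : d ∈ CB β) {s : ℝ} (hs : 0 ≤ s) :
    y + s • d ∈ CC β := by
  intro i
  obtain ⟨h1, h2⟩ := hy i
  obtain ⟨h3, h4⟩ := hd i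
  have h5 : nsq β (y + s • d) i = nsq β y i +
      2 * s * (∑ j with β j = i, y (Sum.inr j) * d (Sum.inr j)) + s ^ 2 * nsq β d i := by
    unfold nsq
    rw [Finset.mul_sum, Finset.mul_sum, ← Finset.sum_add_distrib, ← Finset.sum_add_distrib]
    refine Finset.sum_congr rfl fun j _ => ?_
    simp only [Pi.add_apply, Pi.smul_apply, smul_eq_mul]
    ring
  have h6 : (∑ j with β j = i, y (Sum.inr j) * d (Sum.inr j)) ^ 2 ≤ nsq β y i * nsq β d i :=
    Finset.sum_mul_sq_le_sq_mul_sq _ _ _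
  have h7 : (∑ j with β j = i, y (Sum.inr j) * d (Sum.inr j)) ≤ y (Sum.inl i) * d (Sum.inl i) := by
    refine abs_le_of_sq_le_sq' (h6.trans ?_) (by positivity) |>.2
    rw [mul_pow]
    exact mul_le_mul h2.le h4 (nsq_nonneg β d i) (by positivity)
  constructor
  · simp only [Pi.add_apply, Pi.smul_apply, smul_eq_mul]
    have := mul_nonneg hs h3
    linarith
  · rw [h5]
    simp only [Pi.add_apply, Pi.smul_apply, smul_eq_mul]
    have h8 := mul_le_mul_of_nonneg_left h7 hs
    have h9 := mul_le_mul_of_nonneg_left h4 (sq_nonneg s)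
    nlinarith

theorem CC_smul {y : I ⊕ J → ℝ} (hy : y ∈ CC β) {r : ℝ} (hr : 0 < r) : r • y ∈ CC β := by
  intro i
  obtain ⟨h1, h2⟩ := hy i
  have h3 : nsq β (r • y) i = r ^ 2 * nsq β y i := by
    unfold nsq
    rw [Finset.mul_sum]
    refine Finset.sum_congr rfl fun j _ => ?_
    simp only [Pi.smul_apply, smul_eq_mul]
    ring
  constructor
  · simp only [Pi.smul_apply, smul_eq_mul]; positivity
  · rw [h3]
    simp only [Pi.smul_apply, smul_eq_mul]
    have : 0 < r ^ 2 := by positivity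
    nlinarith

theorem CB_smul {y : I ⊕ J → ℝ} (hy : y ∈ CB β) {r : ℝ} (hr : 0 ≤ r) : r • y ∈ CB β := by
  intro i
  obtain ⟨h1, h2⟩ := hy i
  have h3 : nsq β (r • y) i = r ^ 2 * nsq β y i := by
    unfold nsq
    rw [Finset.mul_sum]
    refine Finset.sum_congr rfl fun j _ => ?_
    simp only [Pi.smul_apply, smul_eq_mul]
    ring
  constructor
  · simp only [Pi.smul_apply, smul_eq_mul]; positivity
  · rw [h3]
    simp only [Pi.smul_apply, smul_eq_mul]
    have : 0 ≤ r ^ 2 := by positivity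
    nlinarith

theorem CC_seg {y : I ⊕ J → ℝ} (hy : y ∈ CC β) {s : ℝ} (hs : 0 ≤ s) (hs1 : s ≤ 1) :
    e0 + s • (y - e0) ∈ CC β := by
  rcases hs1.eq_or_lt with h | h
  · rw [h, one_smul]; simpa using hy
  · have h1 : e0 + s • (y - e0) = (1 - s) • (e0 : I ⊕ J → ℝ) + s • y := by
      rw [sub_smul, one_smul, smul_sub]; abel
    rw [h1]
    exact CC_add β (CC_smul β (e0_mem β) (by linarith)) (CC_sub β hy) hs

theorem CB_add_e0 {d : I ⊕ J → ℝ} (hd : d ∈ CB β) {η : ℝ} (hη : 0 < η) : d + η • e0 ∈ CC β := by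
  have := CC_add β (CC_smul β (e0_mem β) hη) hd (s := 1) zero_le_one
  rw [one_smul, add_comm] at this
  exact this

section form

variable (b : (I ⊕ J → ℝ) →ₗ[ℝ] (I ⊕ J → ℝ) →ₗ[ℝ] ℝ)

/-- the time direction of the block `i` -/
noncomputable def ti (i : I) : I ⊕ J → ℝ := Pi.single (Sum.inl i) 1

/-- a space direction -/
noncomputable def xj (j : J) : I ⊕ J → ℝ := Pi.single (Sum.inr j) 1

theorem ti_mem (i : I) (g : J → ℝ) {r : ℝ} (hr : 0 ≤ r) (h : ∑ j with β j = i, g j ^ 2 ≤ r ^ 2) :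
    r • ti i + ∑ j with β j = i, g j • xj j ∈ CB β := by
  have e1 : ∀ k, (r • ti i + ∑ j with β j = i, g j • xj j : I ⊕ J → ℝ) (Sum.inl k) =
      if k = i then r else 0 := by
    intro k
    simp only [Pi.add_apply, Pi.smul_apply, smul_eq_mul, Finset.sum_apply, ti, xj, Pi.single_apply,
      Sum.inl.injEq, reduceCtorEq, if_false, mul_zero, Finset.sum_const_zero, add_zero]
    split_ifs <;> simp
  have e2 : ∀ k, (r • ti i + ∑ j with β j = i, g j • xj j : I ⊕ J → ℝ) (Sum.inr k) =
      if β k = i then g k else 0 := by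
    intro k
    simp only [Pi.add_apply, Pi.smul_apply, smul_eq_mul, Finset.sum_apply, ti, xj, Pi.single_apply,
      Sum.inr.injEq, reduceCtorEq, if_false, mul_zero, zero_add, mul_ite, mul_one]
    rw [Finset.sum_ite_eq]
    simp
  intro k
  rw [e1]
  by_cases hk : k = i
  · subst hk
    simp only [if_true]
    refine ⟨hr, ?_⟩
    unfold nsq
    simp only [e2]
    refine le_trans (le_of_eq (Finset.sum_congr rfl fun j hj => ?_)) h
    rw [if_pos (Finset.mem_filter.1 hj).2]
  · simp only [if_neg hk]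
    refine ⟨le_rfl, ?_⟩
    unfold nsq
    simp only [e2]
    rw [Finset.sum_eq_zero]
    · positivity
    · intro j hj
      rw [if_neg, zero_pow two_ne_zero]
      rw [(Finset.mem_filter.1 hj).2]
      exact hk

/-- positivity properties of a form which is hyperbolic with respect to the cone -/
theorem form_pos (hb : ∀ x y, b x y = b y x)
    (H : ∀ X, ∀ Y ∈ CC β, ¬ (b X X = b Y Y ∧ b X Y = 0)) (h0 : 0 < b e0 e0) :
    (∀ X, b e0 X = 0 → b X X ≤ 0) ∧ (∀ Y ∈ CB β, 0 ≤ b Y Y ∧ 0 ≤ b e0 Y) := by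
  have h1 : ∀ Y ∈ CC β, b Y Y ≠ 0 := by
    intro Y hY h2
    exact H 0 Y hY ⟨by simp [h2], by simp⟩
  have hpos : ∀ Y ∈ CC β, 0 < b Y Y := by
    intro Y hY
    by_contra hcon
    push Not at hcon
    have hc : ContinuousOn (fun s : ℝ => b (e0 + s • (Y - e0)) (e0 + s • (Y - e0)))
        (Set.Icc 0 1) := by
      apply Continuous.continuousOn
      simp only [map_add, map_smul, LinearMap.add_apply, LinearMap.smul_apply]
      fun_prop
    have hz : (0 : ℝ) ∈ Set.Icc (b (e0 + (1 : ℝ) • (Y - e0)) (e0 + (1 : ℝ) • (Y - e0)))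
        (b (e0 + (0 : ℝ) • (Y - e0)) (e0 + (0 : ℝ) • (Y - e0))) := by
      rw [one_smul, add_sub_cancel, zero_smul, add_zero]
      exact ⟨hcon, h0.le⟩
    obtain ⟨s, hs, hs0⟩ := intermediate_value_Icc' zero_le_one hc hz
    exact h1 _ (CC_seg β hY hs.1 hs.2) hs0
  have hneg : ∀ Y ∈ CC β, ∀ X, b X Y = 0 → b X X ≤ 0 := by
    intro Y hY X hX
    by_contra hcon
    push Not at hcon
    have h2 := hpos Y hY
    have h3 : Real.sqrt (b Y Y / b X X) * Real.sqrt (b Y Y / b X X) = b Y Y / b X X :=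
      Real.mul_self_sqrt (by positivity)
    refine H (Real.sqrt (b Y Y / b X X) • X) Y hY ⟨?_, ?_⟩
    · rw [map_smul, map_smul, LinearMap.smul_apply, smul_eq_mul, smul_eq_mul, ← mul_assoc, h3]
      field_simp
    · rw [map_smul, LinearMap.smul_apply, hX, smul_zero]
  have hpos2 : ∀ Y ∈ CC β, 0 < b e0 Y := by
    intro Y hY
    by_contra hcon
    push Not at hcon
    have hc : ContinuousOn (fun s : ℝ => b e0 (e0 + s • (Y - e0))) (Set.Icc 0 1) := by
      apply Continuous.continuousOn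
      simp only [map_add, map_smul]
      fun_prop
    have hz : (0 : ℝ) ∈ Set.Icc (b e0 (e0 + (1 : ℝ) • (Y - e0)))
        (b e0 (e0 + (0 : ℝ) • (Y - e0))) := by
      rw [one_smul, add_sub_cancel, zero_smul, add_zero]
      exact ⟨hcon, h0.le⟩
    obtain ⟨s, hs, hs0⟩ := intermediate_value_Icc' zero_le_one hc hz
    have h2 := hpos _ (CC_seg β hY hs.1 hs.2)
    have h3 := hneg e0 (e0_mem β) _ ((hb _ _).trans hs0)
    linarith
  refine ⟨fun X hX => hneg e0 (e0_mem β) X ((hb _ _).trans hX), fun Y hY => ⟨?_, ?_⟩⟩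
  · have hc : Tendsto (fun η : ℝ => b (Y + η • e0) (Y + η • e0)) (𝓝[>] 0)
        (𝓝 (b (Y + (0 : ℝ) • e0) (Y + (0 : ℝ) • e0))) := by
      have : Continuous (fun η : ℝ => b (Y + η • e0) (Y + η • e0)) := by
        simp only [map_add, map_smul, LinearMap.add_apply, LinearMap.smul_apply]
        fun_prop
      exact (this.tendsto 0).mono_left nhdsWithin_le_nhds
    rw [zero_smul, add_zero] at hc
    exact ge_of_tendsto hc (eventually_nhdsWithin_of_forall fun η hη =>
      (hpos _ (CB_add_e0 β hY hη)).le)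
  · have hc : Tendsto (fun η : ℝ => b e0 (Y + η • e0)) (𝓝[>] 0) (𝓝 (b e0 (Y + (0 : ℝ) • e0))) := by
      have : Continuous (fun η : ℝ => b e0 (Y + η • e0)) := by
        simp only [map_add, map_smul]
        fun_prop
      exact (this.tendsto 0).mono_left nhdsWithin_le_nhds
    rw [zero_smul, add_zero] at hc
    exact ge_of_tendsto hc (eventually_nhdsWithin_of_forall fun η hη =>
      (hpos2 _ (CB_add_e0 β hY hη)).le)

/-- the trace inequality in one block -/
theorem form_block (hb : ∀ x y, b x y = b y x) (h0 : 0 < b e0 e0)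
    (h1 : ∀ X, b e0 X = 0 → b X X ≤ 0) (h2 : ∀ Y ∈ CB β, 0 ≤ b Y Y ∧ 0 ≤ b e0 Y) (i : I) :
    ∑ j with β j = i, b (xj j) (xj j) ≤ b (ti i) (ti i) := by
  set c : (I ⊕ J → ℝ) → (I ⊕ J → ℝ) → ℝ := fun x y => b e0 x * b e0 y / b e0 e0 - b x y with hc
  have hcpos : ∀ x, 0 ≤ c x x := by
    intro x
    have h3 := h1 (x - (b e0 x / b e0 e0) • e0) (by
      rw [map_sub, map_smul, smul_eq_mul]
      field_simp
      ring)
    have h4 : b (x - (b e0 x / b e0 e0) • e0) (x - (b e0 x / b e0 e0) • e0) = - c x x := by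
      simp only [hc, map_sub, map_smul, LinearMap.sub_apply, LinearMap.smul_apply, smul_eq_mul]
      rw [hb x e0]
      field_simp
      ring
    linarith
  have hcs : ∀ x y, c x y = c y x := by
    intro x y
    simp only [hc]
    rw [hb x y]; ring
  have hCS : ∀ x y, c x y ^ 2 ≤ c x x * c y y := by
    intro x y
    have h3 : ∀ s t : ℝ, c (s • x + t • y) (s • x + t • y) =
        s ^ 2 * c x x + 2 * s * t * c x y + t ^ 2 * c y y := by
      intro s t
      simp only [hc, map_add, map_smul, LinearMap.add_apply, LinearMap.smul_apply, smul_eq_mul]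
      rw [hb y x]
      ring
    have h4 := hcpos (c y y • x + (-(c x y)) • y)
    have h5 := hcpos (c x y • x + (-(c x x)) • y)
    rw [h3] at h4 h5
    have h6 := hcpos x
    have h7 := hcpos y
    by_contra hcon
    push Not at hcon
    have h8 : 0 ≤ c y y * (c x x * c y y - c x y ^ 2) := by nlinarith
    have h9 : 0 ≤ c x x * (c x x * c y y - c x y ^ 2) := by nlinarith
    have h10 : c y y = 0 := by
      by_contra h
      have : 0 < c y y := lt_of_le_of_ne h7 (Ne.symm h)
      nlinarith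
    have h11 : c x x = 0 := by
      by_contra h
      have : 0 < c x x := lt_of_le_of_ne h6 (Ne.symm h)
      nlinarith
    have h12 := hcpos (1 • x + (-1 : ℝ) • y)
    have h13 := hcpos (1 • x + (1 : ℝ) • y)
    rw [show (1 • x : I ⊕ J → ℝ) = (1 : ℝ) • x by simp] at h12 h13
    rw [h3] at h12 h13
    rw [h10, h11] at h12 h13 hcon
    have : c x y = 0 := by linarith
    rw [this] at hcon
    simp at hcon
  have hxy : ∀ x ∈ CB β, ∀ y ∈ CB β, 0 ≤ b x y := by
    intro x hx y hy
    have h3 : c x x ≤ b e0 x ^ 2 / b e0 e0 := by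
      have := (h2 x hx).1
      simp only [hc]
      have e : b e0 x * b e0 x / b e0 e0 = b e0 x ^ 2 / b e0 e0 := by ring
      rw [e]; linarith
    have h4 : c y y ≤ b e0 y ^ 2 / b e0 e0 := by
      have := (h2 y hy).1
      simp only [hc]
      have e : b e0 y * b e0 y / b e0 e0 = b e0 y ^ 2 / b e0 e0 := by ring
      rw [e]; linarith
    have h5 : c x y ^ 2 ≤ (b e0 x * b e0 y / b e0 e0) ^ 2 := by
      refine (hCS x y).trans ((mul_le_mul h3 h4 (hcpos y) (by positivity)).trans (le_of_eq ?_))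
      field_simp
    have h6 : 0 ≤ b e0 x * b e0 y / b e0 e0 :=
      div_nonneg (mul_nonneg (h2 x hx).2 (h2 y hy).2) h0.le
    have h7 := (abs_le_of_sq_le_sq' h5 h6).2
    have h8 : b x y = b e0 x * b e0 y / b e0 e0 - c x y := by simp [hc]
    rw [h8]; linarith
  set s : Finset J := Finset.univ.filter (fun j => β j = i) with hs
  set G : ℝ := ∑ j ∈ s, b e0 (xj j) ^ 2 with hG
  set v : I ⊕ J → ℝ := ∑ j ∈ s, b e0 (xj j) • xj j with hv
  have hG0 : 0 ≤ G := Finset.sum_nonneg fun _ _ => sq_nonneg _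
  have hti : 0 ≤ b (ti i) (ti i) := by
    have := ti_mem β i (fun _ => 0) (r := 1) zero_le_one (by simp)
    simp only [one_smul, zero_smul, Finset.sum_const_zero, add_zero] at this
    exact (h2 _ this).1
  rcases hG0.eq_or_lt with hG1 | hG1
  · have h3 : ∀ j ∈ s, b e0 (xj j) = 0 := by
      intro j hj
      have := (Finset.sum_eq_zero_iff_of_nonneg (fun _ _ => sq_nonneg _)).1 hG1.symm j hj
      exact pow_eq_zero_iff two_ne_zero |>.1 this
    refine le_trans (Finset.sum_nonpos fun j hj => h1 _ (h3 j hj)) hti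
  · have h3 : b e0 v = G := by
      rw [hv, map_sum]
      refine Finset.sum_congr rfl fun j _ => ?_
      rw [map_smul, smul_eq_mul, sq]
    have hr : Real.sqrt G * Real.sqrt G = G := Real.mul_self_sqrt hG0
    have hp : Real.sqrt G • ti i + v ∈ CB β :=
      ti_mem β i (fun j => b e0 (xj j)) (Real.sqrt_nonneg G) (by rw [Real.sq_sqrt hG0])
    have hm : Real.sqrt G • ti i - v ∈ CB β := by
      have := ti_mem β i (fun j => -b e0 (xj j)) (Real.sqrt_nonneg G) (by
        rw [Real.sq_sqrt hG0]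
        simp only [neg_sq]
        exact le_rfl)
      rw [sub_eq_add_neg, hv, ← Finset.sum_neg_distrib]
      simpa only [neg_smul] using this
    have h4 := hxy _ hp _ hm
    have h5 : b (Real.sqrt G • ti i + v) (Real.sqrt G • ti i - v) = G * b (ti i) (ti i) - b v v := by
      simp only [map_add, map_sub, map_smul, LinearMap.add_apply, LinearMap.smul_apply,
        smul_eq_mul]
      rw [hb v (ti i)]
      linear_combination (b (ti i) (ti i)) * hr
    rw [h5] at h4
    -- the bound for `c v v`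
    have h6 : c v v ≤ G * ∑ j ∈ s, c (xj j) (xj j) := by
      have e1 : 0 ≤ ∑ j ∈ s, ∑ k ∈ s,
          c (b e0 (xj j) • xj k - b e0 (xj k) • xj j) (b e0 (xj j) • xj k - b e0 (xj k) • xj j) :=
        Finset.sum_nonneg fun j _ => Finset.sum_nonneg fun k _ => hcpos _
      have e2 : ∀ j k : J,
          c (b e0 (xj j) • xj k - b e0 (xj k) • xj j) (b e0 (xj j) • xj k - b e0 (xj k) • xj j) =
          b e0 (xj j) ^ 2 * c (xj k) (xj k) + b e0 (xj k) ^ 2 * c (xj j) (xj j) -
            2 * (b e0 (xj j) * b e0 (xj k) * c (xj j) (xj k)) := by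
        intro j k
        simp only [hc, map_sub, map_smul, LinearMap.sub_apply, LinearMap.smul_apply, smul_eq_mul]
        rw [hb (xj k) (xj j)]
        ring
      have e3 : c v v = ∑ j ∈ s, ∑ k ∈ s, b e0 (xj j) * b e0 (xj k) * c (xj j) (xj k) := by
        have e4 : b v v = ∑ j ∈ s, ∑ k ∈ s, b e0 (xj j) * b e0 (xj k) * b (xj j) (xj k) := by
          rw [hv]
          simp only [map_sum, map_smul, LinearMap.sum_apply, LinearMap.smul_apply, smul_eq_mul]
          rw [Finset.sum_comm]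
          refine Finset.sum_congr rfl fun j _ => ?_
          rw [Finset.mul_sum]
          refine Finset.sum_congr rfl fun k _ => ?_
          ring
        simp only [hc]
        rw [h3, e4, hG, Finset.sum_mul_sum, Finset.sum_div, ← Finset.sum_sub_distrib]
        refine Finset.sum_congr rfl fun j _ => ?_
        rw [Finset.sum_div, ← Finset.sum_sub_distrib]
        refine Finset.sum_congr rfl fun k _ => ?_
        ring
      simp only [e2] at e1
      have e5 : ∑ j ∈ s, ∑ k ∈ s, (b e0 (xj j) ^ 2 * c (xj k) (xj k) +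
          b e0 (xj k) ^ 2 * c (xj j) (xj j) -
            2 * (b e0 (xj j) * b e0 (xj k) * c (xj j) (xj k))) =
          2 * (G * ∑ j ∈ s, c (xj j) (xj j)) - 2 * c v v := by
        have e6 : ∑ j ∈ s, ∑ k ∈ s, b e0 (xj k) ^ 2 * c (xj j) (xj j) =
            G * ∑ j ∈ s, c (xj j) (xj j) := by
          rw [Finset.mul_sum]
          refine Finset.sum_congr rfl fun j _ => ?_
          rw [← Finset.sum_mul]
        have e7 : ∑ j ∈ s, ∑ k ∈ s, b e0 (xj j) ^ 2 * c (xj k) (xj k) =
            G * ∑ j ∈ s, c (xj j) (xj j) := by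
          rw [Finset.sum_comm, e6]
        simp only [Finset.sum_sub_distrib, Finset.sum_add_distrib]
        rw [e6, e7, e3, Finset.mul_sum (s := s) (a := (2 : ℝ))]
        have e8 : ∀ j, ∑ k ∈ s, 2 * (b e0 (xj j) * b e0 (xj k) * c (xj j) (xj k)) =
            2 * ∑ k ∈ s, b e0 (xj j) * b e0 (xj k) * c (xj j) (xj k) := fun j => by
          rw [Finset.mul_sum]
        simp only [e8]
        ring
      rw [e5] at e1
      linarith
    have h7 : b v v = G * G / b e0 e0 - c v v := by
      simp only [hc]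
      rw [h3]; ring
    have h8 : ∑ j ∈ s, c (xj j) (xj j) = G / b e0 e0 - ∑ j ∈ s, b (xj j) (xj j) := by
      simp only [hc]
      rw [Finset.sum_sub_distrib, hG, Finset.sum_div]
      congr 1
      exact Finset.sum_congr rfl fun j _ => by ring
    rw [h8] at h6
    have h9 : G * (G / b e0 e0 - ∑ j ∈ s, b (xj j) (xj j)) =
        G * G / b e0 e0 - G * ∑ j ∈ s, b (xj j) (xj j) := by ring
    rw [h9] at h6
    have h10 : G * ∑ j ∈ s, b (xj j) (xj j) ≤ G * b (ti i) (ti i) := by linarith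
    exact le_of_mul_le_mul_left h10 hG1

/-- **the trace inequality** -/
theorem form_trace (hb : ∀ x y, b x y = b y x)
    (H : ∀ X, ∀ Y ∈ CC β, ¬ (b X X = b Y Y ∧ b X Y = 0)) (h0 : 0 < b e0 e0) {τ : ℝ} (hτ : 0 ≤ τ)
    (hτ1 : τ ≤ 1) :
    0 ≤ (∑ i, b (ti i) (ti i)) - τ * ∑ j, b (xj j) (xj j) := by
  obtain ⟨h1, h2⟩ := form_pos β b hb H h0
  rw [← Finset.sum_fiberwise Finset.univ β (fun j => b (xj j) (xj j)), Finset.mul_sum,
    ← Finset.sum_sub_distrib]
  refine Finset.sum_nonneg fun i _ => ?_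
  have h3 := form_block β b hb h0 h1 h2 i
  have hti : 0 ≤ b (ti i) (ti i) := by
    have := ti_mem β i (fun _ => 0) (r := 1) zero_le_one (by simp)
    simp only [one_smul, zero_smul, Finset.sum_const_zero, add_zero] at this
    exact (h2 _ this).1
  rcases le_total 0 (∑ j with β j = i, b (xj j) (xj j)) with h | h
  · nlinarith
  · nlinarith

end form

end Run7.h951.Hyp
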