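import Pool.Agent.Run7.h951.Hyp.Model
import Pool.Agent.Run7.h951.Hyp.Quad

/-!
# The local argument: `exp(-T) c` has no singular real zeros
-/

set_option autoImplicit false
set_option linter.unusedSectionVars false

namespace Run7.h951.Hyp

open Filter Topology Finset

/-- lowest order terms of a polynomial in two groups of variables -/
theorem lim_sum (s : Finset (ℕ × ℕ)) (A : ℕ × ℕ → ℂ) (m : ℕ)
    (h : ∀ p ∈ s, p.1 + p.2 < m → A p = 0) :
    Tendsto (fun ε : ℝ => ((ε : ℂ) ^ m)⁻¹ * ∑ p ∈ s, (ε : ℂ) ^ (p.1 + p.2) * A p) (𝓝[>] 0)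
      (𝓝 (∑ p ∈ s with p.1 + p.2 = m, A p)) := by
  have h1 : ∀ᶠ ε : ℝ in 𝓝[>] 0, ((ε : ℂ) ^ m)⁻¹ * ∑ p ∈ s, (ε : ℂ) ^ (p.1 + p.2) * A p =
      ∑ p ∈ s, (if p.1 + p.2 < m then 0 else (ε : ℂ) ^ (p.1 + p.2 - m) * A p) := by
    refine eventually_nhdsWithin_of_forall fun ε hε => ?_
    have hε0 : (ε : ℂ) ≠ 0 := Complex.ofReal_ne_zero.2 (ne_of_gt hε)
    rw [Finset.mul_sum]
    refine Finset.sum_congr rfl fun p hp => ?_
    split_ifs with hlt
    · rw [h p hp hlt]; simp
    · have : (ε : ℂ) ^ (p.1 + p.2) = (ε : ℂ) ^ m * (ε : ℂ) ^ (p.1 + p.2 - m) := by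
        rw [← pow_add]; congr 1; omega
      rw [this]
      field_simp
  refine Tendsto.congr' (EventuallyEq.symm h1) ?_
  rw [Finset.sum_filter]
  refine tendsto_finsetSum _ fun p _ => ?_
  by_cases hlt : p.1 + p.2 < m
  · simp only [if_pos hlt]
    rw [if_neg (by omega)]
    exact tendsto_const_nhds
  · simp only [if_neg hlt]
    have hc : Continuous fun ε : ℝ => (ε : ℂ) ^ (p.1 + p.2 - m) * A p := by fun_prop
    have h2 := (hc.tendsto 0).mono_left (nhdsWithin_le_nhds (s := Set.Ioi (0 : ℝ)))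
    convert! h2 using 2
    by_cases he : p.1 + p.2 = m
    · rw [if_pos he, he]; simp
    · rw [if_neg he]
      have : p.1 + p.2 - m ≠ 0 := by omega
      simp [this]

namespace Model

variable {ι : Type} [Fintype ι] {U : Type} [NormedAddCommGroup U] [NormedSpace ℝ U]
  (M : Model ι U)

/-- the complex vector `x + i y` -/
noncomputable def cv (x y : ι → ℝ) : ι → ℂ := cx x + Complex.I • cx y

theorem cv_surj (z : ι → ℂ) : z = cv (fun a => (z a).re) (fun a => (z a).im) := by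
  funext a
  simp only [cv, cx, Pi.add_apply, Pi.smul_apply, smul_eq_mul]
  rw [mul_comm]
  exact (Complex.re_add_im _).symm

theorem imv_cv (x y : ι → ℝ) : imv (cv x y) = y := by
  funext a
  simp [imv, cv, cx]

/-- the Taylor coefficients -/
noncomputable def ac (c : U) (x y : ι → ℝ) (p : ℕ × ℕ) : ℂ :=
  Complex.I ^ p.2 / ((p.1.factorial : ℂ) * (p.2.factorial : ℂ)) *
    M.E ((M.dir y ^ p.2) ((M.dir x ^ p.1) c)) 0

theorem taylor2 (c : U) (x y : ι → ℝ) (r : ℂ) : M.E c (r • cv x y) =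
    ∑ p ∈ (range (M.n + 1)) ×ˢ (range (M.n + 1)), r ^ (p.1 + p.2) * M.ac c x y p := by
  have h1 : r • cv x y = (0 + (r * Complex.I) • cx y) + r • cx x := by
    simp only [cv, smul_add, smul_smul, zero_add]
    rw [add_comm]
  rw [h1, M.taylor', Finset.sum_product]
  refine Finset.sum_congr rfl fun j _ => ?_
  rw [M.taylor', Finset.mul_sum]
  refine Finset.sum_congr rfl fun k _ => ?_
  simp only [ac]
  rw [mul_pow, pow_add]
  field_simp

/-- the lowest order part -/
noncomputable def low (c : U) (m : ℕ) (z : ι → ℂ) : ℂ :=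
  ∑ p ∈ (range (M.n + 1)) ×ˢ (range (M.n + 1)) with p.1 + p.2 = m,
    M.ac c (fun a => (z a).re) (fun a => (z a).im) p

theorem tendsto_low (c : U) (m : ℕ) (z : ι → ℂ)
    (h : ∀ (x y : ι → ℝ) (p : ℕ × ℕ), p.1 + p.2 < m → M.ac c x y p = 0) :
    Tendsto (fun ε : ℝ => ((ε : ℂ) ^ m)⁻¹ * M.E c ((ε : ℂ) • z)) (𝓝[>] 0) (𝓝 (M.low c m z)) := by
  have h1 : ∀ ε : ℝ, M.E c ((ε : ℂ) • z) =
      ∑ p ∈ (range (M.n + 1)) ×ˢ (range (M.n + 1)), (ε : ℂ) ^ (p.1 + p.2) *
        M.ac c (fun a => (z a).re) (fun a => (z a).im) p := by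
    intro ε
    conv_lhs => rw [cv_surj z]
    exact M.taylor2 _ _ _ _
  simp only [h1]
  exact lim_sum _ _ m fun p _ hp => h _ _ p hp

theorem low_one (c : U) (x y : ι → ℝ) : M.low c 1 (cv x y) =
    M.E (M.dir x c) 0 + Complex.I * M.E (M.dir y c) 0 := by
  have h1 : (fun a => ((cv x y : ι → ℂ) a).re) = x := by funext a; simp [cv, cx]
  have h2 : (fun a => ((cv x y : ι → ℂ) a).im) = y := imv_cv x y
  have h3 : ((range (M.n + 1)) ×ˢ (range (M.n + 1))).filter (fun p : ℕ × ℕ => p.1 + p.2 = 1) =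
      {(1, 0), (0, 1)} := by
    have := M.hn
    ext ⟨a, b⟩
    simp only [mem_filter, mem_product, mem_range, mem_insert, mem_singleton, Prod.mk.injEq]
    omega
  rw [low, h1, h2, h3, Finset.sum_insert (by simp), Finset.sum_singleton]
  simp [ac]

theorem low_two (c : U) (x y : ι → ℝ) : M.low c 2 (cv x y) =
    1 / 2 * M.E ((M.dir x ^ 2) c) 0 - 1 / 2 * M.E ((M.dir y ^ 2) c) 0 +
      Complex.I * M.E (M.dir y (M.dir x c)) 0 := by
  have h1 : (fun a => ((cv x y : ι → ℂ) a).re) = x := by funext a; simp [cv, cx]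
  have h2 : (fun a => ((cv x y : ι → ℂ) a).im) = y := imv_cv x y
  have h3 : ((range (M.n + 1)) ×ˢ (range (M.n + 1))).filter (fun p : ℕ × ℕ => p.1 + p.2 = 2) =
      {(2, 0), (1, 1), (0, 2)} := by
    have := M.hn
    ext ⟨a, b⟩
    simp only [mem_filter, mem_product, mem_range, mem_insert, mem_singleton, Prod.mk.injEq]
    omega
  rw [low, h1, h2, h3, Finset.sum_insert (by simp), Finset.sum_insert (by simp),
    Finset.sum_singleton]
  simp only [ac, pow_zero, pow_one, Nat.factorial, Nat.cast_one, Complex.I_sq,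
    one_apply_eq_self]
  push_cast
  ring

/-- the values at the real points are real -/
theorem E_im (c : U) (x : ι → ℝ) : (M.E c (cx x)).im = 0 := by
  have h := M.conj c (cx x)
  have h1 : (fun a => (starRingEnd ℂ) (cx x a)) = cx x := by
    funext a; simp [cx]
  rw [h1] at h
  exact Complex.conj_eq_iff_im.1 h.symm

theorem E_im0 (c : U) : (M.E c 0).im = 0 := by
  have := M.E_im c 0
  have h1 : (cx (0 : ι → ℝ)) = 0 := by funext a; simp [cx]
  rwa [h1] at this

theorem E_re0 (c : U) : M.E c 0 = ((M.E c 0).re : ℂ) := by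
  apply Complex.ext
  · simp
  · simp [M.E_im0 c]

/-- second derivatives at the origin -/
noncomputable def hess (c : U) : (ι → ℝ) →ₗ[ℝ] (ι → ℝ) →ₗ[ℝ] ℝ :=
  LinearMap.mk₂ ℝ (fun x y => (M.E (M.dir x (M.dir y c)) 0).re)
    (fun x x' y => by rw [M.dir_add]; simp [M.add])
    (fun t x y => by rw [M.dir_smul]; simp [M.smul])
    (fun x y y' => by rw [M.dir_add]; simp [M.add])
    (fun t x y => by rw [M.dir_smul]; simp [M.smul])

theorem hess_apply (c : U) (x y : ι → ℝ) :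
    (M.hess c x y : ℂ) = M.E (M.dir x (M.dir y c)) 0 := by
  rw [M.E_re0]; rfl

theorem hess_symm (c : U) (x y : ι → ℝ) : M.hess c x y = M.hess c y x := by
  have h : M.dir x (M.dir y c) = M.dir y (M.dir x c) :=
    congrArg (fun f : U →L[ℝ] U => f c) (M.dir_commute x y).eq
  apply Complex.ofReal_injective
  rw [M.hess_apply, M.hess_apply, h]

theorem low_two' (c : U) (x y : ι → ℝ) : M.low c 2 (cv x y) =
    1 / 2 * ((M.hess c x x : ℝ) : ℂ) - 1 / 2 * ((M.hess c y y : ℝ) : ℂ) +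
      Complex.I * ((M.hess c x y : ℝ) : ℂ) := by
  rw [M.low_two, M.hess_apply, M.hess_apply, M.hess_symm c x y, M.hess_apply]
  rfl

end Model

end Run7.h951.Hyp
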