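import Pool.Agent.Run7.h951.Hyp.Contra

/-!
# `exp(-T)` preserves stability with respect to products of Lorentz cones
-/

set_option autoImplicit false
set_option linter.unusedSectionVars false

namespace Run7.h951.Hyp

open Filter Topology Finset

variable {I J : Type} [Fintype I] [DecidableEq I] [Fintype J] [DecidableEq J] (β : J → I)
  {U : Type} [NormedAddCommGroup U] [NormedSpace ℝ U]

/-- the larger cone -/
structure Big (C' : Set (I ⊕ J → ℝ)) : Prop where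
  isOpen : IsOpen C'
  smul : ∀ r : ℝ, 0 < r → ∀ y ∈ C', r • y ∈ C'
  sub : ∀ y ∈ CB β, y ≠ 0 → y ∈ C'

theorem tclm {κ : Type} {l : Filter κ} {f : κ → (U →L[ℝ] U)} {f0 : U →L[ℝ] U} {x : κ → U}
    {x0 : U} (hf : Tendsto f l (𝓝 f0)) (hx : Tendsto x l (𝓝 x0)) :
    Tendsto (fun k => f k (x k)) l (𝓝 (f0 x0)) :=
  ((isBoundedBilinearMap_apply (𝕜 := ℝ) (E := U) (F := U)).continuous.tendsto (f0, x0)).comp
    (hf.prodMk_nhds hx)

namespace Model

variable (M : Model (I ⊕ J) U)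

theorem dir_sq_semi (w : I ⊕ J → ℝ) (r : ℝ) :
    M.dir w ^ 2 * M.S r = r ^ 2 • (M.S r * M.dir w ^ 2) := by
  rw [sq (M.dir w), mul_assoc, M.dir_semi, mul_smul_comm, ← mul_assoc, M.dir_semi,
    smul_mul_assoc, smul_smul, mul_assoc, ← sq]

theorem TT_semi (κ τ r : ℝ) : M.TT κ τ * M.S r = r ^ 2 • (M.S r * M.TT κ τ) := by
  unfold TT
  rw [sub_mul, add_mul, mul_sub, mul_add, smul_mul_assoc, smul_mul_assoc, M.dir_sq_semi,
    Finset.sum_mul, Finset.sum_mul, mul_smul_comm, mul_smul_comm, Finset.mul_sum, Finset.mul_sum,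
    smul_sub, smul_add, Finset.smul_sum, Finset.smul_sum]
  simp only [M.dir_sq_semi]
  congr 1
  · congr 1
    rw [smul_smul, smul_smul, mul_comm]
  · rw [← Finset.smul_sum, ← Finset.smul_sum, smul_smul, smul_smul, mul_comm]

theorem ex_dil [CompleteSpace U] (κ τ r s : ℝ) (c : U) :
    M.S r (ex ((s * r ^ 2) • M.TT κ τ) c) = ex (s • M.TT κ τ) (M.S r c) := by
  have h : SemiconjBy (M.S r) ((s * r ^ 2) • M.TT κ τ) (s • M.TT κ τ) := by
    show M.S r * ((s * r ^ 2) • M.TT κ τ) = (s • M.TT κ τ) * M.S r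
    rw [smul_mul_assoc, M.TT_semi, mul_smul_comm, smul_smul]
  exact congrArg (fun f : U →L[ℝ] U => f c) (ex_semi h).eq

theorem cv_smul (r : ℝ) (Y : I ⊕ J → ℝ) : (r : ℂ) • cv 0 Y = cv 0 (r • Y) := by
  funext a
  simp [cv, cx]
  ring

theorem cv_eq (Y : I ⊕ J → ℝ) : cv 0 Y = Complex.I • cx Y := by
  funext a
  simp [cv, cx]

theorem TT_tendsto {κ : ℝ} {r τ : ℕ → ℝ} (h : Tendsto r atTop (𝓝 0)) (h0 : ∀ k, 0 ≤ τ k)
    (h1 : ∀ k, τ k ≤ 1) : Tendsto (fun k => r k • M.TT κ (τ k)) atTop (𝓝 0) := by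
  have h2 : ∀ k, r k • M.TT κ (τ k) = r k • (κ • M.dir e0 ^ 2 + ∑ i, M.dir (ti i) ^ 2) -
      (r k * τ k) • ∑ j, M.dir (xj j) ^ 2 := by
    intro k
    unfold TT
    rw [smul_sub, smul_smul]
  simp only [h2]
  have h3 : Tendsto (fun k => r k * τ k) atTop (𝓝 0) := by
    refine squeeze_zero_norm (a := fun k => ‖r k‖) (fun k => ?_) (by simpa using h.norm)
    rw [norm_mul]
    have : ‖τ k‖ ≤ 1 := by
      rw [Real.norm_of_nonneg (h0 k)]; exact h1 k
    exact mul_le_of_le_one_right (norm_nonneg _) this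
  have h4 := (h.smul_const (κ • M.dir e0 ^ 2 + ∑ i, M.dir (ti i) ^ 2)).sub
    (h3.smul_const (∑ j, M.dir (xj j) ^ 2))
  rw [zero_smul, zero_smul, sub_zero] at h4
  exact h4

theorem TT_cont (κ : ℝ) : Continuous fun τ => M.TT κ τ := by
  unfold TT
  fun_prop

variable {β}

theorem e0_ne [Nonempty I] : (e0 : I ⊕ J → ℝ) ≠ 0 := by
  obtain ⟨i⟩ := ‹Nonempty I›
  intro h
  have := congrFun h (Sum.inl i)
  simp [e0] at this

theorem CC_ne [Nonempty I] {y : I ⊕ J → ℝ} (hy : y ∈ CC β) : y ≠ 0 := by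
  obtain ⟨i⟩ := ‹Nonempty I›
  rintro rfl
  have := (hy i).1
  simp at this

/-- large zeros -/
theorem far [Nonempty I] [FiniteDimensional ℝ U] {C' : Set (I ⊕ J → ℝ)} (hC : Big β C') (κ : ℝ) :
    ∃ R : ℝ, 0 < R ∧ ∀ τ, 0 ≤ τ → τ ≤ 1 → ∀ c, St C' (M.E c) → ∀ Y ∈ CB β, R ≤ ‖Y‖ →
      M.E (ex (-(M.TT κ τ)) c) (cv 0 Y) ≠ 0 := by
  have : CompleteSpace U := FiniteDimensional.complete ℝ U
  have : ProperSpace U := FiniteDimensional.proper_real U
  by_contra hcon
  push Not at hcon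
  have hcon' : ∀ k : ℕ, ∃ (τ : ℝ) (c : U) (Y : I ⊕ J → ℝ), 0 ≤ τ ∧ τ ≤ 1 ∧ St C' (M.E c) ∧
      Y ∈ CB β ∧ (k : ℝ) + 1 ≤ ‖Y‖ ∧ M.E (ex (-(M.TT κ τ)) c) (cv 0 Y) = 0 := by
    intro k
    obtain ⟨τ, h1, h2, c, h3, Y, h4, h5, h6⟩ := hcon ((k : ℝ) + 1) (by positivity)
    exact ⟨τ, c, Y, h1, h2, h3, h4, h5, h6⟩
  choose τ c Y hτ0 hτ1 hc hY hYk hz using hcon'
  have hr0 : ∀ k, 0 < ‖Y k‖ := fun k => lt_of_lt_of_le (by positivity) (hYk k)
  have hne : C'.Nonempty := ⟨e0, hC.sub _ (CC_sub β (e0_mem β)) e0_ne⟩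
  set c1 : ℕ → U := fun k => M.S ‖Y k‖ (c k) with hc1
  have hc1st : ∀ k, St C' (M.E (c1 k)) := fun k => M.St_S (hc k) (hC.smul _ (hr0 k))
  have hc1ne : ∀ k, c1 k ≠ 0 := fun k => M.ne_zero_of_St hne (hc1st k)
  set c2 : ℕ → U := fun k => ‖c1 k‖⁻¹ • c1 k with hc2
  have hc2st : ∀ k, St C' (M.E (c2 k)) := fun k =>
    M.St_smul (hc1st k) (inv_ne_zero (norm_ne_zero_iff.2 (hc1ne k)))
  set d : ℕ → (I ⊕ J → ℝ) := fun k => ‖Y k‖⁻¹ • Y k with hd
  have hzero : ∀ k, M.E (ex ((-(‖Y k‖ ^ 2)⁻¹) • M.TT κ (τ k)) (c2 k)) (cv 0 (d k)) = 0 := by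
    intro k
    have h1 : (‖Y k‖ : ℂ) • cv 0 (d k) = cv 0 (Y k) := by
      rw [cv_smul, hd]
      simp only [smul_smul]
      rw [mul_inv_cancel₀ (hr0 k).ne', one_smul]
    have h2 := M.ex_dil κ (τ k) ‖Y k‖ (-(‖Y k‖ ^ 2)⁻¹) (c k)
    have h3 : -(‖Y k‖ ^ 2)⁻¹ * ‖Y k‖ ^ 2 = -1 := by
      have : ‖Y k‖ ^ 2 ≠ 0 := pow_ne_zero _ (hr0 k).ne'
      rw [neg_mul, inv_mul_cancel₀ this]
    rw [h3, neg_one_smul] at h2
    rw [hc2]
    simp only
    rw [map_smul, M.smul, hc1]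
    simp only
    rw [← h2, M.dil, h1, hz k, mul_zero]
  have hmem : ∀ k, (c2 k, d k) ∈ (Metric.sphere (0 : U) 1) ×ˢ
      (Metric.sphere (0 : I ⊕ J → ℝ) 1) := by
    intro k
    refine ⟨?_, ?_⟩
    · simp only [hc2, mem_sphere_zero_iff_norm, norm_smul, norm_inv, norm_norm]
      exact inv_mul_cancel₀ (norm_ne_zero_iff.2 (hc1ne k))
    · simp only [hd, mem_sphere_zero_iff_norm, norm_smul, norm_inv, norm_norm]
      exact inv_mul_cancel₀ (hr0 k).ne'
  obtain ⟨⟨c0, d0⟩, hmem0, φ, hφ, hlim⟩ :=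
    ((isCompact_sphere (0 : U) 1).prod (isCompact_sphere (0 : I ⊕ J → ℝ) 1)).tendsto_subseq hmem
  have hl1 : Tendsto (fun k => c2 (φ k)) atTop (𝓝 c0) := (continuous_fst.tendsto _).comp hlim
  have hl2 : Tendsto (fun k => d (φ k)) atTop (𝓝 d0) := (continuous_snd.tendsto _).comp hlim
  have hc0 : ‖c0‖ = 1 := by simpa using hmem0.1
  have hd0 : ‖d0‖ = 1 := by simpa using hmem0.2
  have hst : St C' (M.E c0) := M.St_lim hC.isOpen hl1 (Eventually.of_forall fun k => hc2st _)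
    (by intro h; rw [h] at hc0; simp at hc0)
  have hdB : d0 ∈ CB β := (isClosed_CB β).mem_of_tendsto hl2 (Eventually.of_forall fun k =>
    CB_smul β (hY _) (by positivity))
  have hdne : d0 ≠ 0 := by intro h; rw [h] at hd0; simp at hd0
  apply hst (cv 0 d0) (by rw [imv_cv]; exact hC.sub _ hdB hdne)
  have hinv : Tendsto (fun k => -(‖Y (φ k)‖ ^ 2)⁻¹) atTop (𝓝 0) := by
    have h1 : Tendsto (fun k => (‖Y k‖ ^ 2)⁻¹) atTop (𝓝 0) := by
      refine squeeze_zero (fun k => by positivity) (fun k => ?_)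
        (tendsto_one_div_add_atTop_nhds_zero_nat (𝕜 := ℝ))
      rw [one_div]
      apply inv_anti₀ (by positivity)
      have := hYk k
      have h2 : (1 : ℝ) ≤ ‖Y k‖ := by
        have : (0 : ℝ) ≤ k := Nat.cast_nonneg k
        linarith
      nlinarith
    simpa using (h1.comp hφ.tendsto_atTop).neg
  have h1 := M.TT_tendsto (κ := κ) (τ := fun k => τ (φ k)) hinv (fun k => hτ0 _) (fun k => hτ1 _)
  have h2 : Tendsto (fun k => ex ((-(‖Y (φ k)‖ ^ 2)⁻¹) • M.TT κ (τ (φ k)))) atTop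
      (𝓝 (1 : U →L[ℝ] U)) := by
    have := (ex_cont.tendsto (0 : U →L[ℝ] U)).comp h1
    rwa [ex_zero] at this
  have h3 := tclm h2 hl1
  have hcv : Continuous fun Y : I ⊕ J → ℝ => cv 0 Y := by
    unfold cv cx; fun_prop
  have h4 := M.tendsto_E h3 ((hcv.tendsto d0).comp hl2)
  refine tendsto_nhds_unique h4 ?_
  refine tendsto_const_nhds.congr fun k => ?_
  exact (hzero _).symm

/-- the case without space directions -/
theorem base [CompleteSpace U] {κ : ℝ} (hκ : 0 ≤ κ) {c : U} (hc : St (CC β) (M.E c)) (hne : c ≠ 0) :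
    St (CC β) (M.E (ex (-(M.TT κ 0)) c)) := by
  classical
  have hcone : ∀ d ∈ CB β, ∀ y ∈ CC β, ∀ s : ℝ, 0 ≤ s → y + s • d ∈ CC β :=
    fun d hd y hy s hs => CC_add β hy hd hs
  have hti : ∀ i, (ti i : I ⊕ J → ℝ) ∈ CB β := by
    intro i
    have := ti_mem β i (fun _ => 0) (r := 1) zero_le_one (by simp)
    simpa using this
  have key : ∀ s : Finset I, St (CC β) (M.E (ex (-(∑ i ∈ s, M.dir (ti i) ^ 2)) c)) ∧
      ex (-(∑ i ∈ s, M.dir (ti i) ^ 2)) c ≠ 0 := by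
    intro s
    refine ⟨?_, ex_inj hne⟩
    induction s using Finset.induction_on with
    | empty => simpa [ex_zero] using hc
    | insert i s hi ih =>
      have h1 : ex (-(∑ i ∈ insert i s, M.dir (ti i) ^ 2)) =
          ex (-((1 : ℝ) • M.dir (ti i) ^ 2)) * ex (-(∑ i ∈ s, M.dir (ti i) ^ 2)) := by
        rw [← ex_add, Finset.sum_insert hi, one_smul, neg_add]
        refine Commute.neg_right (Commute.neg_left ?_)
        rw [one_smul]
        exact Commute.sum_right _ _ _ fun k _ => (M.dir_commute _ _).pow_pow 2 2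
      rw [h1, mul_apply_eq_comp]
      exact M.St_ex_sq (isOpen_CC β) ih (hcone _ (hti i)) (ex_inj hne) zero_le_one
  have h1 : ex (-(M.TT κ 0)) = ex (-(κ • M.dir e0 ^ 2)) * ex (-(∑ i, M.dir (ti i) ^ 2)) := by
    rw [← ex_add]
    · congr 1
      unfold TT
      rw [zero_smul, sub_zero, neg_add]
    · refine Commute.neg_right (Commute.neg_left ?_)
      refine Commute.smul_left ?_ _
      exact Commute.sum_right _ _ _ fun k _ => (M.dir_commute _ _).pow_pow 2 2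
  rw [h1, mul_apply_eq_comp]
  exact M.St_ex_sq (isOpen_CC β) (key univ).1 (hcone _ (CC_sub β (e0_mem β))) (key univ).2 hκ

/-- **the stability theorem** -/
theorem stab [Nonempty I] [FiniteDimensional ℝ U] {C' : Set (I ⊕ J → ℝ)} (hC : Big β C') {κ : ℝ}
    (hκ : 0 < κ) : Set.Icc (0 : ℝ) 1 ⊆
      {τ | ∀ c, St C' (M.E c) → St (CC β) (M.E (ex (-(M.TT κ τ)) c))} := by
  have : CompleteSpace U := FiniteDimensional.complete ℝ U
  have : ProperSpace U := FiniteDimensional.proper_real U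
  have hne : C'.Nonempty := ⟨e0, hC.sub _ (CC_sub β (e0_mem β)) e0_ne⟩
  set s : Set ℝ := {τ | ∀ c, St C' (M.E c) → St (CC β) (M.E (ex (-(M.TT κ τ)) c))} with hs
  have hexc : ∀ c : U, Continuous fun τ => ex (-(M.TT κ τ)) c := fun c =>
    (ContinuousLinearMap.apply ℝ U c).continuous.comp
      ((ex_cont (A := U →L[ℝ] U)).comp (M.TT_cont κ).neg)
  have hclosed : IsClosed s := by
    refine isClosed_of_closure_subset fun τ hτ c hc => ?_
    have : (𝓝[s] τ).NeBot := mem_closure_iff_nhdsWithin_neBot.1 hτ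
    refine M.St_lim (l := 𝓝[s] τ) (isOpen_CC β)
      (((hexc c).tendsto τ).mono_left nhdsWithin_le_nhds) ?_ (ex_inj (M.ne_zero_of_St hne hc))
    filter_upwards [self_mem_nhdsWithin] with τ' hτ'
    exact hτ' c hc
  have h0 : (0 : ℝ) ∈ s := by
    intro c hc
    refine M.base hκ.le (fun z hz => hc z (hC.sub _ (CC_sub β hz) (CC_ne hz)))
      (M.ne_zero_of_St hne hc)
  refine (hclosed.inter isClosed_Icc).Icc_subset_of_forall_mem_nhdsWithin h0 ?_
  rintro τ0 ⟨hτs, hτ0, hτ01⟩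
  by_contra hcon
  have hfreq : ∃ᶠ τ in 𝓝[>] τ0, τ ∉ s := by
    intro h
    apply hcon
    filter_upwards [h] with τ hτ
    exact not_not.1 hτ
  have hlt : ∀ᶠ τ in 𝓝[>] τ0, τ ∈ Set.Ioo τ0 1 := Ioo_mem_nhdsGT hτ01
  obtain ⟨τ, hτlim, hτ⟩ := Filter.exists_seq_forall_of_frequently (hfreq.and_eventually hlt)
  have hτlim0 : Tendsto τ atTop (𝓝 τ0) := hτlim.mono_right nhdsWithin_le_nhds
  obtain ⟨R, hR0, hR⟩ := M.far hC κ
  have hdata : ∀ k : ℕ, ∃ (c : U) (Y : I ⊕ J → ℝ), St C' (M.E c) ∧ Y ∈ CC β ∧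
      M.E (ex (-(M.TT κ (τ k))) c) (cv 0 Y) = 0 := by
    intro k
    have h1 := (hτ k).1
    simp only [hs, Set.mem_ofPred_eq] at h1
    push Not at h1
    obtain ⟨c, hc, h2⟩ := h1
    unfold St at h2
    push Not at h2
    obtain ⟨z, hz, hz0⟩ := h2
    refine ⟨M.Tr (fun a => (z a).re) c, imv z, M.St_Tr hc _, hz, ?_⟩
    have h3 : Commute (M.Tr fun a => (z a).re) (M.TT κ (τ k)) := by
      unfold TT
      refine ((Commute.smul_right ((M.Tr_commute _ _).pow_right 2) κ).add_right ?_).sub_right ?_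
      · exact Commute.sum_right _ _ _ fun i _ => (M.Tr_commute _ _).pow_right 2
      · exact Commute.smul_right (Commute.sum_right _ _ _ fun i _ =>
          (M.Tr_commute _ _).pow_right 2) _
    have h4 : ex (-(M.TT κ (τ k))) (M.Tr (fun a => (z a).re) c) =
        M.Tr (fun a => (z a).re) (ex (-(M.TT κ (τ k))) c) :=
      (congrArg (fun f : U →L[ℝ] U => f c) (ex_commute h3.neg_right).eq).symm
    rw [h4, M.E_Tr]
    have h5 : cv 0 (imv z) + cx (fun a => (z a).re) = z := by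
      conv_rhs => rw [cv_surj z]
      unfold cv imv
      have : cx (0 : I ⊕ J → ℝ) = 0 := by funext a; simp [cx]
      rw [this, zero_add, add_comm]
    rw [h5]
    exact hz0
  choose c Y hc hY hz using hdata
  have hcne : ∀ k, c k ≠ 0 := fun k => M.ne_zero_of_St hne (hc k)
  have hYne : ∀ k, 0 < ‖Y k‖ := fun k => norm_pos_iff.2 (CC_ne (hY k))
  have hYR : ∀ k, ‖Y k‖ ≤ R := by
    intro k
    by_contra hlt'
    exact hR (τ k) (hτ0.trans (hτ k).2.1.le) (hτ k).2.2.le (c k) (hc k) (Y k) (CC_sub β (hY k))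
      (not_le.1 hlt').le (hz k)
  set c1 : ℕ → U := fun k => ‖c k‖⁻¹ • c k with hc1
  have hc1st : ∀ k, St C' (M.E (c1 k)) := fun k =>
    M.St_smul (hc k) (inv_ne_zero (norm_ne_zero_iff.2 (hcne k)))
  set d : ℕ → (I ⊕ J → ℝ) := fun k => ‖Y k‖⁻¹ • Y k with hd
  have hz1 : ∀ k, M.E (ex (-(M.TT κ (τ k))) (c1 k)) (cv 0 (Y k)) = 0 := by
    intro k
    simp only [hc1]
    rw [map_smul, M.smul, hz k, mul_zero]
  have hmem : ∀ k, (c1 k, (Y k, d k)) ∈ (Metric.sphere (0 : U) 1) ×ˢ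
      ((Metric.closedBall (0 : I ⊕ J → ℝ) R) ×ˢ (Metric.sphere (0 : I ⊕ J → ℝ) 1)) := by
    intro k
    refine ⟨?_, ?_, ?_⟩
    · simp only [hc1, mem_sphere_zero_iff_norm, norm_smul, norm_inv, norm_norm]
      exact inv_mul_cancel₀ (norm_ne_zero_iff.2 (hcne k))
    · simpa using hYR k
    · simp only [hd, mem_sphere_zero_iff_norm, norm_smul, norm_inv, norm_norm]
      exact inv_mul_cancel₀ (hYne k).ne'
  obtain ⟨⟨c0, Y0, d0⟩, hmem0, φ, hφ, hlim⟩ := ((isCompact_sphere (0 : U) 1).prod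
    ((isCompact_closedBall (0 : I ⊕ J → ℝ) R).prod
      (isCompact_sphere (0 : I ⊕ J → ℝ) 1))).tendsto_subseq hmem
  have hl1 : Tendsto (fun k => c1 (φ k)) atTop (𝓝 c0) := (continuous_fst.tendsto _).comp hlim
  have hl2 : Tendsto (fun k => Y (φ k)) atTop (𝓝 Y0) :=
    ((continuous_fst.comp continuous_snd).tendsto _).comp hlim
  have hl3 : Tendsto (fun k => d (φ k)) atTop (𝓝 d0) :=
    ((continuous_snd.comp continuous_snd).tendsto _).comp hlim
  have hc0 : ‖c0‖ = 1 := by simpa using hmem0.1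
  have hd0 : ‖d0‖ = 1 := by simpa using hmem0.2.2
  have hst : St C' (M.E c0) := M.St_lim hC.isOpen hl1 (Eventually.of_forall fun k => hc1st _)
    (by intro h; rw [h] at hc0; simp at hc0)
  have hYB : Y0 ∈ CB β := (isClosed_CB β).mem_of_tendsto hl2 (Eventually.of_forall fun k =>
    CC_sub β (hY _))
  have hdB : d0 ∈ CB β := (isClosed_CB β).mem_of_tendsto hl3 (Eventually.of_forall fun k =>
    CB_smul β (CC_sub β (hY _)) (by positivity))
  set G : U := ex (-(M.TT κ τ0)) c0 with hG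
  have hGst : St (CC β) (M.E G) := hτs c0 hst
  have hτφ : Tendsto (fun k => τ (φ k)) atTop (𝓝 τ0) := hτlim0.comp hφ.tendsto_atTop
  have hGlim : Tendsto (fun k => ex (-(M.TT κ (τ (φ k)))) (c1 (φ k))) atTop (𝓝 G) := by
    have h1 : Tendsto (fun k => ex (-(M.TT κ (τ (φ k))))) atTop (𝓝 (ex (-(M.TT κ τ0)))) :=
      (((ex_cont (A := U →L[ℝ] U)).comp (M.TT_cont κ).neg).tendsto τ0).comp hτφ
    exact tclm h1 hl1
  have hcv : Continuous fun Y : I ⊕ J → ℝ => cv 0 Y := by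
    unfold cv cx; fun_prop
  have hGY : M.E G (cv 0 Y0) = 0 := by
    refine tendsto_nhds_unique (M.tendsto_E hGlim ((hcv.tendsto Y0).comp hl2)) ?_
    refine tendsto_const_nhds.congr fun k => ?_
    exact (hz1 _).symm
  -- `G` does not vanish along the directions of the closed cone
  have hline : ∀ v ∈ CB β, v ≠ 0 → ∃ t : ℂ, M.E G (t • cx v) ≠ 0 := by
    intro v hv hv0
    have hv1 : 0 < ‖v‖ := norm_pos_iff.2 hv0
    refine ⟨((R / ‖v‖ : ℝ) : ℂ) * Complex.I, ?_⟩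
    have h1 : (((R / ‖v‖ : ℝ) : ℂ) * Complex.I) • cx v = cv 0 ((R / ‖v‖) • v) := by
      rw [← cv_smul, cv_eq, smul_smul]
    rw [h1]
    refine hR τ0 hτ0 hτ01.le c0 hst _ (CB_smul β hv (by positivity)) ?_
    rw [norm_smul, Real.norm_of_nonneg (by positivity), div_mul_cancel₀ _ hv1.ne']
  by_cases hY0 : Y0 = 0
  · -- the local case
    rw [hY0] at hGY hl2
    have hcv0 : cv (0 : I ⊕ J → ℝ) 0 = 0 := by funext a; simp [cv, cx]
    rw [hcv0] at hGY
    have hdne : d0 ≠ 0 := by intro h; rw [h] at hd0; simp at hd0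
    refine M.contra β hκ hτ0 hτ01.le hGst (fun δ hδ0 hδ1 => ?_) hdB (hline d0 hdB hdne) hGY ?_
    · -- dilation
      have h1 : ex (δ • M.TT κ τ0) G = ex ((-1 * (Real.sqrt (1 - δ)) ^ 2) • M.TT κ τ0) c0 := by
        rw [hG, ← mul_apply_eq_comp, ← ex_add, Real.sq_sqrt (by linarith)]
        · congr 2
          module
        · exact Commute.neg_right (Commute.smul_left (Commute.refl _) _)
      rw [h1]
      intro z hz
      set ρ : ℝ := Real.sqrt (1 - δ) with hρ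
      have hρ0 : 0 < ρ := Real.sqrt_pos.2 (by linarith)
      have h2 : z = (ρ : ℂ) • ((ρ⁻¹ : ℝ) : ℂ) • z := by
        rw [smul_smul, ← Complex.ofReal_mul, mul_inv_cancel₀ hρ0.ne', Complex.ofReal_one, one_smul]
      rw [h2, ← M.dil, M.ex_dil, neg_one_smul]
      refine hτs _ (M.St_S hst (hC.smul _ hρ0)) _ ?_
      have h3 : imv (((ρ⁻¹ : ℝ) : ℂ) • z) = ρ⁻¹ • imv z := by
        funext a; simp [imv]
      rw [h3]
      exact CC_smul β hz (inv_pos.2 hρ0)
    · -- the derivative in direction `d0`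
      have hdirc : Continuous fun w : I ⊕ J → ℝ => M.dir w := by
        unfold dir; fun_prop
      have ha : ∀ j : ℕ, Tendsto (fun k => (M.E ((M.dir (d (φ k)) ^ j)
          (ex (-(M.TT κ (τ (φ k)))) (c1 (φ k)))) 0).re) atTop
          (𝓝 (M.E ((M.dir d0 ^ j) G) 0).re) := by
        intro j
        have h1 : Tendsto (fun k => M.dir (d (φ k)) ^ j) atTop (𝓝 (M.dir d0 ^ j)) :=
          ((hdirc.tendsto d0).comp hl3).pow j
        exact (Complex.continuous_re.tendsto _).comp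
          (M.tendsto_E (tclm h1 hGlim) tendsto_const_nhds)
      have hy : Tendsto (fun k => ‖Y (φ k)‖) atTop (𝓝 0) := by simpa using hl2.norm
      have hsum : ∀ k, ∑ j ∈ range (M.n + 1), (Complex.I ^ j).im / (j.factorial : ℝ) *
          ‖Y (φ k)‖ ^ (j - 1) * (M.E ((M.dir (d (φ k)) ^ j)
          (ex (-(M.TT κ (τ (φ k)))) (c1 (φ k)))) 0).re = 0 := by
        intro k
        have h1 := hz1 (φ k)
        have h2 : cv 0 (Y (φ k)) = 0 + (Complex.I * (‖Y (φ k)‖ : ℂ)) • cx (d (φ k)) := by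
          rw [zero_add, mul_comm, ← smul_smul, ← cv_eq, cv_smul]
          congr 1
          simp only [hd, smul_smul]
          rw [mul_inv_cancel₀ (hYne _).ne', one_smul]
        rw [h2, M.taylor'] at h1
        have h3 := congrArg Complex.im h1
        rw [Complex.im_sum, Complex.zero_im] at h3
        have h4 : ‖Y (φ k)‖ * (∑ j ∈ range (M.n + 1), (Complex.I ^ j).im / (j.factorial : ℝ) *
          ‖Y (φ k)‖ ^ (j - 1) * (M.E ((M.dir (d (φ k)) ^ j)
          (ex (-(M.TT κ (τ (φ k)))) (c1 (φ k)))) 0).re) = 0 := by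
          rw [← h3, Finset.mul_sum]
          refine Finset.sum_congr rfl fun j _ => ?_
          rw [M.E_re0 ((M.dir (d (φ k)) ^ j) (ex (-(M.TT κ (τ (φ k)))) (c1 (φ k)))),
            Complex.im_mul_ofReal, Complex.ofReal_re]
          have h5 : ((Complex.I * (‖Y (φ k)‖ : ℂ)) ^ j / (j.factorial : ℂ)).im =
              (Complex.I ^ j).im * ‖Y (φ k)‖ ^ j / (j.factorial : ℝ) := by
            rw [mul_pow, ← Complex.ofReal_pow, ← Complex.ofReal_natCast, Complex.div_ofReal_im,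
              Complex.im_mul_ofReal]
          rw [h5]
          rcases Nat.eq_zero_or_pos j with hj | hj
          · subst hj; simp
          · obtain ⟨m, rfl⟩ : ∃ m, j = m + 1 := ⟨j - 1, by omega⟩
            rw [Nat.add_sub_cancel]
            ring
        exact (mul_eq_zero.1 h4).resolve_left (hYne _).ne'
      have hlim2 : Tendsto (fun k => ∑ j ∈ range (M.n + 1),
          (Complex.I ^ j).im / (j.factorial : ℝ) *
          ‖Y (φ k)‖ ^ (j - 1) * (M.E ((M.dir (d (φ k)) ^ j)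
          (ex (-(M.TT κ (τ (φ k)))) (c1 (φ k)))) 0).re) atTop
          (𝓝 (∑ j ∈ range (M.n + 1), (Complex.I ^ j).im / (j.factorial : ℝ) *
          (0 : ℝ) ^ (j - 1) * (M.E ((M.dir d0 ^ j) G) 0).re)) :=
        tendsto_finsetSum _ fun j _ => (tendsto_const_nhds.mul (hy.pow (j - 1))).mul (ha j)
      have h1 : ∑ j ∈ range (M.n + 1), (Complex.I ^ j).im / (j.factorial : ℝ) *
          (0 : ℝ) ^ (j - 1) * (M.E ((M.dir d0 ^ j) G) 0).re = 0 := by
        refine tendsto_nhds_unique hlim2 ?_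
        refine tendsto_const_nhds.congr fun k => ?_
        exact (hsum k).symm
      rw [Finset.sum_eq_single 1] at h1
      · rw [M.E_re0]
        simp at h1
        rw [h1]
        simp
      · intro j _ hj
        rcases Nat.eq_zero_or_pos j with hj0 | hj0
        · subst hj0; simp
        · have : j - 1 ≠ 0 := by omega
          rw [zero_pow this]; ring
      · intro h
        exact absurd (Finset.mem_range.2 (by have := M.hn; omega)) h
  · rcases M.boundary β hGst hYB with h | h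
    · obtain ⟨t, ht⟩ := hline Y0 hYB hY0
      exact ht (h t)
    · apply h Complex.I (by simp)
      rw [← cv_eq]
      exact hGY

end Model

end Run7.h951.Hyp
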