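import Pool.Agent.Run7.h951.Hyp.Uni
import Pool.Agent.Run7.h951.Hyp.Ex

/-!
# Finite-dimensional models of spaces of real polynomials, and stability with respect to a cone
-/

set_option autoImplicit false
set_option linter.unusedSectionVars false
set_option linter.style.haveILetI false

namespace Run7.h951.Hyp

open Filter Topology Finset

variable {ι : Type} [Fintype ι]

/-- a real vector as a complex vector -/
noncomputable def cx (w : ι → ℝ) : ι → ℂ := fun a => (w a : ℂ)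

/-- the imaginary part -/
def imv (z : ι → ℂ) : ι → ℝ := fun a => (z a).im

/-- the tube over `K` -/
def tube (K : Set (ι → ℝ)) : Set (ι → ℂ) := {z | imv z ∈ K}

/-- no zeros in the tube -/
def St (K : Set (ι → ℝ)) (F : (ι → ℂ) → ℂ) : Prop := ∀ z, imv z ∈ K → F z ≠ 0

/-- a finite-dimensional space of real polynomials in the variables `ι`, with derivations and
dilations -/
structure Model (ι U : Type) [Fintype ι] [NormedAddCommGroup U] [NormedSpace ℝ U] where
  n : ℕ
  hn : 2 ≤ n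
  E : U → (ι → ℂ) → ℂ
  add : ∀ c c' z, E (c + c') z = E c z + E c' z
  smul : ∀ (r : ℝ) c z, E (r • c) z = (r : ℂ) * E c z
  cont : Continuous fun p : U × (ι → ℂ) => E p.1 p.2
  inj : ∀ c, (∀ z, E c z = 0) → c = 0
  conj : ∀ c z, E c (fun a => (starRingEnd ℂ) (z a)) = (starRingEnd ℂ) (E c z)
  D : ι → (U →L[ℝ] U)
  comm : ∀ a b, Commute (D a) (D b)
  line : ∀ c, LineP n (E c)
  taylor : ∀ (c : U) (z : ι → ℂ) (w : ι → ℝ) (t : ℂ), E c (z + t • cx w) =
    ∑ j ∈ range (n + 1), (t ^ j / (j.factorial : ℂ)) * E (((∑ a, w a • D a) ^ j) c) z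
  S : ℝ → (U →L[ℝ] U)
  dil : ∀ (r : ℝ) (c : U) (z : ι → ℂ), E (S r c) z = E c ((r : ℂ) • z)
  semi : ∀ (r : ℝ) (a : ι), D a * S r = r • (S r * D a)

namespace Model

variable {U : Type} [NormedAddCommGroup U] [NormedSpace ℝ U] (M : Model ι U)

theorem E_zero (z : ι → ℂ) : M.E 0 z = 0 := by
  have := M.smul 0 0 z
  simpa using this

theorem ne_zero_of_ne {c : U} {z : ι → ℂ} (h : M.E c z ≠ 0) : c ≠ 0 := by
  rintro rfl
  exact h (M.E_zero z)

theorem E_sum {κ : Type} (s : Finset κ) (f : κ → U) (z : ι → ℂ) :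
    M.E (∑ k ∈ s, f k) z = ∑ k ∈ s, M.E (f k) z := by
  classical
  induction s using Finset.induction_on with
  | empty => simp [M.E_zero]
  | insert a s ha ih => rw [Finset.sum_insert ha, Finset.sum_insert ha, M.add, ih]

/-- the directional derivative -/
noncomputable def dir (w : ι → ℝ) : U →L[ℝ] U := ∑ a, w a • M.D a

theorem dir_commute (v w : ι → ℝ) : Commute (M.dir v) (M.dir w) := by
  unfold dir
  refine Commute.sum_left _ _ _ fun a _ => Commute.sum_right _ _ _ fun b _ => ?_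
  exact ((M.comm a b).smul_left _).smul_right _

theorem dir_semi (w : ι → ℝ) (r : ℝ) : M.dir w * M.S r = r • (M.S r * M.dir w) := by
  unfold dir
  rw [Finset.sum_mul, Finset.mul_sum, Finset.smul_sum]
  refine Finset.sum_congr rfl fun a _ => ?_
  rw [smul_mul_assoc, M.semi, mul_smul_comm, smul_smul, smul_smul, mul_comm]

theorem dir_add (v w : ι → ℝ) : M.dir (v + w) = M.dir v + M.dir w := by
  unfold dir
  rw [← Finset.sum_add_distrib]
  exact Finset.sum_congr rfl fun a _ => by rw [Pi.add_apply, add_smul]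

theorem dir_smul (r : ℝ) (w : ι → ℝ) : M.dir (r • w) = r • M.dir w := by
  unfold dir
  rw [Finset.smul_sum]
  exact Finset.sum_congr rfl fun a _ => by rw [Pi.smul_apply, smul_eq_mul, mul_smul]

theorem taylor' (c : U) (z : ι → ℂ) (w : ι → ℝ) (t : ℂ) : M.E c (z + t • cx w) =
    ∑ j ∈ range (M.n + 1), (t ^ j / (j.factorial : ℂ)) * M.E ((M.dir w ^ j) c) z :=
  M.taylor c z w t

/-- the Taylor polynomial -/
noncomputable def tay (c : U) (z : ι → ℂ) (w : ι → ℝ) : Polynomial ℂ :=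
  ∑ j ∈ range (M.n + 1), Polynomial.C (M.E ((M.dir w ^ j) c) z / (j.factorial : ℂ)) *
    Polynomial.X ^ j

theorem tay_eval (c : U) (z : ι → ℂ) (w : ι → ℝ) (t : ℂ) :
    (M.tay c z w).eval t = M.E c (z + t • cx w) := by
  rw [M.taylor', tay, Polynomial.eval_finsetSum]
  refine Finset.sum_congr rfl fun j _ => ?_
  rw [Polynomial.eval_mul, Polynomial.eval_C, Polynomial.eval_pow, Polynomial.eval_X]
  ring

theorem tay_natDegree (c : U) (z : ι → ℂ) (w : ι → ℝ) : (M.tay c z w).natDegree ≤ M.n := by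
  refine Polynomial.natDegree_sum_le_of_forall_le _ _ fun j hj => ?_
  refine (Polynomial.natDegree_C_mul_X_pow_le _ _).trans ?_
  have := Finset.mem_range.1 hj
  omega

theorem tay_coeff (c : U) (z : ι → ℂ) (w : ι → ℝ) {j : ℕ} (hj : j ≤ M.n) :
    (M.tay c z w).coeff j = M.E ((M.dir w ^ j) c) z / (j.factorial : ℂ) := by
  rw [tay, Polynomial.finsetSum_coeff]
  simp only [Polynomial.coeff_C_mul, Polynomial.coeff_X_pow]
  rw [Finset.sum_eq_single j]
  · simp
  · intro b _ hb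
    rw [if_neg (Ne.symm hb), mul_zero]
  · intro h
    exact absurd (Finset.mem_range.2 (by omega)) h

theorem tay_derivative (c : U) (z : ι → ℂ) (w : ι → ℝ) :
    (M.tay c z w).derivative.eval 0 = M.E (M.dir w c) z := by
  rw [← Polynomial.coeff_zero_eq_eval_zero, Polynomial.coeff_derivative,
    M.tay_coeff c z w (j := 0 + 1) (by have := M.hn; omega)]
  simp

/-- real translations -/
noncomputable def Tr (x : ι → ℝ) : U →L[ℝ] U :=
  ∑ j ∈ range (M.n + 1), ((j.factorial : ℝ)⁻¹) • (M.dir x) ^ j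

theorem E_Tr (x : ι → ℝ) (c : U) (z : ι → ℂ) : M.E (M.Tr x c) z = M.E c (z + cx x) := by
  have := M.taylor' c z x 1
  rw [one_smul] at this
  rw [this, Tr, _root_.sum_apply, M.E_sum]
  refine Finset.sum_congr rfl fun j _ => ?_
  rw [smul_apply, M.smul]
  push_cast
  ring

theorem Tr_commute (x w : ι → ℝ) : Commute (M.Tr x) (M.dir w) := by
  unfold Tr
  refine Commute.sum_left _ _ _ fun j _ => ?_
  exact ((M.dir_commute x w).pow_left j).smul_left _

/-- continuity of the values -/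
theorem tendsto_E {κ : Type} {l : Filter κ} {c : κ → U} {c0 : U} {z : κ → ι → ℂ} {z0 : ι → ℂ}
    (hc : Tendsto c l (𝓝 c0)) (hz : Tendsto z l (𝓝 z0)) :
    Tendsto (fun k => M.E (c k) (z k)) l (𝓝 (M.E c0 z0)) :=
  (M.cont.tendsto (c0, z0)).comp (hc.prodMk_nhds hz)

theorem tendsto_E_const {κ : Type} {l : Filter κ} {c : κ → U} {c0 : U}
    (hc : Tendsto c l (𝓝 c0)) (z : ι → ℂ) :
    Tendsto (fun k => M.E (c k) z) l (𝓝 (M.E c0 z)) :=
  M.tendsto_E hc tendsto_const_nhds

theorem ne_zero_of_St {K : Set (ι → ℝ)} (hK : K.Nonempty) {c : U} (h : St K (M.E c)) : c ≠ 0 := by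
  obtain ⟨y, hy⟩ := hK
  refine M.ne_zero_of_ne (z := fun a => (y a : ℂ) * Complex.I) (h _ ?_)
  have : imv (fun a => (y a : ℂ) * Complex.I) = y := by
    funext a; simp [imv]
  rwa [this]

end Model

theorem isOpen_tube {K : Set (ι → ℝ)} (hK : IsOpen K) : IsOpen (tube K) := by
  have : Continuous (imv : (ι → ℂ) → (ι → ℝ)) := by
    unfold imv
    fun_prop
  exact hK.preimage this

/-- limits of functions without zeros in the tube -/
theorem St.lim {κ : Type} {l : Filter κ} [l.NeBot] {n : ℕ} {K : Set (ι → ℝ)} (hK : IsOpen K)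
    {F : κ → (ι → ℂ) → ℂ} {G : (ι → ℂ) → ℂ} (hn : ∀ k, LineP n (F k))
    (hlim : ∀ z, Tendsto (fun k => F k z) l (𝓝 (G z))) (h : ∀ᶠ k in l, St K (F k))
    (h0 : ∃ w, G w ≠ 0) : St K G := by
  intro z hz hz0
  obtain ⟨w, hw⟩ := h0
  exact hw (hurwitz hn hlim (isOpen_tube hK) (by
    filter_upwards [h] with k hk z hz using hk z hz) (show z ∈ tube K from hz) hz0 w)

namespace Model

variable {U : Type} [NormedAddCommGroup U] [NormedSpace ℝ U] (M : Model ι U)

theorem St_lim {κ : Type} {l : Filter κ} [l.NeBot] {K : Set (ι → ℝ)} (hK : IsOpen K)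
    {c : κ → U} {c0 : U} (hc : Tendsto c l (𝓝 c0)) (h : ∀ᶠ k in l, St K (M.E (c k)))
    (h0 : c0 ≠ 0) : St K (M.E c0) := by
  refine St.lim hK (fun k => M.line (c k)) (fun z => M.tendsto_E_const hc z) h ?_
  by_contra hcon
  push Not at hcon
  exact h0 (M.inj c0 hcon)

theorem St_smul {K : Set (ι → ℝ)} {c : U} (h : St K (M.E c)) {r : ℝ} (hr : r ≠ 0) :
    St K (M.E (r • c)) := by
  intro z hz
  rw [M.smul]
  exact mul_ne_zero (Complex.ofReal_ne_zero.2 hr) (h z hz)

theorem St_Tr {K : Set (ι → ℝ)} {c : U} (h : St K (M.E c)) (x : ι → ℝ) :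
    St K (M.E (M.Tr x c)) := by
  intro z hz
  rw [M.E_Tr]
  apply h
  have : imv (z + cx x) = imv z := by
    funext a; simp [imv, cx]
  rwa [this]

theorem St_S {K : Set (ι → ℝ)} {c : U} (h : St K (M.E c)) {r : ℝ}
    (hK : ∀ y ∈ K, r • y ∈ K) : St K (M.E (M.S r c)) := by
  intro z hz
  rw [M.dil]
  apply h
  have : imv ((r : ℂ) • z) = r • imv z := by
    funext a; simp [imv]
  rw [this]
  exact hK _ hz

/-- `c + κ D_d c` -/
theorem St_add_dir {K : Set (ι → ℝ)} {c : U} (h : St K (M.E c)) {d : ι → ℝ}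
    (hd : ∀ y ∈ K, ∀ s : ℝ, 0 ≤ s → y + s • d ∈ K) (κ : ℝ) :
    St K (M.E (c + κ • M.dir d c)) := by
  intro z hz
  rw [M.add, M.smul, ← M.tay_derivative c z d]
  have h1 : M.E c z = (M.tay c z d).eval 0 := by
    rw [M.tay_eval, zero_smul, add_zero]
  rw [h1]
  refine eval_add_derivative (fun t ht => ?_) κ
  rw [M.tay_eval]
  apply h
  have : imv (z + t • cx d) = imv z + t.im • d := by
    funext a; simp [imv, cx]
  rw [this]
  exact hd _ hz _ ht

/-- the derivative in a direction of the closed cone -/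
theorem St_dir {K : Set (ι → ℝ)} (hK : IsOpen K) {c : U} (h : St K (M.E c)) {d : ι → ℝ}
    (hd : ∀ y ∈ K, ∀ s : ℝ, 0 ≤ s → y + s • d ∈ K) (h0 : M.dir d c ≠ 0) :
    St K (M.E (M.dir d c)) := by
  have h1 : Tendsto (fun k : ℕ => (1 / ((k : ℝ) + 1)) • c + M.dir d c) atTop
      (𝓝 (M.dir d c)) := by
    have := ((tendsto_one_div_add_atTop_nhds_zero_nat (𝕜 := ℝ)).smul_const c).add_const
      (M.dir d c)
    simpa using this
  refine M.St_lim hK h1 (Eventually.of_forall fun k => ?_) h0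
  have h2 : (0 : ℝ) < 1 / ((k : ℝ) + 1) := by positivity
  have h3 := M.St_smul (M.St_add_dir h hd ((k : ℝ) + 1)) h2.ne'
  rw [smul_add, smul_smul] at h3
  have h4 : 1 / ((k : ℝ) + 1) * ((k : ℝ) + 1) = 1 := by
    have : (k : ℝ) + 1 ≠ 0 := by positivity
    field_simp
  rwa [h4, one_smul] at h3

theorem St_dir_pow {K : Set (ι → ℝ)} (hK : IsOpen K) {c : U} (h : St K (M.E c)) {d : ι → ℝ}
    (hd : ∀ y ∈ K, ∀ s : ℝ, 0 ≤ s → y + s • d ∈ K) (j : ℕ) (h0 : (M.dir d ^ j) c ≠ 0) :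
    St K (M.E ((M.dir d ^ j) c)) := by
  induction j with
  | zero => simpa using h
  | succ j ih =>
    have h1 : (M.dir d ^ (j + 1)) c = M.dir d ((M.dir d ^ j) c) := by
      rw [pow_succ']; rfl
    rw [h1] at h0 ⊢
    refine M.St_dir hK (ih ?_) hd h0
    intro h2
    rw [h2, map_zero] at h0
    exact h0 rfl

variable [CompleteSpace U]

theorem ex_inj {T : U →L[ℝ] U} {c : U} (h : c ≠ 0) : ex T c ≠ 0 := by
  intro h1
  apply h
  have h2 : (ex (-T) * ex T) c = c := by rw [ex_neg_mul]; rfl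
  rw [← h2, mul_apply_eq_comp, h1, map_zero]

/-- the heat operator `exp(-s D_d²)` -/
theorem St_ex_sq {K : Set (ι → ℝ)} (hK : IsOpen K) {c : U} (h : St K (M.E c)) {d : ι → ℝ}
    (hd : ∀ y ∈ K, ∀ s : ℝ, 0 ≤ s → y + s • d ∈ K) (hne : c ≠ 0) {s : ℝ} (hs : 0 ≤ s) :
    St K (M.E (ex (-(s • M.dir d ^ 2)) c)) := by
  set B : ℕ → (U →L[ℝ] U) := fun k => 1 + ((k : ℝ) + 1)⁻¹ • (-(s • M.dir d ^ 2)) with hB
  have h1 : Tendsto (fun k : ℕ => B k ^ (k + 1)) atTop (𝓝 (ex (-(s • M.dir d ^ 2)))) :=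
    ex_lim (A := U →L[ℝ] U) ContinuousLinearMap.norm_id_le (-(s • M.dir d ^ 2))
  have h2 : Tendsto (fun k : ℕ => (B k ^ (k + 1)) c) atTop
      (𝓝 (ex (-(s • M.dir d ^ 2)) c)) :=
    ((ContinuousLinearMap.apply ℝ U c).continuous.tendsto _).comp h1
  refine M.St_lim hK h2 (Eventually.of_forall fun k => ?_) (ex_inj hne)
  have h3 : ∀ (m : ℕ), St K (M.E ((B k ^ m) c)) := by
    intro m
    induction m with
    | zero => simpa using h
    | succ m ih =>
      set q : ℝ := Real.sqrt (((k : ℝ) + 1)⁻¹ * s) with hq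
      have hq2 : q * q = ((k : ℝ) + 1)⁻¹ * s := Real.mul_self_sqrt (by positivity)
      have h4 := M.St_add_dir (M.St_add_dir ih hd q) hd (-q)
      have h5 : (B k ^ (m + 1)) c = ((B k ^ m) c + q • (M.dir d) ((B k ^ m) c)) +
          (-q) • (M.dir d) ((B k ^ m) c + q • (M.dir d) ((B k ^ m) c)) := by
        rw [pow_succ', mul_apply_eq_comp]
        set v := (B k ^ m) c
        simp only [hB]
        rw [add_apply, one_apply_eq_self, smul_apply,
          neg_apply, smul_apply, sq, mul_apply_eq_comp, map_add, map_smul,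
          smul_add, smul_smul, smul_neg, smul_smul, ← hq2, neg_mul, neg_smul, neg_smul]
        abel
      rw [h5]
      exact h4
  exact h3 _

end Model

end Run7.h951.Hyp
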