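import Pool.Agent.Run7.h951.Hyp.Hom
import Pool.Agent.Y489.SM.Md

/-!
# Derivatives of determinants of linear pencils
-/

set_option autoImplicit false
set_option linter.unusedSectionVars false

namespace Run7.h951.Hyp

open MvPolynomial Finset

section pol

variable {K : Type} [Fintype K] [DecidableEq K]

/-- put an element in front of a sequence -/
def cs {N : ℕ} (k : K) (β : Fin N → K) : Fin (N + 1) → K := Fin.cons k β

/-- symmetric functions of a sequence -/
def Sy' : (N : ℕ) → ((Fin N → K) → ℝ) → Prop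
  | 0, _ => True
  | 1, _ => True
  | (N + 2), c => (∀ k l β, c (cs k (cs l β)) = c (cs l (cs k β))) ∧
      ∀ k, Sy' (N + 1) (fun β => c (cs k β))

/-- the polynomial `∑ c(β) ∏ X_{β j}` -/
noncomputable def Pol : (N : ℕ) → ((Fin N → K) → ℝ) → MvPolynomial K ℝ
  | 0, c => C (c Fin.elim0)
  | (N + 1), c => ∑ k, X k * Pol N (fun β => c (cs k β))

theorem pderiv_Pol (a : K) : ∀ (N : ℕ) (c : (Fin (N + 1) → K) → ℝ), Sy' (N + 1) c →
    pderiv a (Pol (N + 1) c) = C ((N : ℝ) + 1) * Pol N (fun β => c (cs a β)) := by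
  intro N
  induction N with
  | zero =>
    intro c _
    simp only [Pol, map_sum, pderiv_mul, pderiv_C, mul_zero, add_zero]
    rw [Finset.sum_eq_single a]
    · rw [pderiv_X_self]; simp
    · intro b _ hb
      rw [pderiv_X_of_ne hb, zero_mul]
    · intro h; exact absurd (Finset.mem_univ _) h
  | succ N ih =>
    intro c hc
    obtain ⟨h1, h2⟩ := hc
    rw [Pol]
    simp only [map_sum, pderiv_mul, Finset.sum_add_distrib]
    have e1 : ∑ k, pderiv a (X k : MvPolynomial K ℝ) * Pol (N + 1) (fun β => c (cs k β)) =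
        Pol (N + 1) (fun β => c (cs a β)) := by
      rw [Finset.sum_eq_single a]
      · rw [pderiv_X_self, one_mul]
      · intro b _ hb
        rw [pderiv_X_of_ne hb, zero_mul]
      · intro h; exact absurd (Finset.mem_univ _) h
    have e2 : ∑ k, (X k : MvPolynomial K ℝ) * pderiv a (Pol (N + 1) (fun β => c (cs k β))) =
        C ((N : ℝ) + 1) * Pol (N + 1) (fun β => c (cs a β)) := by
      rw [Pol, Finset.mul_sum]
      refine Finset.sum_congr rfl fun k _ => ?_
      rw [ih _ (h2 k)]
      have e3 : (fun β => c (cs k (cs a β))) = fun β => c (cs a (cs k β)) :=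
        funext fun β => h1 k a β
      rw [e3]
      ring
    rw [e1, e2]
    push_cast
    rw [C_add, C_add, C_add, C_1]
    ring

/-- the second order operator -/
noncomputable def T0 (w : K → ℝ) : MvPolynomial K ℝ →ₗ[ℝ] MvPolynomial K ℝ :=
  ∑ k, w k • ((pderiv k).toLinearMap ∘ₗ (pderiv k).toLinearMap)

theorem T0_apply (w : K → ℝ) (p : MvPolynomial K ℝ) :
    T0 w p = ∑ k, w k • pderiv k (pderiv k p) := by
  simp [T0]

theorem T0_Pol (w : K → ℝ) (N : ℕ) (c : (Fin (N + 2) → K) → ℝ) (hc : Sy' (N + 2) c) :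
    T0 w (Pol (N + 2) c) = (((N : ℝ) + 2) * ((N : ℝ) + 1)) •
      ∑ k, w k • Pol N (fun β => c (cs k (cs k β))) := by
  rw [T0_apply, Finset.smul_sum]
  refine Finset.sum_congr rfl fun k _ => ?_
  rw [pderiv_Pol k (N + 1) c hc, pderiv_C_mul, pderiv_Pol k N _ (hc.2 k), smul_smul, ← mul_assoc,
    ← C_mul, ← smul_eq_C_mul, smul_smul]
  congr 1
  push_cast
  ring

/-- the iterated sum -/
noncomputable def SS (w : K → ℝ) : (m : ℕ) → ((Fin (2 * m) → K) → ℝ) → ℝ
  | 0, c => c Fin.elim0
  | (m + 1), c => ∑ k, w k * SS w m (fun β => c (cs k (cs k β)))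

theorem Sy'_two {N : ℕ} {c : (Fin (N + 2) → K) → ℝ} (hc : Sy' (N + 2) c) (k l : K) :
    Sy' N (fun β => c (cs k (cs l β))) := by
  have h := hc.2 k
  match N, c, h with
  | 0, _, _ => exact trivial
  | (N + 1), _, h => exact h.2 l

theorem T0_iter (w : K → ℝ) : ∀ (m : ℕ) (c : (Fin (2 * m) → K) → ℝ), Sy' (2 * m) c →
    (T0 w ^ m) (Pol (2 * m) c) = C (((2 * m).factorial : ℝ) * SS w m c) := by
  intro m
  induction m with
  | zero => intro c _; simp [Pol, SS]
  | succ m ih =>
    intro c hc
    have hc' : Sy' (2 * m + 2) c := hc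
    have h1 : (T0 w ^ (m + 1)) (Pol (2 * (m + 1)) c) = (T0 w ^ m) (T0 w (Pol (2 * m + 2) c)) := by
      rw [pow_succ, Module.End.mul_apply]
      rfl
    rw [h1, T0_Pol w (2 * m) c hc', map_smul, map_sum]
    have h2 : ∀ k, (T0 w ^ m) (w k • Pol (2 * m) (fun β => c (cs k (cs k β)))) =
        w k • C (((2 * m).factorial : ℝ) * SS w m (fun β => c (cs k (cs k β)))) := by
      intro k
      rw [map_smul, ih _ (Sy'_two hc' k k)]
    simp only [h2]
    have h3 : SS w (m + 1) c = ∑ k, w k * SS w m (fun β => c (cs k (cs k β))) := rfl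
    have h4 : ((2 * (m + 1)).factorial : ℝ) = ((2 * m : ℕ) + 2 : ℝ) * ((2 * m : ℕ) + 1) *
        ((2 * m).factorial : ℝ) := by
      rw [show 2 * (m + 1) = (2 * m + 1) + 1 by ring, Nat.factorial_succ, Nat.factorial_succ]
      push_cast
      ring
    rw [h3, h4]
    simp only [smul_eq_C_mul, ← C_mul, ← map_sum]
    congr 1
    simp only [Finset.mul_sum]
    refine Finset.sum_congr rfl fun k _ => ?_
    ring

theorem Pol_eq : ∀ (N : ℕ) (c : (Fin N → K) → ℝ),
    Pol N c = ∑ β : Fin N → K, C (c β) * ∏ j, X (β j) := by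
  intro N
  induction N with
  | zero =>
    intro c
    rw [Pol, Fintype.sum_unique]
    simp only [Finset.univ_eq_empty, Finset.prod_empty, mul_one]
    congr 2
  | succ N ih =>
    intro c
    rw [Pol, ← (Fin.consEquiv (fun _ : Fin (N + 1) => K)).sum_comp, Fintype.sum_prod_type]
    refine Finset.sum_congr rfl fun k _ => ?_
    rw [ih, Finset.mul_sum]
    refine Finset.sum_congr rfl fun β _ => ?_
    rw [Fin.prod_univ_succ]
    have h1 : (Fin.consEquiv (fun _ : Fin (N + 1) => K)) (k, β) = cs k β := rfl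
    rw [h1]
    have h2 : (cs k β) 0 = k := rfl
    have h3 : ∀ j : Fin N, (cs k β) j.succ = β j := fun _ => rfl
    rw [h2]
    simp only [h3]
    ring

/-- every entry twice -/
def dup {m : ℕ} (α : Fin m → K) (i : Fin (2 * m)) : K := α ⟨i.val / 2, by omega⟩

theorem dup_cons {m : ℕ} (k : K) (α : Fin m → K) : dup (cs k α) = cs k (cs k (dup α)) := by
  funext i
  obtain ⟨i, hi⟩ := i
  match i, hi with
  | 0, hi =>
    have h3 : (⟨0 / 2, by omega⟩ : Fin (m + 1)) = 0 := by ext; simp
    unfold dup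
    rw [h3]
    rfl
  | 1, hi =>
    have h3 : (⟨1 / 2, by omega⟩ : Fin (m + 1)) = 0 := by ext; simp
    unfold dup
    rw [h3]
    rfl
  | (i + 2), hi =>
    have h1 : (cs k (cs k (dup α)) : Fin (2 * m + 2) → K) ⟨i + 2, hi⟩ =
      dup α ⟨i, by omega⟩ := rfl
    have h2 : (cs k (cs k (dup α)) : Fin (2 * (m + 1)) → K) ⟨i + 2, hi⟩ =
      dup α ⟨i, by omega⟩ := h1
    rw [h2]
    unfold dup
    have h3 : (⟨(i + 2) / 2, by omega⟩ : Fin (m + 1)) = (⟨i / 2, by omega⟩ : Fin m).succ := by
      ext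
      simp
    rw [h3]
    rfl

theorem SS_eq (w : K → ℝ) : ∀ (m : ℕ) (c : (Fin (2 * m) → K) → ℝ),
    SS w m c = ∑ α : Fin m → K, (∏ b, w (α b)) * c (dup α) := by
  intro m
  induction m with
  | zero =>
    intro c
    rw [SS, Fintype.sum_unique]
    simp only [Finset.univ_eq_empty, Finset.prod_empty, one_mul]
    congr 1
  | succ m ih =>
    intro c
    rw [SS, ← (Fin.consEquiv (fun _ : Fin (m + 1) => K)).sum_comp, Fintype.sum_prod_type]
    refine Finset.sum_congr rfl fun k _ => ?_
    rw [ih, Finset.mul_sum]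
    refine Finset.sum_congr rfl fun β _ => ?_
    rw [Fin.prod_univ_succ]
    have h1 : (Fin.consEquiv (fun _ : Fin (m + 1) => K)) (k, β) = cs k β := rfl
    rw [h1, dup_cons]
    have h2 : (cs k β) 0 = k := rfl
    have h3 : ∀ j : Fin m, (cs k β) j.succ = β j := fun _ => rfl
    rw [h2]
    simp only [h3]
    ring

/-- symmetric functions -/
theorem Sy'_of_perm : ∀ (N : ℕ) (c : (Fin N → K) → ℝ),
    (∀ (π : Equiv.Perm (Fin N)) β, c (fun i => β (π i)) = c β) → Sy' N c := by
  intro N
  induction N with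
  | zero => intro c _; exact trivial
  | succ N ih =>
    intro c hc
    match N, c, hc, ih with
    | 0, _, _, _ => exact trivial
    | (N + 1), c, hc, ih =>
      refine ⟨fun k l β => ?_, fun k => ih _ fun π β => ?_⟩
      · rw [← hc (Equiv.swap 0 1) (cs l (cs k β))]
        congr 1
        funext i
        refine Fin.cases ?_ (fun i => ?_) i
        · rw [Equiv.swap_apply_left]; rfl
        · refine Fin.cases ?_ (fun i => ?_) i
          · rw [show (Fin.succ 0 : Fin (N + 2)) = 1 from rfl, Equiv.swap_apply_right]; rfl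
          · rw [Equiv.swap_apply_of_ne_of_ne (Fin.succ_ne_zero _)]
            · rfl
            · intro h
              have := congrArg Fin.val h
              simp at this
      · have h1 := hc (Equiv.Perm.decomposeFin.symm (0, π)) (cs k β)
        rw [← h1]
        congr 1
        funext i
        refine Fin.cases ?_ (fun i => ?_) i
        · rw [Equiv.Perm.decomposeFin_symm_apply_zero]; rfl
        · rw [Equiv.Perm.decomposeFin_symm_apply_succ, Equiv.swap_self]; rfl

end pol

section det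

open Pool.Agent.W666.GB (sn sn_mul sn_inv sn_mul_self MD Yf)
open Pool.Agent.Y489.SM (MD_perm Yf_sum)

variable {K : Type} [Fintype K] [DecidableEq K] {m : ℕ}

/-- the determinant of the pencil -/
noncomputable def detP (B : K → Fin m × Bool → Fin m × Bool → ℝ) : MvPolynomial K ℝ :=
  Matrix.det (Matrix.of fun i j => ∑ k, X k * C (B k i j))

/-- an enumeration of the pairs -/
def epair (m : ℕ) : Fin m × Bool ≃ Fin (2 * m) :=
  ((Equiv.prodCongr (Equiv.refl (Fin m)) finTwoEquiv.symm).trans finProdFinEquiv).trans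
    (finCongr (mul_comm m 2))

theorem dup_epair (α : Fin m → K) (j : Fin m × Bool) : dup α (epair m j) = α j.1 := by
  unfold dup
  congr 1
  ext
  have h1 : (epair m j).val = (finTwoEquiv.symm j.2).val + 2 * j.1.val := rfl
  have h2 := (finTwoEquiv.symm j.2).isLt
  show (epair m j).val / 2 = j.1.val
  omega

theorem sum_sn_det (M : Fin m × Bool → Fin m × Bool → MvPolynomial K ℝ) :
    ∑ σ : Equiv.Perm (Fin m × Bool), ∑ τ : Equiv.Perm (Fin m × Bool),
      C (sn σ * sn τ) * ∏ j, M (σ j) (τ j) = C ((2 * m).factorial : ℝ) * Matrix.det (Matrix.of M) := by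
  have hcard : Fintype.card (Fin m × Bool) = 2 * m := by
    rw [Fintype.card_prod, Fintype.card_fin, Fintype.card_bool, mul_comm]
  have hcast : ∀ σ : Equiv.Perm (Fin m × Bool),
      ((Equiv.Perm.sign σ : ℤ) : MvPolynomial K ℝ) = C (sn σ) := by
    intro σ
    simp [sn]
  have h1 : ∀ σ : Equiv.Perm (Fin m × Bool), ∑ τ : Equiv.Perm (Fin m × Bool),
      C (sn σ * sn τ) * ∏ j, M (σ j) (τ j) = Matrix.det (Matrix.of M) := by
    intro σ
    rw [← Matrix.det_transpose, Matrix.det_apply', ← Equiv.sum_comp (Equiv.mulRight σ)]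
    refine Finset.sum_congr rfl fun τ _ => ?_
    simp only [Equiv.coe_mulRight, sn_mul, Equiv.Perm.mul_apply, Matrix.transpose_apply,
      Matrix.of_apply]
    rw [Equiv.prod_comp σ (fun i => M i (τ i)), hcast]
    have h2 : sn σ * (sn τ * sn σ) = sn τ := by
      have := sn_mul_self σ
      linear_combination (sn τ) * this
    rw [h2]
  rw [Finset.sum_congr rfl fun σ _ => h1 σ, Finset.sum_const, Finset.card_univ,
    Fintype.card_perm, nsmul_eq_mul, hcard]
  simp

theorem det_sum (B : K → Fin m × Bool → Fin m × Bool → ℝ) :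
    C ((2 * m).factorial : ℝ) * detP B =
      ∑ β : Fin m × Bool → K, C (MD (fun j => B (β j))) * ∏ j, X (β j) := by
  rw [detP, ← sum_sn_det]
  have h3 : ∀ σ τ : Equiv.Perm (Fin m × Bool), (C (sn σ * sn τ) : MvPolynomial K ℝ) *
      ∏ j, ∑ k, X k * C (B k (σ j) (τ j)) =
      ∑ β : Fin m × Bool → K, C (sn σ * sn τ * ∏ j, B (β j) (σ j) (τ j)) * ∏ j, X (β j) := by
    intro σ τ
    rw [Fintype.prod_sum, Finset.mul_sum]
    refine Finset.sum_congr rfl fun β _ => ?_
    have h4 : (C (sn σ * sn τ * ∏ j, B (β j) (σ j) (τ j)) : MvPolynomial K ℝ) =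
        C (sn σ * sn τ) * ∏ j, C (B (β j) (σ j) (τ j)) := by
      rw [C_mul (a := sn σ * sn τ), map_prod]
    rw [Finset.prod_mul_distrib, h4]
    ring
  simp only [h3]
  rw [Finset.sum_congr rfl fun σ _ => Finset.sum_comm, Finset.sum_comm]
  refine Finset.sum_congr rfl fun β _ => ?_
  simp only [← Finset.sum_mul]
  congr 1
  simp only [MD, map_sum]

theorem T0_det (w : K → ℝ) (B : K → Fin m × Bool → Fin m × Bool → ℝ) :
    (T0 w ^ m) (detP B) = C (Yf (fun a b c d => ∑ k, w k * (B k a b * B k c d))) := by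
  set c : (Fin (2 * m) → K) → ℝ := fun β => MD (fun j => B (β (epair m j))) with hc
  have h1 : C ((2 * m).factorial : ℝ) * detP B = Pol (2 * m) c := by
    rw [det_sum, Pol_eq, ← (Equiv.arrowCongr (epair m) (Equiv.refl K)).sum_comp]
    refine Finset.sum_congr rfl fun β _ => ?_
    congr 1
    · simp only [hc]
      congr 2
      funext j
      simp [Equiv.arrowCongr]
    · rw [← (epair m).prod_comp]
      refine Finset.prod_congr rfl fun j _ => ?_
      simp [Equiv.arrowCongr]
  have hsy : Sy' (2 * m) c := by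
    refine Sy'_of_perm _ _ fun π β => ?_
    simp only [hc]
    have h2 := MD_perm (fun j => B (β (epair m j)))
      (((epair m).trans π).trans (epair m).symm)
    rw [← h2]
    congr 1
    funext j
    simp
  have h2 := T0_iter w m c hsy
  rw [← h1, ← smul_eq_C_mul, map_smul, smul_eq_C_mul, C_mul, SS_eq] at h2
  have h3 : (C ((2 * m).factorial : ℝ) : MvPolynomial K ℝ) ≠ 0 := by
    rw [Ne, C_eq_zero]
    positivity
  rw [mul_left_cancel₀ h3 h2, Yf_sum]
  congr 1
  refine Finset.sum_congr rfl fun α _ => ?_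
  simp only [hc, dup_epair]

theorem detP_hom (B : K → Fin m × Bool → Fin m × Bool → ℝ) : (detP B).IsHomogeneous (2 * m) := by
  have hcard : Fintype.card (Fin m × Bool) = 2 * m := by
    rw [Fintype.card_prod, Fintype.card_fin, Fintype.card_bool, mul_comm]
  rw [detP, Matrix.det_apply']
  refine IsHomogeneous.sum _ _ _ fun σ _ => ?_
  have h1 : (((Equiv.Perm.sign σ : ℤ) : MvPolynomial K ℝ)) = C ((Equiv.Perm.sign σ : ℤ) : ℝ) := by
    simp
  rw [h1]
  refine IsHomogeneous.C_mul ?_ _
  have h2 := IsHomogeneous.prod (univ : Finset (Fin m × Bool))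
    (fun j => (Matrix.of fun i j => ∑ k, (X k : MvPolynomial K ℝ) * C (B k i j)) (σ j) j)
    (fun _ => 1) (fun j _ => by
      simp only [Matrix.of_apply]
      refine IsHomogeneous.sum _ _ _ fun k _ => ?_
      rw [mul_comm]
      exact (isHomogeneous_X _ _).C_mul _)
  rw [Finset.sum_const, Finset.card_univ, hcard, smul_eq_mul, mul_one] at h2
  exact h2

end det

end Run7.h951.Hyp
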