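import Pool.Agent.Run7.h951.Hyp.Geo

/-!
# Curvature operators of the second kind
-/

set_option autoImplicit false
set_option linter.unusedSectionVars false

namespace Run7.h951.Hyp

open Finset Pool.Agent.W666.GB Pool.Agent.W669.HD Pool.Agent.Y519.HB
open Pool.Agent.N565.LZ (CausalOn)

section matrices

variable {n : Type} [Fintype n] [DecidableEq n]

/-- the bilinear form of a matrix -/
def bf (M : n → n → ℝ) (x y : n → ℝ) : ℝ := ∑ i, ∑ j, M i j * (x i * y j)

theorem qf_lin (M : n → n → ℝ) (hM : ∀ i j, M i j = M j i) (s t : ℝ) (x y : n → ℝ) :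
    qf M (s • x + t • y) = s ^ 2 * qf M x + 2 * s * t * bf M x y + t ^ 2 * qf M y := by
  have h1 : bf M x y = bf M y x := by
    unfold bf
    rw [Finset.sum_comm]
    refine Finset.sum_congr rfl fun i _ => Finset.sum_congr rfl fun j _ => ?_
    rw [hM j i]
    ring
  have h2 : qf M (s • x + t • y) =
      s ^ 2 * qf M x + s * t * bf M x y + s * t * bf M y x + t ^ 2 * qf M y := by
    unfold qf bf
    simp only [Finset.mul_sum, ← Finset.sum_add_distrib]
    refine Finset.sum_congr rfl fun i _ => Finset.sum_congr rfl fun j _ => ?_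
    simp only [Pi.add_apply, Pi.smul_apply, smul_eq_mul]
    ring
  rw [h2, ← h1]
  ring

theorem bf_lin (M : n → n → ℝ) (s t : ℝ) (x y z : n → ℝ) :
    bf M (s • x + t • y) z = s * bf M x z + t * bf M y z := by
  unfold bf
  simp only [Finset.mul_sum, ← Finset.sum_add_distrib]
  refine Finset.sum_congr rfl fun i _ => Finset.sum_congr rfl fun j _ => ?_
  simp only [Pi.add_apply, Pi.smul_apply, smul_eq_mul]
  ring

theorem bf_self (M : n → n → ℝ) (x : n → ℝ) : bf M x x = qf M x := rfl

/-- the reverse Cauchy–Schwarz inequality -/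
theorem lorentz (M : n → n → ℝ) (hM : ∀ i j, M i j = M j i) (Sy : Submodule ℝ (n → ℝ))
    (a : n → ℝ) (ha : ∀ v ∈ Sy, ∑ p, a p * v p = 0 → qf M v ≤ 0) {o : n → ℝ} (ho : o ∈ Sy)
    (hs : 0 < qf M o) {v : n → ℝ} (hv : v ∈ Sy) : qf M o * qf M v ≤ bf M v o ^ 2 := by
  set s := qf M o with hs'
  set t := bf M v o with ht
  set w : n → ℝ := s • v + (-t) • o with hw
  have hwS : w ∈ Sy := Sy.add_mem (Sy.smul_mem _ hv) (Sy.smul_mem _ ho)
  have h1 : qf M w = s ^ 2 * qf M v - s * t ^ 2 := by
    rw [hw, qf_lin M hM]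
    rw [← hs', ← ht]
    ring
  have h2 : bf M w o = 0 := by
    rw [hw, bf_lin, bf_self]
    rw [← hs', ← ht]
    ring
  have h3 : qf M w ≤ 0 := by
    by_contra hcon
    push Not at hcon
    set c := ∑ p, a p * w p with hc
    set d := ∑ p, a p * o p with hd
    have h4 : c • o + (-d) • w ∈ Sy := Sy.add_mem (Sy.smul_mem _ ho) (Sy.smul_mem _ hwS)
    have h5 : ∑ p, a p * (c • o + (-d) • w) p = 0 := by
      have : ∑ p, a p * (c • o + (-d) • w) p = c * ∑ p, a p * o p - d * ∑ p, a p * w p := by
        rw [Finset.mul_sum, Finset.mul_sum, ← Finset.sum_sub_distrib]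
        refine Finset.sum_congr rfl fun p _ => ?_
        simp only [Pi.add_apply, Pi.smul_apply, smul_eq_mul]
        ring
      rw [this, ← hc, ← hd]
      ring
    have h6 := ha _ h4 h5
    rw [qf_lin M hM, ← hs'] at h6
    have h7 : bf M o w = 0 := by
      have : bf M o w = bf M w o := by
        unfold bf
        rw [Finset.sum_comm]
        refine Finset.sum_congr rfl fun i _ => Finset.sum_congr rfl fun j _ => ?_
        rw [hM j i]
        ring
      rw [this, h2]
    rw [h7] at h6
    have h8 : c = 0 := by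
      by_contra hc0
      have : 0 < c ^ 2 * s := by positivity
      have : 0 ≤ (-d) ^ 2 * qf M w := by positivity
      linarith
    exact absurd (ha w hwS h8) (not_le.2 hcon)
  rw [h1] at h3
  by_contra hcon
  push Not at hcon
  have : s * t ^ 2 < s * (s * qf M v) := mul_lt_mul_of_pos_left hcon hs
  nlinarith

open scoped MatrixOrder in
/-- a Gram factorisation -/
theorem exists_gram (M : n → n → ℝ) (hM : ∀ i j, M i j = M j i) (h0 : ∀ x, 0 ≤ qf M x) :
    ∃ B : n → n → ℝ, ∀ i j, M i j = ∑ r, B r i * B r j := by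
  have h1 : (Matrix.of M).PosSemidef := by
    refine Matrix.PosSemidef.of_dotProduct_mulVec_nonneg ?_ fun x => ?_
    · ext i j
      simp only [Matrix.conjTranspose_apply, Matrix.of_apply, star_trivial]
      exact hM j i
    · have h2 : star x ⬝ᵥ (Matrix.of M).mulVec x = qf M x := by
        simp only [Matrix.mulVec, dotProduct, Matrix.of_apply, qf, star_trivial,
          Pi.star_apply, Finset.mul_sum]
        refine Finset.sum_congr rfl fun i _ => Finset.sum_congr rfl fun j _ => ?_
        ring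
      rw [h2]
      exact h0 x
  obtain ⟨B, hB⟩ := CStarAlgebra.nonneg_iff_eq_star_mul_self.mp h1.nonneg
  refine ⟨B, fun i j => ?_⟩
  have h3 := congrFun (congrFun hB i) j
  simp only [Matrix.of_apply, Matrix.star_eq_conjTranspose, Matrix.mul_apply,
    Matrix.conjTranspose_apply, star_trivial] at h3
  exact h3

end matrices

section geo

variable {V : Type} [NormedAddCommGroup V] [InnerProductSpace ℝ V] {ι : Type} [Fintype ι]
  [DecidableEq ι] {R : V → V → V → V → ℝ}

/-- the curvature operator of the second kind, as a quadratic form in the symmetric tensor `h`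
(given by its components in the orthonormal basis `e`) -/
noncomputable def second (e : OrthonormalBasis ι ℝ V) (R : V → V → V → V → ℝ) (h : ι → ι → ℝ) : ℝ :=
  ∑ i, ∑ j, ∑ k, ∑ l, R (e i) (e k) (e l) (e j) * (h i j * h k l)

/-- the symmetrised tensor -/
noncomputable def Mf (R : V → V → V → V → ℝ) (x z y w : V) : ℝ := (R x y w z + R z y w x) / 2

theorem Mf_swap (R : V → V → V → V → ℝ) (x z y w : V) : Mf R x z y w = Mf R z x y w := by
  unfold Mf; ring

theorem Mf_pair (hR : AlgCurv R) (x z y w : V) : Mf R x z y w = Mf R y w x z := by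
  unfold Mf
  have h1 := hR.anti x y z w
  have h2 := hR.a34 x y z w
  have h3 := hR.pair z y w x
  linarith

theorem Mf_add (hR : AlgCurv R) (x x' z y w : V) :
    Mf R (x + x') z y w = Mf R x z y w + Mf R x' z y w := by
  unfold Mf
  rw [hR.add, hR.add4]
  ring

theorem Mf_smul (hR : AlgCurv R) (t : ℝ) (x z y w : V) :
    Mf R (t • x) z y w = t * Mf R x z y w := by
  unfold Mf
  rw [hR.smul, hR.smul4]
  ring

theorem Mf_zero (hR : AlgCurv R) (x : V) : Mf R x x x x = 0 := by
  unfold Mf
  rw [hR.self12]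
  ring

theorem Mf_curv (hR : AlgCurv R) (x y z w : V) :
    R x y z w = -(2 / 3) * (Mf R x z y w - Mf R x w y z) := by
  unfold Mf
  have h1 := hR.a34 x y z w
  have h2 := hR.bianchi x y z w
  have h3 := hR.pair w x z y
  have h4 := hR.anti y z x w
  have h5 := hR.pair y z x w
  have h6 := hR.anti x w y z
  have h7 := hR.a34 z x y w
  have h8 := hR.anti x z y w
  have h9 := hR.a34 z y x w
  have h10 := hR.a34 w x z y
  have h11 := hR.anti z x w y
  have h12 := hR.pair z x w y
  have h13 := hR.anti y w z x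
  have h14 := hR.a34 w y z x
  linarith

theorem lin_expand (e : OrthonormalBasis ι ℝ V) (f : V → ℝ)
    (hadd : ∀ x y, f (x + y) = f x + f y) (hsmul : ∀ (t : ℝ) x, f (t • x) = t * f x) (x : V) :
    f x = ∑ i, inner ℝ (e i) x * f (e i) := by
  let F : V →ₗ[ℝ] ℝ := { toFun := f, map_add' := hadd, map_smul' := hsmul }
  have h := congrArg F (e.sum_repr' x)
  rw [map_sum] at h
  have h2 : F x = f x := rfl
  rw [← h2, ← h]
  refine Finset.sum_congr rfl fun i _ => ?_
  rw [map_smul]
  rfl

/-- the components of the tensor product -/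
noncomputable def tp (e : OrthonormalBasis ι ℝ V) (x z : V) (p : ι × ι) : ℝ :=
  inner ℝ (e p.1) x * inner ℝ (e p.2) z

/-- the matrix -/
noncomputable def MM2 (e : OrthonormalBasis ι ℝ V) (R : V → V → V → V → ℝ) (p q : ι × ι) : ℝ :=
  Mf R (e p.1) (e p.2) (e q.1) (e q.2)

theorem Mf_expand2 (hR : AlgCurv R) (e : OrthonormalBasis ι ℝ V) (x z y w : V) :
    Mf R x z y w = ∑ p : ι × ι, Mf R (e p.1) (e p.2) y w * tp e x z p := by
  rw [Fintype.sum_prod_type, lin_expand e (fun x => Mf R x z y w) (fun _ _ => Mf_add hR _ _ _ _ _)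
    (fun _ _ => Mf_smul hR _ _ _ _ _) x]
  refine Finset.sum_congr rfl fun i _ => ?_
  rw [Mf_swap, lin_expand e (fun z => Mf R z (e i) y w) (fun _ _ => Mf_add hR _ _ _ _ _)
    (fun _ _ => Mf_smul hR _ _ _ _ _) z, Finset.mul_sum]
  refine Finset.sum_congr rfl fun j _ => ?_
  rw [Mf_swap]
  unfold tp
  ring

theorem Mf_expand4 (hR : AlgCurv R) (e : OrthonormalBasis ι ℝ V) (x z y w : V) :
    Mf R x z y w = bf (MM2 e R) (tp e x z) (tp e y w) := by
  rw [Mf_expand2 hR e]
  unfold bf MM2
  refine Finset.sum_congr rfl fun p _ => ?_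
  rw [Mf_pair hR, Mf_expand2 hR e, Finset.sum_mul]
  refine Finset.sum_congr rfl fun q _ => ?_
  rw [Mf_pair hR]
  ring

theorem MM2_symm (hR : AlgCurv R) (e : OrthonormalBasis ι ℝ V) (p q : ι × ι) :
    MM2 e R p q = MM2 e R q p := Mf_pair hR _ _ _ _

theorem MM2_swap (e : OrthonormalBasis ι ℝ V) (p q : ι × ι) :
    MM2 e R p.swap q = MM2 e R p q := Mf_swap R _ _ _ _

theorem second_eq (e : OrthonormalBasis ι ℝ V) {h : ι → ι → ℝ}
    (hh : ∀ i j, h i j = h j i) : second e R h = qf (MM2 e R) (fun p => h p.1 p.2) := by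
  have h1 : qf (MM2 e R) (fun p => h p.1 p.2) = ∑ i, ∑ j, ∑ k, ∑ l,
      (R (e i) (e k) (e l) (e j) + R (e j) (e k) (e l) (e i)) / 2 * (h i j * h k l) := by
    unfold qf MM2 Mf
    rw [Fintype.sum_prod_type]
    refine Finset.sum_congr rfl fun i _ => Finset.sum_congr rfl fun j _ => ?_
    rw [Fintype.sum_prod_type]
  have h2 : second e R h = ∑ i, ∑ j, ∑ k, ∑ l,
      R (e j) (e k) (e l) (e i) * (h i j * h k l) := by
    unfold second
    rw [Finset.sum_comm]
    refine Finset.sum_congr rfl fun i _ => Finset.sum_congr rfl fun j _ =>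
      Finset.sum_congr rfl fun k _ => Finset.sum_congr rfl fun l _ => ?_
    rw [hh j i]
  have h3 : second e R h = (second e R h + ∑ i, ∑ j, ∑ k, ∑ l,
      R (e j) (e k) (e l) (e i) * (h i j * h k l)) / 2 := by
    rw [← h2]; ring
  rw [h3, h1]
  unfold second
  simp only [← Finset.sum_add_distrib, Finset.sum_div]
  refine Finset.sum_congr rfl fun i _ => Finset.sum_congr rfl fun j _ =>
    Finset.sum_congr rfl fun k _ => Finset.sum_congr rfl fun l _ => ?_
  ring

/-- the symmetric matrices -/
def Sy (ι : Type) : Submodule ℝ (ι × ι → ℝ) where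
  carrier := {v | ∀ p : ι × ι, v p.swap = v p}
  add_mem' := fun {a b} ha hb p => by
    rw [Pi.add_apply, Pi.add_apply, ha p, hb p]
  zero_mem' := fun _ => rfl
  smul_mem' := fun c x hx p => by
    rw [Pi.smul_apply, Pi.smul_apply, hx p]

/-- the metric -/
def one' (ι : Type) [DecidableEq ι] (p : ι × ι) : ℝ := if p.1 = p.2 then 1 else 0

theorem one_mem : one' ι ∈ Sy ι := by
  intro p
  unfold one'
  simp only [Prod.fst_swap, Prod.snd_swap, eq_comm]

theorem sum_one (f : ι × ι → ℝ) : ∑ q, f q * one' ι q = ∑ k, f (k, k) := by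
  rw [Fintype.sum_prod_type]
  refine Finset.sum_congr rfl fun i _ => ?_
  simp [one']

theorem bf_swap (e : OrthonormalBasis ι ℝ V) (v z : ι × ι → ℝ) :
    bf (MM2 e R) (fun p => v p.swap) z = bf (MM2 e R) v z := by
  unfold bf
  rw [← (Equiv.prodComm ι ι).sum_comp]
  refine Finset.sum_congr rfl fun p _ => Finset.sum_congr rfl fun q _ => ?_
  have h1 : (Equiv.prodComm ι ι) p = p.swap := rfl
  rw [h1, MM2_swap]
  simp only [Prod.swap_swap]

theorem bf_comm {n : Type} [Fintype n] (M : n → n → ℝ) (hM : ∀ i j, M i j = M j i)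
    (x y : n → ℝ) : bf M x y = bf M y x := by
  unfold bf
  rw [Finset.sum_comm]
  refine Finset.sum_congr rfl fun i _ => Finset.sum_congr rfl fun j _ => ?_
  rw [hM j i]
  ring

/-- the symmetric part -/
noncomputable def syp (v : ι × ι → ℝ) : ι × ι → ℝ :=
  (1 / 2 : ℝ) • v + (1 / 2 : ℝ) • fun p => v p.swap

theorem syp_mem (v : ι × ι → ℝ) : syp v ∈ Sy ι := by
  intro p
  simp only [syp, Pi.add_apply, Pi.smul_apply, Prod.swap_swap, smul_eq_mul]
  ring

theorem bf_syp (e : OrthonormalBasis ι ℝ V) (v z : ι × ι → ℝ) :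
    bf (MM2 e R) (syp v) z = bf (MM2 e R) v z := by
  rw [syp, bf_lin, bf_swap]
  ring

theorem qf_syp (hR : AlgCurv R) (e : OrthonormalBasis ι ℝ V) (v : ι × ι → ℝ) :
    qf (MM2 e R) (syp v) = qf (MM2 e R) v := by
  rw [← bf_self, bf_syp, bf_comm _ (MM2_symm hR e), bf_syp, bf_self]

/-- **The Gauss equation of a curvature tensor with a Lorentzian operator of the second kind.** -/
theorem causal_of_pos (hR : AlgCurv R) (hK : ∀ x y, R x y x y ≤ 0)
    (e : OrthonormalBasis ι ℝ V) (a : ι × ι → ℝ)
    (ha : ∀ v ∈ Sy ι, ∑ p, a p * v p = 0 → qf (MM2 e R) v ≤ 0)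
    (hs : 0 < qf (MM2 e R) (one' ι)) : ∃ N, CausalOn ⊤ N R := by
  set M := MM2 e R with hM
  set s := qf M (one' ι) with hs'
  set β0 : ι × ι → ℝ := fun p => ∑ q, M p q * one' ι q with hβ0
  have hb0 : ∀ v, bf M v (one' ι) = ∑ p, β0 p * v p := by
    intro v
    unfold bf
    refine Finset.sum_congr rfl fun p _ => ?_
    rw [hβ0, Finset.sum_mul]
    refine Finset.sum_congr rfl fun q _ => ?_
    ring
  set M' : ι × ι → ι × ι → ℝ := fun p q => β0 p * β0 q / s - M p q with hM'
  have hM's : ∀ p q, M' p q = M' q p := by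
    intro p q
    simp only [hM']
    rw [hM, MM2_symm hR e p q]
    ring
  have hq' : ∀ v, qf M' v = (∑ p, β0 p * v p) ^ 2 / s - qf M v := by
    intro v
    unfold qf
    rw [sq, Finset.sum_mul_sum, Finset.sum_div, ← Finset.sum_sub_distrib]
    refine Finset.sum_congr rfl fun p _ => ?_
    rw [Finset.sum_div, ← Finset.sum_sub_distrib]
    refine Finset.sum_congr rfl fun q _ => ?_
    simp only [hM']
    ring
  have hpos : ∀ v, 0 ≤ qf M' v := by
    intro v
    have h1 := lorentz M (MM2_symm hR e) (Sy ι) a ha one_mem hs (syp_mem v)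
    rw [qf_syp hR, bf_syp, hb0, ← hs'] at h1
    rw [hq', sub_nonneg, le_div_iff₀ hs]
    linarith
  obtain ⟨B, hB⟩ := exists_gram M' hM's hpos
  have hβs : ∀ p, β0 p.swap = β0 p := by
    intro p
    simp only [hβ0]
    refine Finset.sum_congr rfl fun q _ => ?_
    rw [hM, MM2_swap]
  have hBs : ∀ r p, B r p.swap = B r p := by
    intro r p
    have h1 : ∑ r, (B r p.swap - B r p) ^ 2 = 0 := by
      have h2 : ∑ r, (B r p.swap - B r p) ^ 2 = M' p.swap p.swap - 2 * M' p.swap p + M' p p := by
        rw [hB, hB, hB, Finset.mul_sum, ← Finset.sum_sub_distrib, ← Finset.sum_add_distrib]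
        refine Finset.sum_congr rfl fun r _ => ?_
        ring
      rw [h2]
      have h3 : ∀ p q : ι × ι, M' p.swap q = M' p q := by
        intro p q
        simp only [hM', hβs]
        rw [hM, MM2_swap]
      rw [h3 p p.swap, hM's p p.swap, h3]
      ring
    have h2 := (Finset.sum_eq_zero_iff_of_nonneg (fun r _ => sq_nonneg _)).1 h1 r
      (Finset.mem_univ _)
    have h3 := (pow_eq_zero_iff two_ne_zero).1 h2
    linarith
  set g := (Fintype.equivFin (ι × ι)).symm with hg
  have hsum : ∀ f : ι × ι → ℝ, ∑ k, f (g k) = ∑ r, f r := fun f => g.sum_comp f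
  set c : ℝ := Real.sqrt (2 / 3) with hc
  have hc2 : c * c = 2 / 3 := Real.mul_self_sqrt (by norm_num)
  set d : ℝ := c / Real.sqrt s with hd
  have hd2 : d * d * s = 2 / 3 := by
    have h1 : Real.sqrt s * Real.sqrt s = s := Real.mul_self_sqrt hs.le
    have h2 : Real.sqrt s ≠ 0 := (Real.sqrt_pos.2 hs).ne'
    rw [hd, div_mul_div_comm, hc2, h1, div_mul_cancel₀ _ hs.ne']
  have hd0 : 0 ≤ d := by positivity
  have htop : ∀ x ∈ (⊤ : Submodule ℝ V)ᗮ, x = 0 := by
    intro x hx
    rwa [Submodule.top_orthogonal_eq_bot, Submodule.mem_bot] at hx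
  have hform : ∀ (γ : ι × ι → ℝ), (∀ p, γ p.swap = γ p) → ∀ t : ℝ,
      SymForm (⊤ : Submodule ℝ V) (fun x y => t * ∑ p, γ p * tp e x y p) := by
    intro γ hγ t
    refine ⟨fun x x' y => ?_, fun r x y => ?_, fun x y => ?_, fun x hx y => ?_⟩
    · rw [← mul_add, ← Finset.sum_add_distrib]
      congr 1
      refine Finset.sum_congr rfl fun p _ => ?_
      unfold tp
      rw [inner_add_right]
      ring
    · rw [Finset.mul_sum, Finset.mul_sum, Finset.mul_sum]
      refine Finset.sum_congr rfl fun p _ => ?_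
      unfold tp
      rw [inner_smul_right]
      ring
    · congr 1
      rw [← (Equiv.prodComm ι ι).sum_comp]
      refine Finset.sum_congr rfl fun p _ => ?_
      have h1 : (Equiv.prodComm ι ι) p = p.swap := rfl
      rw [h1, hγ]
      unfold tp
      rw [Prod.fst_swap, Prod.snd_swap]
      ring
    · rw [htop x hx]
      unfold tp
      simp
  set b : V → V → ℝ := fun x y => d * ∑ p, β0 p * tp e x y p with hb
  set β : Fin (Fintype.card (ι × ι)) → V → V → ℝ :=
    fun k x y => c * ∑ p, B (g k) p * tp e x y p with hβ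
  have hmain : ∀ x z y w, (2 / 3) * Mf R x z y w =
      b x z * b y w - ∑ k, β k x z * β k y w := by
    intro x z y w
    have h1 : Mf R x z y w = (∑ p, β0 p * tp e x z p) * (∑ p, β0 p * tp e y w p) / s -
        ∑ r, (∑ p, B r p * tp e x z p) * (∑ p, B r p * tp e y w p) := by
      have h2 : ∀ p q, M p q = β0 p * β0 q / s - ∑ r, B r p * B r q := by
        intro p q
        rw [← hB]
        simp only [hM']
        ring
      rw [Mf_expand4 hR e, ← hM]
      unfold bf
      simp only [h2, sub_mul, Finset.sum_sub_distrib]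
      congr 1
      · rw [Finset.sum_mul_sum, Finset.sum_div]
        refine Finset.sum_congr rfl fun p _ => ?_
        rw [Finset.sum_div]
        refine Finset.sum_congr rfl fun q _ => ?_
        ring
      · conv_rhs => simp only [Finset.sum_mul_sum]
        conv_lhs => simp only [Finset.sum_mul]
        rw [Finset.sum_congr rfl fun p _ => Finset.sum_comm, Finset.sum_comm]
        refine Finset.sum_congr rfl fun r _ => Finset.sum_congr rfl fun p _ =>
          Finset.sum_congr rfl fun q _ => ?_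
        ring
    rw [h1]
    have h3 : ∑ k, β k x z * β k y w =
        ∑ r, (c * ∑ p, B r p * tp e x z p) * (c * ∑ p, B r p * tp e y w p) :=
      hsum (fun r => (c * ∑ p, B r p * tp e x z p) * (c * ∑ p, B r p * tp e y w p))
    rw [h3]
    have h4 : ∑ r, (c * ∑ p, B r p * tp e x z p) * (c * ∑ p, B r p * tp e y w p) =
        (2 / 3) * ∑ r, (∑ p, B r p * tp e x z p) * (∑ p, B r p * tp e y w p) := by
      rw [Finset.mul_sum]
      refine Finset.sum_congr rfl fun r _ => ?_
      rw [← hc2]
      ring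
    rw [h4]
    simp only [hb]
    have h5 : (2 / 3) * ((∑ p, β0 p * tp e x z p) * (∑ p, β0 p * tp e y w p) / s) =
        (d * ∑ p, β0 p * tp e x z p) * (d * ∑ p, β0 p * tp e y w p) := by
      rw [← hd2]
      field_simp
    rw [← h5]
    ring
  refine ⟨Fintype.card (ι × ι), b, β, hform _ hβs _, fun k => hform _ (hBs _) _, fun x => ⟨?_, ?_⟩,
    fun x y z w => ?_⟩
  · refine mul_nonneg hd0 ?_
    have h1 : ∑ p, β0 p * tp e x x p = ∑ k, Mf R x x (e k) (e k) := by
      rw [← hb0]
      unfold bf
      rw [Finset.sum_comm]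
      have h2 : ∀ q, ∑ p, M p q * (tp e x x p * one' ι q) = Mf R x x (e q.1) (e q.2) * one' ι q := by
        intro q
        rw [Mf_expand2 hR e x x, Finset.sum_mul]
        refine Finset.sum_congr rfl fun p _ => ?_
        rw [hM, MM2]
        ring
      simp only [h2]
      exact sum_one (fun q => Mf R x x (e q.1) (e q.2))
    rw [h1]
    refine Finset.sum_nonneg fun k _ => ?_
    have h2 := hK x (e k)
    have h3 := hR.a34 x (e k) x (e k)
    unfold Mf
    linarith
  · have h1 := hmain x x x x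
    rw [Mf_zero hR, mul_zero] at h1
    have h2 : ∑ k, β k x x ^ 2 = ∑ k, β k x x * β k x x :=
      Finset.sum_congr rfl fun k _ => sq _
    rw [h2, sq]
    linarith
  · rw [Mf_curv hR, Finset.sum_sub_distrib]
    have h1 := hmain x z y w
    have h2 := hmain x w y z
    linarith

/-- a nonnegative quadratic function which vanishes on a basis is zero -/
theorem quad_zero (e : OrthonormalBasis ι ℝ V) (f : V → ℝ) (h0 : ∀ x, 0 ≤ f x)
    (hp : ∀ x y, f (x + y) + f (x - y) = 2 * f x + 2 * f y) (hs : ∀ (t : ℝ) x, f (t • x) = t ^ 2 * f x)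
    (he : ∀ i, f (e i) = 0) (x : V) : f x = 0 := by
  have hadd : ∀ x y, f x = 0 → f y = 0 → f (x + y) = 0 := by
    intro x y hx hy
    have h1 := hp x y
    have h2 := h0 (x + y)
    have h3 := h0 (x - y)
    rw [hx, hy] at h1
    linarith
  have hsum : ∀ s : Finset ι, f (∑ i ∈ s, inner ℝ (e i) x • e i) = 0 := by
    intro s
    induction s using Finset.induction_on with
    | empty =>
      rw [Finset.sum_empty]
      have := hs 0 0
      rw [zero_smul] at this
      simpa using this
    | insert a s ha ih =>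
      rw [Finset.sum_insert ha]
      exact hadd _ _ (by rw [hs, he, mul_zero]) ih
  rw [← e.sum_repr' x]
  exact hsum _

theorem curv_zero (hR : AlgCurv R) (h : ∀ x y, R x y x y = 0) (x y z w : V) : R x y z w = 0 := by
  have h1 : ∀ x y z, R x y z y = 0 := by
    intro x y z
    have e1 := h (x + z) y
    rw [hR.add, hR.add3, hR.add3, h, h, hR.pair x y z y] at e1
    linarith
  have h2 : ∀ x y z w, R x y z w + R x w z y = 0 := by
    intro x y z w
    have e1 := h1 x (y + w) z
    rw [hR.add2, hR.add4, hR.add4, h1, h1] at e1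
    linarith
  have h3 := h2 z y x w
  have h4 := hR.pair x y z w
  have h5 := hR.anti z y x w
  have h6 := h2 x z y w
  have h7 := hR.a34 x w y z
  have h8 := h2 x y z w
  have h9 := hR.anti x z y w
  have h10 := hR.bianchi x y z w
  linarith

/-- **The Gauss equation of a curvature tensor with a Lorentzian operator of the second kind.** -/
theorem causal_of_lorentz (hR : AlgCurv R) (hK : ∀ x y, R x y x y ≤ 0)
    (e : OrthonormalBasis ι ℝ V) (a : ι × ι → ℝ)
    (ha : ∀ v ∈ Sy ι, ∑ p, a p * v p = 0 → qf (MM2 e R) v ≤ 0) : ∃ N, CausalOn ⊤ N R := by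
  have hs : qf (MM2 e R) (one' ι) = ∑ i, ∑ k, -R (e i) (e k) (e i) (e k) := by
    rw [← bf_self]
    have h1 : bf (MM2 e R) (one' ι) (one' ι) =
        ∑ p, (∑ k, MM2 e R p (k, k)) * one' ι p := by
      unfold bf
      refine Finset.sum_congr rfl fun p _ => ?_
      rw [← sum_one (fun q => MM2 e R p q), Finset.sum_mul]
      refine Finset.sum_congr rfl fun q _ => ?_
      ring
    rw [h1, sum_one]
    refine Finset.sum_congr rfl fun i _ => Finset.sum_congr rfl fun k _ => ?_
    have h3 := hR.a34 (e i) (e k) (e i) (e k)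
    unfold MM2 Mf
    simp only
    linarith
  have hs0 : ∀ i k, 0 ≤ -R (e i) (e k) (e i) (e k) := fun i k => neg_nonneg.2 (hK _ _)
  have hs1 : 0 ≤ qf (MM2 e R) (one' ι) := by
    rw [hs]
    exact Finset.sum_nonneg fun i _ => Finset.sum_nonneg fun k _ => hs0 i k
  rcases hs1.eq_or_lt with h0 | h0
  · have h1 : ∀ i k, -R (e i) (e k) (e i) (e k) = 0 := by
      intro i k
      have h2 := (Finset.sum_eq_zero_iff_of_nonneg (fun i _ =>
        Finset.sum_nonneg fun k _ => hs0 i k)).1 (hs.symm.trans h0.symm) i (Finset.mem_univ _)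
      exact (Finset.sum_eq_zero_iff_of_nonneg (fun k _ => hs0 i k)).1 h2 k (Finset.mem_univ _)
    have h2 : ∀ k x, -R x (e k) x (e k) = 0 := by
      intro k x
      refine quad_zero e (fun x => -R x (e k) x (e k)) (fun x => neg_nonneg.2 (hK _ _)) ?_ ?_
        (fun i => h1 i k) x
      · intro x y
        simp only [hR.add, hR.add3, hR.sub1, hR.sub3]
        ring
      · intro t x
        simp only [hR.smul, hR.smul3]
        ring
    have h3 : ∀ x y, -R x y x y = 0 := by
      intro x y
      refine quad_zero e (fun y => -R x y x y) (fun y => neg_nonneg.2 (hK _ _)) ?_ ?_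
        (fun i => h2 i x) y
      · intro y z
        simp only [hR.add2, hR.add4, hR.sub2, hR.sub4]
        ring
      · intro t x
        simp only [hR.smul2, hR.smul4]
        ring
    have h4 := curv_zero hR (fun x y => neg_eq_zero.1 (h3 x y))
    refine ⟨0, fun _ _ => 0, fun k => k.elim0, ⟨?_, ?_, ?_, ?_⟩, fun k => k.elim0,
      fun x => ⟨le_rfl, by simp⟩, fun x y z w => ?_⟩
    · intros; simp
    · intros; simp
    · intros; rfl
    · intros; rfl
    · rw [h4]
      simp
  · exact causal_of_pos hR hK e a ha h0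

end geo

end Run7.h951.Hyp
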