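import Mathlib

/-!
# Univariate complex polynomials without zeros in a disc or a half-plane
-/

set_option autoImplicit false

namespace Run7.h951.Hyp

open Filter Topology

/-- growth of a polynomial without zeros in a disc -/
theorem eval_bound {f : Polynomial ℂ} {n : ℕ} (hn : f.natDegree ≤ n) {r : ℝ} (hr : 0 < r)
    (h : ∀ t : ℂ, ‖t‖ < r → f.eval t ≠ 0) (t : ℂ) :
    ‖f.eval t‖ ≤ ‖f.eval 0‖ * (1 + ‖t‖ / r) ^ n := by
  have hs : f.Splits := IsAlgClosed.splits f
  have hroot : ∀ a ∈ f.roots, r ≤ ‖a‖ := by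
    intro a ha
    by_contra hlt
    exact h a (not_le.1 hlt) (Polynomial.isRoot_of_mem_roots ha)
  have hcard : Multiset.card f.roots ≤ n := (Polynomial.card_roots' f).trans hn
  have key : ∀ s : Multiset ℂ, (∀ a ∈ s, r ≤ ‖a‖) →
      ‖(s.map (fun a => t - a)).prod‖ ≤
        ‖(s.map (fun a => (0 : ℂ) - a)).prod‖ * (1 + ‖t‖ / r) ^ (Multiset.card s) := by
    intro s
    induction s using Multiset.induction_on with
    | empty => intro _; simp
    | cons a s ih =>
      intro hs'
      have h1 := ih fun b hb => hs' b (Multiset.mem_cons_of_mem hb)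
      have h2 := hs' a (Multiset.mem_cons_self a s)
      rw [Multiset.map_cons, Multiset.prod_cons, Multiset.map_cons, Multiset.prod_cons, norm_mul,
        norm_mul, Multiset.card_cons, pow_succ]
      have h3 : ‖t - a‖ ≤ ‖(0 : ℂ) - a‖ * (1 + ‖t‖ / r) := by
        rw [zero_sub, norm_neg]
        have h4 : ‖t‖ ≤ ‖a‖ * (‖t‖ / r) := by
          rw [mul_div_assoc', le_div_iff₀ hr, mul_comm]
          exact mul_le_mul_of_nonneg_right h2 (norm_nonneg _)
        calc ‖t - a‖ ≤ ‖t‖ + ‖a‖ := norm_sub_le _ _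
          _ ≤ ‖a‖ * (1 + ‖t‖ / r) := by linarith
      calc ‖t - a‖ * ‖(s.map (fun a => t - a)).prod‖
          ≤ (‖(0 : ℂ) - a‖ * (1 + ‖t‖ / r)) *
            (‖(s.map (fun a => (0 : ℂ) - a)).prod‖ * (1 + ‖t‖ / r) ^ (Multiset.card s)) :=
            mul_le_mul h3 h1 (norm_nonneg _) (by positivity)
        _ = _ := by ring
  rw [hs.eval_eq_prod_roots, hs.eval_eq_prod_roots, norm_mul, norm_mul, mul_assoc]
  refine mul_le_mul_of_nonneg_left ((key f.roots hroot).trans ?_) (norm_nonneg _)
  refine mul_le_mul_of_nonneg_left (pow_le_pow_right₀ ?_ hcard) (norm_nonneg _)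
  have : 0 ≤ ‖t‖ / r := by positivity
  linarith

/-- if `f` has no zeros in the closed upper half plane, then `f(0) + κ f'(0) ≠ 0` -/
theorem eval_add_derivative {f : Polynomial ℂ} (h : ∀ t : ℂ, 0 ≤ t.im → f.eval t ≠ 0) (κ : ℝ) :
    f.eval 0 + κ * f.derivative.eval 0 ≠ 0 := by
  have hs : f.Splits := IsAlgClosed.splits f
  have h0 : f.eval 0 ≠ 0 := h 0 (by simp)
  have hroot : ∀ a ∈ f.roots, a.im < 0 := by
    intro a ha
    by_contra hlt
    exact h a (not_lt.1 hlt) (Polynomial.isRoot_of_mem_roots ha)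
  have h1 := hs.eval_derivative_eq_eval_mul_sum h0
  rw [h1]
  intro hcon
  have h2 : (1 : ℂ) + κ * (f.roots.map fun z => 1 / ((0 : ℂ) - z)).sum = 0 := by
    have : f.eval 0 * (1 + κ * (f.roots.map fun z => 1 / ((0 : ℂ) - z)).sum) = 0 := by
      linear_combination hcon
    exact (mul_eq_zero.1 this).resolve_left h0
  have key : ∀ s : Multiset ℂ, (∀ a ∈ s, a.im < 0) →
      (s = 0 ∨ ((s.map fun z => 1 / ((0 : ℂ) - z)).sum).im < 0) := by
    intro s
    induction s using Multiset.induction_on with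
    | empty => intro _; left; rfl
    | cons a s ih =>
      intro hs'
      right
      have h3 := ih fun b hb => hs' b (Multiset.mem_cons_of_mem hb)
      have h4 := hs' a (Multiset.mem_cons_self a s)
      rw [Multiset.map_cons, Multiset.sum_cons, Complex.add_im]
      have h5 : (1 / ((0 : ℂ) - a)).im < 0 := by
        rw [one_div, Complex.inv_im, zero_sub, Complex.neg_im, neg_neg]
        apply div_neg_of_neg_of_pos h4
        rw [Complex.normSq_pos]
        intro h6
        rw [neg_eq_zero] at h6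
        rw [h6] at h4
        simp at h4
      rcases h3 with h3 | h3
      · rw [h3]; simpa using h5
      · linarith
  rcases key f.roots hroot with h3 | h3
  · rw [h3] at h2
    simp at h2
  · have h4 := congrArg Complex.im h2
    have h5 := congrArg Complex.re h2
    rw [Complex.add_im, Complex.im_ofReal_mul] at h4
    rw [Complex.add_re, Complex.re_ofReal_mul] at h5
    simp only [Complex.one_im, Complex.one_re, Complex.zero_im, Complex.zero_re] at h4 h5
    have h6 : κ = 0 := by
      have : κ * ((f.roots.map fun z => 1 / ((0 : ℂ) - z)).sum).im = 0 := by linarith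
      exact (mul_eq_zero.1 this).resolve_right h3.ne
    rw [h6] at h5
    simp at h5

/-- functions which are polynomials of degree at most `n` on the complex lines -/
def LineP {ι : Type} (n : ℕ) (F : (ι → ℂ) → ℂ) : Prop :=
  ∀ z w : ι → ℂ, ∃ f : Polynomial ℂ, f.natDegree ≤ n ∧ ∀ t : ℂ, f.eval t = F (z + t • w)

/-- **Hurwitz, one variable**: pointwise limits of polynomials of bounded degree without zeros in
a disc. -/
theorem hurwitz_one {κ : Type} {l : Filter κ} [l.NeBot] {n : ℕ} {f : κ → Polynomial ℂ} {g : ℂ → ℂ}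
    (hn : ∀ k, (f k).natDegree ≤ n) (hlim : ∀ t, Tendsto (fun k => (f k).eval t) l (𝓝 (g t)))
    {r : ℝ} (hr : 0 < r) (h : ∀ᶠ k in l, ∀ t : ℂ, ‖t‖ < r → (f k).eval t ≠ 0) (h0 : g 0 = 0)
    (t : ℂ) : g t = 0 := by
  have h1 : ∀ᶠ k in l, ‖(f k).eval t‖ ≤ ‖(f k).eval 0‖ * (1 + ‖t‖ / r) ^ n := by
    filter_upwards [h] with k hk
    exact eval_bound (hn k) hr hk t
  have h2 := le_of_tendsto_of_tendsto (hlim t).norm
    ((hlim 0).norm.mul_const ((1 + ‖t‖ / r) ^ n)) h1
  rw [h0, norm_zero, zero_mul] at h2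
  exact norm_le_zero_iff.1 h2

/-- **Hurwitz**: pointwise limits of polynomials of bounded degree without zeros in an open set -/
theorem hurwitz {ι κ : Type} [Fintype ι] {l : Filter κ} [l.NeBot] {n : ℕ}
    {F : κ → (ι → ℂ) → ℂ} {G : (ι → ℂ) → ℂ} (hn : ∀ k, LineP n (F k))
    (hlim : ∀ z, Tendsto (fun k => F k z) l (𝓝 (G z))) {Ω : Set (ι → ℂ)} (hΩ : IsOpen Ω)
    (h : ∀ᶠ k in l, ∀ z ∈ Ω, F k z ≠ 0) {z : ι → ℂ} (hz : z ∈ Ω) (h0 : G z = 0)
    (w : ι → ℂ) : G w = 0 := by
  obtain ⟨ε, hε, hball⟩ := Metric.isOpen_iff.1 hΩ z hz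
  choose f hf hfe using fun k => hn k z (w - z)
  have h1 := hurwitz_one (l := l) (n := n) (f := f) (g := fun t => G (z + t • (w - z))) hf
    (fun t => by
      simp only [hfe]
      exact hlim _) (r := ε / (‖w - z‖ + 1)) (by positivity)
    (by
      filter_upwards [h] with k hk t ht
      rw [hfe]
      apply hk
      apply hball
      rw [Metric.mem_ball, dist_eq_norm, add_sub_cancel_left, norm_smul]
      rw [lt_div_iff₀ (by positivity)] at ht
      have : 0 ≤ ‖t‖ := norm_nonneg _
      nlinarith) (by simp [h0]) 1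
  simpa using h1

end Run7.h951.Hyp
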